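import Pool.Agent.Lib.MP_8ac08c_co.OE.Stm
import Pool.Agent.Lib.MP_8ac08c_co.Explicit

/-!
# MP_8ac08c_co, project OE: assembly of the strip case
-/

set_option autoImplicit false
set_option exponentiation.threshold 600

open Finset

namespace Pool.Agent.Lib.MP_8ac08c_co.OE

open Pool.Agent.Lib.MP_8ac08c_co Pool.Agent.Lib.MP_8ac08c_co.OD

private lemma asm2_log {κ : ℕ} (h : 2 ^ 500 ≤ κ) : 2 ^ 400 * (Nat.log 2 κ + 1) ≤ κ := by
  have h0 : κ ≠ 0 := by
    have : 0 < 2 ^ 500 := by positivity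
    omega
  have h1 : 500 ≤ Nat.log 2 κ := Nat.le_log_of_pow_le (by norm_num) h
  obtain ⟨n, hn⟩ := Nat.exists_eq_add_of_le h1
  have h2 : 2 ^ Nat.log 2 κ ≤ κ := Nat.pow_log_le_self 2 h0
  have h3 : 501 + n ≤ 2 ^ (100 + n) := by
    have : 100 + n < 2 ^ (100 + n) := Nat.lt_two_pow_self
    have h4 : n < 2 ^ n := Nat.lt_two_pow_self
    have h5 : 2 ^ (100 + n) = 2 ^ 100 * 2 ^ n := pow_add 2 100 n
    have h6 : 1000 ≤ 2 ^ 100 := by norm_num
    nlinarith [Nat.one_le_two_pow (n := n)]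
  calc 2 ^ 400 * (Nat.log 2 κ + 1) = 2 ^ 400 * (501 + n) := by rw [hn]; ring
    _ ≤ 2 ^ 400 * 2 ^ (100 + n) := Nat.mul_le_mul_left _ h3
    _ = 2 ^ Nat.log 2 κ := by rw [← pow_add, hn]; congr 1; ring
    _ ≤ κ := h2

private lemma asm2_Lg {G : Type} [AddCommGroup G] [DecidableEq G] {V Z : Finset G}
    {H H' : AddSubgroup G} {w : G → ℤ} {κ s : ℕ} (hstr : Strip2 V H H' w κ) (hZ : Z ⊆ V) :
    Lg w s Z ≤ H' := by
  unfold Lg
  rw [AddSubgroup.closure_le]
  rintro v ⟨P, N, hP, hN, hd, _, hw, rfl⟩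
  have key := hstr.ker (fun x => if x ∈ P then 1 else if x ∈ N then -1 else 0)
  have e1 : ∀ {M : Type} [AddCommGroup M] (F : G → M),
      ∑ a ∈ V, (if a ∈ P then (1 : ℤ) else if a ∈ N then -1 else 0) • F a =
      ∑ x ∈ P, F x - ∑ x ∈ N, F x := by
    intro M _ F
    have hPV : P ⊆ V := hP.trans hZ
    have hNV : N ⊆ V := hN.trans hZ
    have h1 : ∀ a ∈ V, (if a ∈ P then (1 : ℤ) else if a ∈ N then -1 else 0) • F a =
        (if a ∈ P then F a else 0) - (if a ∈ N then F a else 0) := by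
      intro a _
      by_cases ha : a ∈ P
      · have : a ∉ N := fun h => (disjoint_left.1 hd ha) h
        simp [ha, this]
      · by_cases hb : a ∈ N <;> simp [ha, hb]
    rw [sum_congr rfl h1, sum_sub_distrib, ← sum_filter, ← sum_filter]
    congr 2
    · ext x
      rw [mem_filter]
      exact ⟨fun h => h.2, fun h => ⟨hPV h, h⟩⟩
    · ext x
      rw [mem_filter]
      exact ⟨fun h => h.2, fun h => ⟨hNV h, h⟩⟩
  have h2 := e1 (fun a => w a)
  simp only [smul_eq_mul] at h2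
  rw [e1] at key
  apply key
  rw [h2, hw, sub_self]

/-- elements of the closure -/
private lemma asm2_lin {G : Type} [AddCommGroup G] {V : Finset G} {L : AddSubgroup G} {g : G}
    {y : G → ℤ} (hsub : ∀ a ∈ V, a - y a • g ∈ L) :
    ∀ x ∈ AddSubgroup.closure (V : Set G), ∃ k : ℤ, x - k • g ∈ L := by
  intro x hx
  induction hx using AddSubgroup.closure_induction with
  | mem a ha => exact ⟨y a, hsub a ha⟩
  | zero => exact ⟨0, by simp⟩
  | add a b _ _ ha hb =>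
    obtain ⟨k, hk⟩ := ha
    obtain ⟨l, hl⟩ := hb
    refine ⟨k + l, ?_⟩
    have : a + b - (k + l) • g = (a - k • g) + (b - l • g) := by
      rw [add_smul]
      abel
    rw [this]
    exact L.add_mem hk hl
  | neg a _ ha =>
    obtain ⟨k, hk⟩ := ha
    refine ⟨-k, ?_⟩
    have : -a - (-k) • g = -(a - k • g) := by
      rw [neg_smul]
      abel
    rw [this]
    exact L.neg_mem hk

private lemma asm2_card {G : Type} [AddCommGroup G] [Finite G] {H L : AddSubgroup G} {g : G}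
    {o : ℕ} (ho : 0 < o) (hog : o • g ∈ L) (hH : ∀ x ∈ H, ∃ k : ℤ, x - k • g ∈ L) :
    Nat.card H ≤ o * Nat.card L := by
  have h1 : ∀ x : H, ∃ i : Fin o, (x : G) - (i : ℕ) • g ∈ L := by
    rintro ⟨x, hx⟩
    obtain ⟨k, hk⟩ := hH x hx
    have ho' : (0 : ℤ) < o := by exact_mod_cast ho
    have h2 : 0 ≤ k % o := Int.emod_nonneg _ (ne_of_gt ho')
    have h3 : k % o < o := Int.emod_lt_of_pos _ ho'
    obtain ⟨i, hi⟩ := Int.eq_ofNat_of_zero_le h2
    refine ⟨⟨i, by omega⟩, ?_⟩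
    have h4 : x - i • g = (x - k • g) + (k / o) • (o • g) := by
      have h5 : k = o * (k / o) + i := by
        rw [← hi]
        exact (Int.mul_ediv_add_emod k o).symm
      have h6 : k • g = (k / o) • (o • g) + i • g := by
        conv_lhs => rw [h5]
        rw [add_smul, mul_comm, mul_smul, natCast_zsmul, natCast_zsmul]
      rw [h6]
      abel
    show x - i • g ∈ L
    rw [h4]
    exact L.add_mem hk (L.zsmul_mem hog _)
  choose f hf using h1
  have h2 : Function.Injective fun x : H => (f x, (⟨(x : G) - (f x : ℕ) • g, hf x⟩ : L)) := by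
    intro a b hab
    simp only [Prod.mk.injEq, Subtype.mk.injEq] at hab
    obtain ⟨h3, h4⟩ := hab
    rw [h3] at h4
    exact Subtype.ext (sub_left_injective h4)
  have h3 := Nat.card_le_card_of_injective _ h2
  rwa [Nat.card_prod, Nat.card_eq_fintype_card (α := Fin o), Fintype.card_fin] at h3


private lemma asm2_ord {G : Type} [AddCommGroup G] [Finite G] (L : AddSubgroup G) (g : G) :
    ∃ o : ℕ, 0 < o ∧ o • g ∈ L ∧ ∀ k : ℤ, k • g ∈ L → (o : ℤ) ∣ k := by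
  set q : G ⧸ L := QuotientAddGroup.mk g with hq
  have e1 : ∀ k : ℤ, k • g ∈ L ↔ k • q = 0 := by
    intro k
    rw [hq, ← QuotientAddGroup.mk_zsmul, QuotientAddGroup.eq_zero_iff]
  have e2 : ∀ k : ℕ, k • g ∈ L ↔ k • q = 0 := by
    intro k
    have := e1 k
    rwa [natCast_zsmul, natCast_zsmul] at this
  refine ⟨addOrderOf q, addOrderOf_pos q, (e2 _).2 (addOrderOf_nsmul_eq_zero q), fun k hk => ?_⟩
  exact addOrderOf_dvd_iff_zsmul_eq_zero.2 ((e1 k).1 hk)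

private lemma asm2_dbl {G : Type} [AddCommGroup G] {L : AddSubgroup G} {x : G} (h : x ∈ dbl L) :
    x ∈ L := by
  obtain ⟨k, hk, rfl⟩ := mem_dbl.1 h
  exact L.add_mem hk hk

private lemma asm2_sdiff {G : Type} [DecidableEq G] (A B C : Finset G) :
    #(A \ C) ≤ #(A \ B) + #(B \ C) := by
  refine (card_le_card ?_).trans (card_union_le _ _)
  intro x hx
  rw [mem_sdiff] at hx
  rw [mem_union, mem_sdiff, mem_sdiff]
  by_cases h : x ∈ B
  · exact Or.inr ⟨h, hx.2⟩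
  · exact Or.inl ⟨hx.1, h⟩

theorem p_asm2 : S_asm2 := by
  intro hbs1 hbs4 hbs2 hdif hbs3 hsge hfin hprt G _ _ _ κ h t hy hκ A V H H' w hA1 hA2 hVA hVc
    hstr
  have hlog := asm2_log hκ
  have hκ0 : 0 < κ := lt_of_lt_of_le (by positivity) hκ
  have hcV : #(A \ V) + #V = #A := card_sdiff_add_card_eq_card hVA
  have hVbig : 49 * κ ≤ 50 * #V := by omega
  obtain ⟨V₁, hV₁V, hV₁c, hcls, hrob⟩ := hbs1 G κ V H H' w hκ (by omega) hstr
  have hcV₁ : #(V \ V₁) + #V₁ = #V := card_sdiff_add_card_eq_card hV₁V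
  have hV₁big : 9 * κ ≤ 10 * #V₁ := by omega
  set L := Lg w (2 ^ 86) V₁ with hL
  obtain ⟨V₂, hV₂V₁, hV₂c, hcls2⟩ := hbs4 G κ V₁ L w hy.two (fun a ha => hstr.wt a (hV₁V ha)) rfl
  have hV₂V : V₂ ⊆ V := hV₂V₁.trans hV₁V
  have hcV₂ : #(V₁ \ V₂) + #V₂ = #V₁ := card_sdiff_add_card_eq_card hV₂V₁
  have hVV₂ : 2 ^ 12 * #(V \ V₂) ≤ κ := by
    have := asm2_sdiff V V₁ V₂
    omega
  have hV₂H : AddSubgroup.closure (V₂ : Set G) = H := hstr.rob V₂ hV₂V hVV₂
  have hV₂big : 8 * κ ≤ 10 * #V₂ := by omega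
  obtain ⟨R, hRV₂, hRc, r, hr, hRL⟩ := hbs2 G κ V V₂ H H' L w hκ hy.two hstr hV₂V hV₂big (by
    intro Z hZ hc
    apply hrob Z (hZ.trans hV₂V₁)
    have := asm2_sdiff V₁ V₂ Z
    omega)
  have hLH' : L ≤ H' := asm2_Lg hstr hV₁V
  have hLcard : Nat.card L ≤ 2 ^ 85 * κ :=
    (AddSubgroup.card_le_of_le hLH').trans hstr.card'
  have hκH := hstr.card
  have hnot : ¬ H ≤ H' := by
    intro h1
    have h2 : Nat.card H ≤ 2 ^ 85 * κ := (AddSubgroup.card_le_of_le h1).trans hstr.card'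
    have h3 : κ * κ < 20000 * (2 ^ 85 * κ) := by
      rw [← sq]
      exact lt_of_lt_of_le hκH (Nat.mul_le_mul_left _ h2)
    have h4 : κ < 20000 * 2 ^ 85 := by
      by_contra h5
      push Not at h5
      have := Nat.mul_le_mul_right κ h5
      nlinarith
    have h5 : (20000 * 2 ^ 85 : ℕ) ≤ 2 ^ 500 := by norm_num
    omega
  -- a non-zero weight
  have hw0 : ∃ a ∈ V₁, w a ≠ 0 := by
    by_contra hcon
    push Not at hcon
    apply hnot
    rw [← hV₂H, AddSubgroup.closure_le]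
    intro a ha
    have ha' : a ∈ V₁ := hV₂V₁ ha
    have key := hstr.ker (fun x => if x = a then 1 else 0)
    simp only [ite_mul, one_mul, zero_mul, ite_smul, one_smul, zero_smul] at key
    rw [sum_ite_eq' V a, sum_ite_eq' V a, if_pos (hV₁V ha'), if_pos (hV₁V ha')] at key
    exact key (hcon a ha')
  obtain ⟨g, y, hgcl, hsub, hwt, heq, hgcd⟩ := hbs3 G (2 ^ 85) V₁ L w
    (fun a ha => hstr.wt a (hV₁V ha)) hw0
    (fun a ha => by
      have h1 := hcls a ha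
      have h2 : (2 ^ 85 * 2 ^ 101 : ℕ) ≤ 2 ^ 500 := by norm_num
      have h3 : 2 ^ 101 * 2 ^ 85 ≤ 2 ^ 101 * #(V₁.filter fun x => (w x).natAbs = (w a).natAbs) := by
        linarith
      exact Nat.le_of_mul_le_mul_left h3 (by positivity))
    (fun P N hP hN hd hc hw => AddSubgroup.subset_closure
      ⟨P, N, hP, hN, hd, hc.trans (by norm_num), hw, rfl⟩)
  -- a non-zero multiple
  obtain ⟨a₁, ha₁, hya₁⟩ : ∃ a ∈ V₂, y a ≠ 0 := by
    by_contra hcon
    push Not at hcon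
    apply hnot
    refine le_trans ?_ hLH'
    rw [← hV₂H, AddSubgroup.closure_le]
    intro a ha
    have h1 := hsub a (hV₂V₁ ha)
    rw [hcon a ha, zero_smul, sub_zero] at h1
    exact h1
  set M := dbl L with hM
  have hLM : Nat.card L ≤ 4 * Nat.card M :=
    (card_le_dbl' L).trans (Nat.mul_le_mul_right _ (by convert hy.two))
  -- the size of L
  have hLbig : κ ≤ 2 ^ 88 * Nat.card L := by
    obtain ⟨C, hC1, hC2⟩ := hdif G w (2 ^ 85) V₁ (fun a ha => hstr.wt a (hV₁V ha))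
    have h1 : #C ≤ Nat.card L := by
      have h2 : (C : Set G) ⊆ (L : Set G) := by
        intro v hv
        obtain ⟨P, N, hP, hN, hd, hc, hw, hv⟩ := hC2 v hv
        exact AddSubgroup.subset_closure ⟨P, N, hP, hN, hd, hc.trans (by norm_num), hw, hv⟩
      have h3 := Set.ncard_le_ncard h2 (Set.toFinite _)
      rw [Set.ncard_coe_finset] at h3
      exact h3
    have h2 : #V₁ ≤ (2 * 2 ^ 85 + 1) * Nat.card L := hC1.trans (Nat.mul_le_mul_left _ h1)
    have h3 : (10 * (2 * 2 ^ 85 + 1) : ℕ) ≤ 9 * 2 ^ 88 := by norm_num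
    have h4 : 9 * κ ≤ 9 * (2 ^ 88 * Nat.card L) := by
      calc 9 * κ ≤ 10 * #V₁ := hV₁big
        _ ≤ 10 * ((2 * 2 ^ 85 + 1) * Nat.card L) := Nat.mul_le_mul_left _ h2
        _ = 10 * (2 * 2 ^ 85 + 1) * Nat.card L := by ring
        _ ≤ 9 * 2 ^ 88 * Nat.card L := Nat.mul_le_mul_right _ h3
        _ = _ := by ring
    exact Nat.le_of_mul_le_mul_left h4 (by norm_num)
  have hm1 : κ ≤ (2 ^ 90 + 1) * Nat.card M := by
    calc κ ≤ 2 ^ 88 * Nat.card L := hLbig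
      _ ≤ 2 ^ 88 * (4 * Nat.card M) := Nat.mul_le_mul_left _ hLM
      _ = 2 ^ 90 * Nat.card M := by ring
      _ ≤ _ := Nat.mul_le_mul_right _ (by norm_num)
  -- the order of g
  obtain ⟨o, ho0, hog, hodvd⟩ := asm2_ord L g
  have hobig : 2 ^ 176 < o := by
    have h1 : Nat.card H ≤ o * Nat.card L :=
      asm2_card ho0 hog (fun x hx => asm2_lin (fun a ha => hsub a (hV₂V₁ ha)) x
        (by rw [hV₂H]; exact hx))
    by_contra h2
    push Not at h2
    have h3 : κ * κ < 20000 * (2 ^ 176 * (2 ^ 85 * κ)) := by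
      rw [← sq]
      refine lt_of_lt_of_le hκH (Nat.mul_le_mul_left _ (h1.trans ?_))
      exact Nat.mul_le_mul h2 hLcard
    have h4 : κ < 20000 * (2 ^ 176 * 2 ^ 85) := by
      by_contra h5
      push Not at h5
      have := Nat.mul_le_mul_right κ h5
      nlinarith
    have h5 : (20000 * (2 ^ 176 * 2 ^ 85) : ℕ) ≤ 2 ^ 500 := by norm_num
    omega
  have hm : ∀ k : ℕ, 0 < k → k ≤ 2 ^ 90 → (2 * k) • a₁ ∉ M := by
    intro k hk0 hk hmem
    have hmemL : (2 * k) • a₁ ∈ L := asm2_dbl hmem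
    have h0 := L.nsmul_mem (hsub a₁ (hV₂V₁ ha₁)) (2 * k)
    rw [nsmul_sub] at h0
    have h1 : (2 * k) • (y a₁ • g) = (((2 * k : ℕ) : ℤ) * y a₁) • g := by
      rw [← natCast_zsmul, ← mul_smul]
    rw [h1] at h0
    have h6 : (((2 * k : ℕ) : ℤ) * y a₁) • g ∈ L := by
      have := L.sub_mem hmemL h0
      rwa [sub_sub_cancel] at this
    have h2 := hodvd _ h6
    have h3 : o ≤ (((2 * k : ℕ) : ℤ) * y a₁).natAbs := by
      apply Nat.le_of_dvd
      · rw [Int.natAbs_mul, Int.natAbs_natCast]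
        exact Nat.mul_pos (by omega) (Int.natAbs_pos.2 hya₁)
      · exact Int.natCast_dvd.1 h2
    rw [Int.natAbs_mul, Int.natAbs_natCast] at h3
    have h4 : 2 * k * (y a₁).natAbs ≤ 2 * 2 ^ 90 * 2 ^ 85 :=
      Nat.mul_le_mul (Nat.mul_le_mul_left _ hk) (hwt a₁ (hV₂V₁ ha₁))
    have h5 : (2 * 2 ^ 90 * 2 ^ 85 : ℕ) = 2 ^ 176 := by norm_num
    omega
  -- log of the order
  have hlogG : Nat.log 2 (Nat.card G) ≤ 2 * Nat.log 2 κ + 1 := by
    have h1 : Nat.card G ≤ κ * κ := by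
      rw [hy.card]
      exact Nat.mul_le_mul_right _ hy.le
    have h2 : κ < 2 ^ (Nat.log 2 κ + 1) := Nat.lt_pow_succ_log_self (by norm_num) κ
    have h3 : κ * κ < 2 ^ (2 * Nat.log 2 κ + 2) := by
      have e : 2 ^ (2 * Nat.log 2 κ + 2) = 2 ^ (Nat.log 2 κ + 1) * 2 ^ (Nat.log 2 κ + 1) := by
        rw [← pow_add]
        congr 1
        ring
      rw [e]
      exact Nat.mul_lt_mul'' h2 h2
    have h4 : Nat.log 2 (Nat.card G) < 2 * Nat.log 2 κ + 2 :=
      Nat.log_lt_of_lt_pow (Nat.card_pos.ne') (lt_of_le_of_lt h1 h3)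
    omega
  have ht : t ≤ Nat.log 2 κ := by
    apply Nat.le_log_of_pow_le (by norm_num)
    exact hy.ge.trans hy.le
  set nE : ℕ := 2 * (t + 2 + 2 ^ 90 * (Nat.log 2 (Nat.card G) + 2)) with hnE
  have hnEc : 2 ^ 210 * nE ≤ κ := by
    have h1 : nE ≤ 2 ^ 94 * (Nat.log 2 κ + 1) := by
      rw [hnE]
      have : 2 ^ 90 * (Nat.log 2 (Nat.card G) + 2) ≤ 2 ^ 90 * (2 * Nat.log 2 κ + 3) :=
        Nat.mul_le_mul_left _ (by omega)
      have e2 : (2 ^ 94 : ℕ) = 16 * 2 ^ 90 := by norm_num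
      rw [e2]
      nlinarith [Nat.zero_le (Nat.log 2 κ), Nat.one_le_two_pow (n := 90)]
    calc 2 ^ 210 * nE ≤ 2 ^ 210 * (2 ^ 94 * (Nat.log 2 κ + 1)) := Nat.mul_le_mul_left _ h1
      _ = 2 ^ 304 * (Nat.log 2 κ + 1) := by ring
      _ ≤ 2 ^ 400 * (Nat.log 2 κ + 1) := Nat.mul_le_mul_right _ (by norm_num)
      _ ≤ κ := hlog
  obtain ⟨S, hSV₂, hSc, hSM⟩ := hcls2 a₁ ha₁
  obtain ⟨E, hE1, hE2⟩ := exists_subset_card_eq (n := nE) (s := S \ R) (by
    have h1 : #S ≤ #(S \ R) + #R := by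
      have := card_sdiff_add_card_inter S R
      have h2 : #(S ∩ R) ≤ #R := card_le_card inter_subset_right
      rw [← this]
      exact Nat.add_le_add_left h2 _
    have h3 : 2 ^ 210 * (#R + nE) ≤ 2 ^ 210 * #S := by
      calc 2 ^ 210 * (#R + nE) = 2 ^ 210 * #R + 2 ^ 210 * nE := mul_add _ _ _
        _ ≤ κ + κ := Nat.add_le_add hRc hnEc
        _ = 2 * κ := by ring
        _ ≤ 2 * (2 ^ 202 * #S) := Nat.mul_le_mul_left _ hSc
        _ = 2 ^ 203 * #S := by ring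
        _ ≤ 2 ^ 210 * #S := Nat.mul_le_mul_right _ (by norm_num)
    have h4 := Nat.le_of_mul_le_mul_left h3 (by positivity)
    exact Nat.le_of_add_le_add_left (h4.trans (h1.trans (le_of_eq (add_comm _ _)))))
  have hEV₂ : E ⊆ V₂ := hE1.trans (sdiff_subset.trans hSV₂)
  have hdRE : Disjoint R E := by
    rw [disjoint_left]
    intro x hx hx'
    exact (mem_sdiff.1 (hE1 hx')).2 hx
  have hEe : ∀ a ∈ E, a - a₁ ∈ M ∨ a + a₁ ∈ M := fun a ha =>
    Or.inl (hSM a (mem_sdiff.1 (hE1 ha)).1)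
  obtain ⟨W, hW, hWc, z, hz, hrz⟩ := hprt G M V₂ R E r hRV₂ hr (by
    intro a ha
    obtain ⟨S', hS', hS'c, hS'M⟩ := hcls2 a (hRV₂ ha)
    refine ⟨S', hS', ?_, hS'M⟩
    rw [hE2]
    have h5 : (2 ^ 210 : ℕ) ≤ κ := le_trans (by norm_num) hκ
    have h3 : 2 ^ 210 * (2 * #R + nE + 1) ≤ 2 ^ 210 * #S' := by
      calc 2 ^ 210 * (2 * #R + nE + 1) = 2 * (2 ^ 210 * #R) + 2 ^ 210 * nE + 2 ^ 210 := by ring
        _ ≤ 2 * κ + κ + κ :=
          Nat.add_le_add (Nat.add_le_add (Nat.mul_le_mul_left _ hRc) hnEc) h5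
        _ = 4 * κ := by ring
        _ ≤ 4 * (2 ^ 202 * #S') := Nat.mul_le_mul_left _ hS'c
        _ = 2 ^ 204 * #S' := by ring
        _ ≤ 2 ^ 210 * #S' := Nat.mul_le_mul_right _ (by norm_num)
    exact Nat.le_of_mul_le_mul_left h3 (by positivity))
  have hV₂A : V₂ ⊆ A := hV₂V.trans hVA
  have hEven : Even #E := by
    rw [hE2, hnE]
    exact even_two_mul _
  have hdRW : Disjoint R W := by
    rw [disjoint_left]
    intro x hx hx'
    exact (mem_sdiff.1 (hW hx')).2 (mem_union_left _ hx)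
  have hdEW : Disjoint E W := by
    rw [disjoint_left]
    intro x hx hx'
    exact (mem_sdiff.1 (hW hx')).2 (mem_union_right _ hx)
  exact hfin hsge G κ h t hy A R E W M a₁ r (2 ^ 90) hA1 hA2 (hRV₂.trans hV₂A) (hEV₂.trans hV₂A)
    ((hW.trans sdiff_subset).trans hV₂A) hdRE hdRW hdEW hRL hEe hm1 hm hEven
    (le_of_eq (by rw [hE2])) (by rw [hWc]; exact ⟨#R, rfl⟩) ⟨z, hz, hrz⟩

end Pool.Agent.Lib.MP_8ac08c_co.OE
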