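import Pool.Agent.Lib.MP_8ac08c_co.OE.Stm

set_option autoImplicit false

open Finset

namespace Pool.Agent.Lib.MP_8ac08c_co.OE

theorem p_beta : S_beta := by
  intro h1 G _ _ _ A B₀ W K q hE hW hR hmax hne
  obtain ⟨r1, -, r3, r4⟩ := h1 G (G ⧸ K) (fun x : G => (x : G ⧸ K)) (A \ InK A K) W hW hR hmax
  by_contra hcon
  rw [not_le] at hcon
  have hwA : ∀ w ∈ W, w ∈ A ∧ w ∉ K := by
    intro w hw
    obtain ⟨h2, h3⟩ := mem_sdiff.1 (hW hw)
    exact ⟨h2, fun h4 => h3 (mem_InK.2 ⟨h2, h4⟩)⟩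
  have hw2 : ∀ w ∈ W, ((w : G ⧸ K)) + (w : G ⧸ K) = 0 := by
    intro w hw
    by_contra h2
    exact absurd (r3 w hw h2) (not_le.2 hcon)
  have hc : ∀ w : G, ∃ c : G, w ∈ W → c ∈ (A \ InK A K) \ W ∧ (c : G ⧸ K) = (w : G ⧸ K) := by
    intro w
    by_cases hw : w ∈ W
    · obtain ⟨c, hc1, hc2⟩ := r4 w hw
        (fun h2 => (hwA w hw).2 ((QuotientAddGroup.eq_zero_iff w).1 h2)) (hw2 w hw) hcon
      exact ⟨c, fun _ => ⟨hc1, hc2⟩⟩
    · exact ⟨w, fun h2 => absurd h2 hw⟩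
  choose c hc using hc
  have hsub : ∀ x y : G, (x : G ⧸ K) = (y : G ⧸ K) → x - y ∈ K := by
    intro x y hxy
    rw [← QuotientAddGroup.eq_zero_iff, QuotientAddGroup.mk_sub, hxy, sub_self]
  have hinj : ∀ w ∈ W, ∀ w' ∈ W, c w = c w' → w = w' := by
    intro w hw w' hw' hcc
    obtain ⟨h2, h3⟩ := hc w hw
    obtain ⟨h4, h5⟩ := hc w' hw'
    obtain ⟨h6, h7⟩ := mem_sdiff.1 h2
    have h8 : c w ∈ A := (mem_sdiff.1 h6).1
    have hww : w + w ∈ K := by
      rw [← QuotientAddGroup.eq_zero_iff, QuotientAddGroup.mk_add]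
      exact hw2 w hw
    rcases hE.few w (hwA w hw).1 (hwA w hw).2 hww w w' (c w) (hwA w hw).1 (hwA w' hw').1 h8
      (by rw [sub_self]; exact K.zero_mem)
      (hsub _ _ (by rw [← h5, ← hcc, h3])) (hsub _ _ h3) with h9 | h9 | h9
    · exact h9
    · exact absurd (h9 ▸ hw) h7
    · exact absurd (h9 ▸ hw') h7
  have himg : W.image c = ∅ := by
    apply r1
    · intro x hx
      obtain ⟨w, hw, rfl⟩ := mem_image.1 hx
      exact (hc w hw).1
    · obtain ⟨P, N, hd, hu, hs⟩ := hR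
      have hP : P ⊆ W := by rw [← hu]; exact subset_union_left
      have hN : N ⊆ W := by rw [← hu]; exact subset_union_right
      refine ⟨P.image c, N.image c, ?_, ?_, ?_⟩
      · rw [disjoint_left]
        intro x hx hx'
        obtain ⟨w, hw, rfl⟩ := mem_image.1 hx
        obtain ⟨w', hw', h2⟩ := mem_image.1 hx'
        have h3 := hinj w' (hN hw') w (hP hw) h2
        rw [h3] at hw'
        exact disjoint_left.1 hd hw hw'
      · rw [← image_union, hu]
      · rw [sum_image fun w hw w' hw' h2 => hinj w (hP hw) w' (hP hw') h2,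
          sum_image fun w hw w' hw' h2 => hinj w (hN hw) w' (hN hw') h2,
          sum_congr rfl fun w hw => (hc w (hP hw)).2, sum_congr rfl fun w hw => (hc w (hN hw)).2]
        exact hs
  rw [image_eq_empty] at himg
  exact hne.ne_empty himg

end Pool.Agent.Lib.MP_8ac08c_co.OE
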