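import Pool.Agent.Lib.MP_8ac08c_co.OE.Stm

/-!
# MP_8ac08c_co, project OE: piece `big2`
-/

set_option autoImplicit false

open Finset

namespace Pool.Agent.Lib.MP_8ac08c_co.OE

open Pool.Agent.Lib.MP_8ac08c_co Pool.Agent.Lib.MP_8ac08c_co.OD

private theorem big2_exp (l : ℕ) (hl : 100 ≤ l) : 1000000 * l ≤ 2 ^ l := by
  induction l, hl using Nat.le_induction with
  | base => norm_num
  | succ n hn ih =>
    rw [pow_succ]
    omega

private theorem big2_log {p q κ : ℕ} (hp : p ≤ κ ^ 2) (hp0 : 0 < p)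
    (h : Nat.log 2 q + 15 < Nat.log 2 p) : 20000 * q ≤ κ ^ 2 := by
  have h1 : q < 2 ^ (Nat.log 2 q + 1) := Nat.lt_pow_succ_log_self (by norm_num) q
  have h2 : 2 ^ Nat.log 2 p ≤ p := Nat.pow_log_le_self 2 (by omega)
  have h3 : 2 ^ (Nat.log 2 q + 1) * 2 ^ 15 ≤ 2 ^ Nat.log 2 p := by
    rw [← pow_add]
    exact Nat.pow_le_pow_right (by norm_num) (by omega)
  have h4 : (2 : ℕ) ^ 15 = 32768 := by norm_num
  rw [h4] at h3
  omega

private theorem big2_tri {G : Type} [DecidableEq G] (A B C : Finset G) :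
    #(A \ C) ≤ #(A \ B) + #(B \ C) := by
  refine (card_le_card ?_).trans (card_union_le _ _)
  intro x hx
  rw [mem_sdiff] at hx
  rw [mem_union, mem_sdiff, mem_sdiff]
  by_cases hxZ : x ∈ B
  · right
    exact ⟨hxZ, hx.2⟩
  · left
    exact ⟨hx.1, hxZ⟩

private theorem big2_sd {G : Type} [DecidableEq G] (Z J : Finset G) :
    #(Z \ (Z \ J)) ≤ #J := by
  refine card_le_card ?_
  intro x hx
  rw [mem_sdiff, mem_sdiff] at hx
  by_contra hj
  exact hx.2 ⟨hx.1, hj⟩

theorem p_big2 : S_big2 := by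
  intro hrob hsml hivh G _ _ _ κ h t u hyp hκ hu1 hu2 hgood A hA
  obtain ⟨l, hl⟩ : ∃ l, l = Nat.log 2 κ := ⟨_, rfl⟩
  have hκ0 : κ ≠ 0 := by
    intro h0
    rw [h0] at hκ
    norm_num at hκ
  have hl1 : 2 ^ l ≤ κ := by rw [hl]; exact Nat.pow_log_le_self 2 hκ0
  have hl3 : 100 ≤ l := by rw [hl]; exact Nat.le_log_of_pow_le (by norm_num) hκ
  have hexp := (big2_exp l hl3).trans hl1
  have ht : t ≤ l := by
    rw [hl]
    exact Nat.le_log_of_pow_le (by norm_num) (hyp.ge.trans hyp.le)
  have hG2 : Nat.card G ≤ κ ^ 2 := by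
    rw [hyp.card, sq]
    exact Nat.mul_le_mul_right _ hyp.le
  obtain ⟨b, hb⟩ : ∃ b, b = κ / 2 ^ 10 := ⟨_, rfl⟩
  have hb1 : b * 1024 ≤ κ := by
    rw [hb]
    norm_num
    omega
  have hb2 : κ < (b + 1) * 1024 := by
    rw [hb]
    norm_num
    omega
  by_cases hcase : ∀ Z ⊆ A, #(A \ Z) ≤ (15 + 1) * b →
      Nat.log 2 (Nat.card (AddSubgroup.closure (A : Set G))) ≤
        Nat.log 2 (Nat.card (AddSubgroup.closure (Z : Set G))) + 15
  · obtain ⟨Z, hZ, hZ1, hZ2⟩ := (hrob G G (fun Z : Finset G => AddSubgroup.closure (Z : Set G))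
      (fun Z Z' hZZ => AddSubgroup.closure_mono (by exact_mod_cast hZZ)) A).2 b 15 hcase
    obtain ⟨H, hH⟩ : ∃ H, H = AddSubgroup.closure (Z : Set G) := ⟨_, rfl⟩
    rw [← hH] at hZ2
    have hZH : ∀ z ∈ Z, z ∈ H := by
      intro z hz
      rw [hH]
      exact AddSubgroup.subset_closure (by exact_mod_cast hz)
    have hs : #(A \ Z) + #Z = #A := card_sdiff_add_card_eq_card hZ
    by_cases h5 : 20000 * Nat.card H ≤ κ ^ 2
    · left
      exact hsml G κ h t u hyp hκ hu2 hgood A Z H hA hZ hZH (by omega) h5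
    · have hHle : Nat.card H ≤ κ ^ 2 :=
        (Nat.card_le_card_of_injective _ H.subtype_injective).trans hG2
      have h3 : (2 : ℕ) ^ 12 = 4096 := by norm_num
      by_cases hall : ∀ J ⊆ A, #J ≤ t + 4 → ∃ R ⊆ A \ J, (∀ x ∈ R, x ∈ H) ∧ Cov R (dbl H)
      · left
        have hZI : Z ⊆ InK A H := by
          intro z hz
          rw [mem_InK]
          exact ⟨hZ hz, hZH z hz⟩
        refine hgood A H hA ?_ ?_ hall
        · have h6 := card_le_card hZI
          omega
        · apply le_antisymm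
          · rw [AddSubgroup.closure_le]
            intro x hx
            exact (mem_InK.1 (by exact_mod_cast hx)).2
          · have h7 : AddSubgroup.closure (Z : Set G) ≤
                AddSubgroup.closure (InK A H : Set G) :=
              AddSubgroup.closure_mono (by exact_mod_cast hZI)
            rw [← hH] at h7
            exact h7
      · push Not at hall
        obtain ⟨J, hJ, hJ1, hJ2⟩ := hall
        have hs1 : #(Z \ (Z \ J)) ≤ #J := big2_sd Z J
        have hs2 : #(Z \ (Z \ J)) + #(Z \ J) = #Z := card_sdiff_add_card_eq_card sdiff_subset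
        rcases hivh G κ H (Z \ J) hκ hHle hyp.exp hyp.two (by omega)
          (fun z hz => hZH z (mem_sdiff.1 hz).1)
          (by
            intro Z' hZ' hc
            refine hZ2 Z' (hZ'.trans sdiff_subset) ?_
            rw [h3] at hc
            have h6 := big2_tri Z (Z \ J) Z'
            omega) with ⟨R, hR, hR1, hR2⟩ | ⟨V, H', w, hV, hV1, hw, hker, hH'⟩
        · exfalso
          refine hJ2 R (hR.trans (sdiff_subset_sdiff hZ subset_rfl)) ?_ hR2
          intro x hx
          exact hZH x (mem_sdiff.1 (hR hx)).1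
        · right
          have hVZ : V ⊆ Z := hV.trans sdiff_subset
          rw [h3] at hV1
          have h6 := big2_tri Z (Z \ J) V
          have h7 := big2_tri A Z V
          refine ⟨V, H, H', w, hVZ.trans hZ, by omega, ?_, hw, hker, hH', by omega⟩
          intro V' hV' hc
          refine hZ2 V' (hV'.trans hVZ) ?_
          have h8 := big2_tri Z V V'
          rw [h3] at hc
          omega
  · left
    push Not at hcase
    obtain ⟨Z, hZ, hZ1, hZ2⟩ := hcase
    have hs : #(A \ Z) + #Z = #A := card_sdiff_add_card_eq_card hZ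
    refine hsml G κ h t u hyp hκ hu2 hgood A Z (AddSubgroup.closure (Z : Set G)) hA hZ
      (fun z hz => AddSubgroup.subset_closure (by exact_mod_cast hz)) (by omega) ?_
    refine big2_log ?_ Nat.card_pos hZ2
    exact (Nat.card_le_card_of_injective _
      (AddSubgroup.closure (A : Set G)).subtype_injective).trans hG2

end Pool.Agent.Lib.MP_8ac08c_co.OE
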