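import Pool.Agent.Lib.MP_8ac08c_co.OE.Stm
import Pool.Agent.Lib.MP_8ac08c_co.Explicit

/-!
# MP_8ac08c_co, project OE, piece bs42: removing the small classes modulo `2 L`
-/

set_option autoImplicit false
set_option exponentiation.threshold 600

open Finset

namespace Pool.Agent.Lib.MP_8ac08c_co.OE

open Pool.Agent.Lib.MP_8ac08c_co Pool.Agent.Lib.MP_8ac08c_co.OD

/-- elements with all the differences in `L` meet at most `4` cosets of `M` -/
private theorem bs42_four {G Q : Type} [AddCommGroup G] [Fintype G] [DecidableEq G] [DecidableEq Q]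
    (f : G → Q) (L M : AddSubgroup G) (hf : ∀ x y, f x = f y ↔ x - y ∈ M)
    (hML : M ≤ L) (h4 : Nat.card L ≤ 4 * Nat.card M)
    (S : Finset G) (hS : ∀ x ∈ S, ∀ y ∈ S, x - y ∈ L) : #(S.image f) ≤ 4 := by
  classical
  rcases S.eq_empty_or_nonempty with rfl | ⟨a, ha⟩
  · simp
  have hL : #(univ.filter fun x : G => x ∈ L) = Nat.card L := by
    rw [Nat.card_eq_fintype_card, Fintype.card_subtype]
  have hM : #(univ.filter fun x : G => x ∈ M) = Nat.card M := by
    rw [Nat.card_eq_fintype_card, Fintype.card_subtype]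
  have h1 : S.image f ⊆ (univ.filter fun x : G => x ∈ L).image fun x => f (a + x) := by
    intro q hq
    obtain ⟨x, hx, rfl⟩ := mem_image.1 hq
    refine mem_image.2 ⟨x - a, mem_filter.2 ⟨mem_univ _, hS x hx a ha⟩, ?_⟩
    congr 1
    abel
  have h2 : Nat.card M * #((univ.filter fun x : G => x ∈ L).image fun x => f (a + x)) ≤
      #(univ.filter fun x : G => x ∈ L) := by
    apply mul_card_image_le_card
    intro q hq
    obtain ⟨x, hx, rfl⟩ := mem_image.1 hq
    rw [← hM]
    apply card_le_card_of_injOn (fun m => x + m)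
    · intro m hm
      simp only [coe_filter, mem_univ, true_and, Set.mem_ofPred_eq, mem_filter] at hm hx ⊢
      refine ⟨L.add_mem hx (hML hm), ?_⟩
      rw [hf]
      have : a + (x + m) - (a + x) = m := by abel
      rw [this]
      exact hm
    · intro m _ m' _ hmm
      exact add_right_injective x hmm
  have h3 : 0 < Nat.card M := Nat.card_pos
  have h5 : Nat.card M * #(S.image f) ≤ Nat.card M * 4 := by
    calc Nat.card M * #(S.image f) ≤ _ := Nat.mul_le_mul_left _ (card_le_card h1)
      _ ≤ _ := h2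
      _ = Nat.card L := hL
      _ ≤ _ := by rw [mul_comm]; exact h4
  exact Nat.le_of_mul_le_mul_left h5 h3

theorem p_bs42 : S_bs42 := by
  intro G _ _ _ κ V₁ L w h2 hw hL
  have h4 : Nat.card L ≤ 4 * Nat.card (dbl L) := by
    refine (card_le_dbl' L).trans (Nat.mul_le_mul_right _ (le_trans (card_le_card ?_) h2))
    intro x hx
    exact (@mem_filter _ _ (_) _ _).2 ((@mem_filter _ _ (_) _ _).1 hx)
  classical
  let f : G → G ⧸ dbl L := fun x => (x : G ⧸ dbl L)
  have hf : ∀ x y, f x = f y ↔ x - y ∈ dbl L := by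
    intro x y
    exact QuotientAddGroup.eq_iff_sub_mem
  -- elements of equal weight are congruent modulo `L`
  have hcong : ∀ x ∈ V₁, ∀ y ∈ V₁, w x = w y → x - y ∈ L := by
    intro x hx y hy hxy
    by_cases hne : x = y
    · rw [hne, sub_self]
      exact L.zero_mem
    rw [← hL]
    apply AddSubgroup.subset_closure
    refine ⟨{x}, {y}, singleton_subset_iff.2 hx, singleton_subset_iff.2 hy,
      disjoint_singleton.2 hne, ?_, by simpa using hxy, by simp⟩
    rw [card_singleton, card_singleton]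
    norm_num
  -- the number of classes
  have hW : #(V₁.image w) ≤ 2 * 2 ^ 85 + 1 := by
    have h : V₁.image w ⊆ Icc (-(2 ^ 85 : ℤ)) (2 ^ 85) := by
      intro j hj
      obtain ⟨a, ha, rfl⟩ := mem_image.1 hj
      have h1 := hw a ha
      rw [mem_Icc]
      have h2 : |w a| ≤ 2 ^ 85 := by
        rw [Int.abs_eq_natAbs]
        exact_mod_cast h1
      exact abs_le.1 h2
    refine (card_le_card h).trans ?_
    rw [Int.card_Icc]
    norm_num
  have hcls : #(V₁.image f) ≤ (2 * 2 ^ 85 + 1) * 4 := by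
    have h : V₁.image f ⊆ (V₁.image w).biUnion fun j => (V₁.filter fun a => w a = j).image f := by
      intro q hq
      obtain ⟨a, ha, rfl⟩ := mem_image.1 hq
      rw [mem_biUnion]
      exact ⟨w a, mem_image_of_mem w ha, mem_image_of_mem f (mem_filter.2 ⟨ha, rfl⟩)⟩
    refine (card_le_card h).trans ((card_biUnion_le_card_mul _ _ 4 ?_).trans
      (Nat.mul_le_mul_right _ hW))
    intro j _
    apply bs42_four f L (dbl L) hf (dbl_le L) h4
    intro x hx y hy
    rw [mem_filter] at hx hy
    exact hcong x hx.1 y hy.1 (hx.2.trans hy.2.symm)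
  -- the large classes
  refine ⟨V₁.filter fun a => κ ≤ 2 ^ 202 * #(V₁.filter fun x => x - a ∈ dbl L),
    filter_subset _ _, ?_, ?_⟩
  · set U := V₁ \ V₁.filter fun a => κ ≤ 2 ^ 202 * #(V₁.filter fun x => x - a ∈ dbl L) with hU
    have hcard : #U ≤ κ / 2 ^ 202 * #(U.image f) := by
      apply card_le_mul_card_image
      intro q hq
      obtain ⟨a, ha, rfl⟩ := mem_image.1 hq
      rw [hU, mem_sdiff, mem_filter, not_and, not_le] at ha
      have h5 := ha.2 ha.1
      rw [Nat.le_div_iff_mul_le (by positivity)]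
      have h6 : #(U.filter fun x => f x = f a) ≤ #(V₁.filter fun x => x - a ∈ dbl L) := by
        apply card_le_card
        intro x hx
        rw [mem_filter] at hx ⊢
        exact ⟨(mem_sdiff.1 hx.1).1, (hf x a).1 hx.2⟩
      calc #(U.filter fun x => f x = f a) * 2 ^ 202
          ≤ #(V₁.filter fun x => x - a ∈ dbl L) * 2 ^ 202 := Nat.mul_le_mul_right _ h6
        _ ≤ κ := by rw [mul_comm]; exact h5.le
    have hcls' : #(U.image f) ≤ (2 * 2 ^ 85 + 1) * 4 :=
      (card_le_card (image_subset_image sdiff_subset)).trans hcls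
    have h7 : κ / 2 ^ 202 * 2 ^ 202 ≤ κ := Nat.div_mul_le_self κ (2 ^ 202)
    have h8 : #U ≤ κ / 2 ^ 202 * 2 ^ 89 := by
      refine hcard.trans (Nat.mul_le_mul_left _ (hcls'.trans ?_))
      norm_num
    calc 2 ^ 113 * #U ≤ 2 ^ 113 * (κ / 2 ^ 202 * 2 ^ 89) := Nat.mul_le_mul_left _ h8
      _ = κ / 2 ^ 202 * 2 ^ 202 := by ring
      _ ≤ κ := h7
  · intro a ha
    refine ⟨V₁.filter fun x => x - a ∈ dbl L, ?_, (mem_filter.1 ha).2, ?_⟩
    · intro x hx
      rw [mem_filter] at hx ha ⊢
      refine ⟨hx.1, ha.2.trans (Nat.mul_le_mul_left _ (card_le_card ?_))⟩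
      intro y hy
      rw [mem_filter] at hy ⊢
      refine ⟨hy.1, ?_⟩
      have e : y - x = (y - a) - (x - a) := by abel
      rw [e]
      exact (dbl L).sub_mem hy.2 hx.2
    · intro x hx
      exact (mem_filter.1 hx).2

end Pool.Agent.Lib.MP_8ac08c_co.OE
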