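import Pool.Agent.Lib.MP_8ac08c_co.OE.Stm

set_option autoImplicit false
set_option exponentiation.threshold 600

open Finset

namespace Pool.Agent.Lib.MP_8ac08c_co.OE

open Pool.Agent.Lib.MP_8ac08c_co Pool.Agent.Lib.MP_8ac08c_co.OD

private theorem cc2_bd_neg {Γ : Type} [AddCommGroup Γ] [DecidableEq Γ] (S : Finset Γ)
    (x : Γ) : bd S (-x) = bd S x := by
  have h1 : ∀ y : Γ, bd S y + #{s ∈ S | s + y ∈ S} = #S := by
    intro y
    unfold bd
    rw [add_comm]
    exact card_filter_add_card_filter_not (fun s => s + y ∈ S)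
  have h2 : #{s ∈ S | s + -x ∈ S} = #{s ∈ S | s + x ∈ S} := by
    apply card_bij (fun b _ => b + -x)
    · intro b hb
      rw [mem_filter] at hb ⊢
      exact ⟨hb.2, by simpa using hb.1⟩
    · intro a _ b _ h
      exact add_right_cancel h
    · intro b hb
      rw [mem_filter] at hb
      refine ⟨b + x, ?_, by simp⟩
      rw [mem_filter]
      exact ⟨hb.2, by simpa using hb.1⟩
  have h3 := h1 x
  have h4 := h1 (-x)
  omega

private theorem cc2_bd_zero {Γ : Type} [AddCommGroup Γ] [DecidableEq Γ] (S : Finset Γ) :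
    bd S (0 : Γ) = 0 := by
  unfold bd
  rw [card_eq_zero, filter_eq_empty_iff]
  intro s hs
  simp [hs]

theorem p_cc2 : S_cc2 := by
  intro hpar hfou hchr hlin Γ _ _ _ κ _ V S hκ1 hN hexp hS1 hS2 hV hκV hbd
  classical
  set N := Fintype.card Γ with hNdef
  have hNpos : 0 < N := Fintype.card_pos
  have hκpos : 0 < κ := lt_of_lt_of_le (by positivity) hκ1
  set C : Finset Γ := insert 0 (V ∪ (V.image fun a => -a)) with hC
  have h0 : (0 : Γ) ∈ C := mem_insert_self _ _
  have hmem : ∀ d ∈ C, d = 0 ∨ d ∈ V ∨ (∃ a ∈ V, -a = d) := by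
    intro d hd
    rw [hC, mem_insert, mem_union, mem_image] at hd
    exact hd
  have hin1 : ∀ a ∈ V, a ∈ C := by
    intro a ha
    rw [hC]
    exact mem_insert_of_mem (mem_union_left _ ha)
  have hin2 : ∀ a ∈ V, -a ∈ C := by
    intro a ha
    rw [hC]
    exact mem_insert_of_mem (mem_union_right _ (mem_image_of_mem (fun a => -a) ha))
  have hneg : ∀ d ∈ C, -d ∈ C := by
    intro d hd
    rcases hmem d hd with h | h | ⟨a, ha, h⟩
    · rw [h, neg_zero]
      exact h0
    · exact hin2 d h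
    · rw [← h, neg_neg]
      exact hin1 a ha
  have hcl : AddSubgroup.closure (C : Set Γ) = ⊤ := by
    rw [eq_top_iff, ← hV, AddSubgroup.closure_le]
    intro a ha
    exact AddSubgroup.subset_closure (hin1 a ha)
  have hcard : #V ≤ #C := card_le_card hin1
  set n : ℕ := κ / 2 ^ 42 with hn
  have hn1 : n * 2 ^ 42 ≤ κ := Nat.div_mul_le_self _ _
  have hn2 : κ < (n + 1) * 2 ^ 42 := by
    rw [hn]
    have := Nat.lt_div_mul_add (a := κ) (b := 2 ^ 42) (by positivity)
    omega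
  have hn3 : 1 ≤ n := by
    by_contra hlt
    have h1 : n = 0 := by omega
    rw [h1] at hn2
    have h2 : (2 : ℕ) ^ 42 ≤ 2 ^ 100 := Nat.pow_le_pow_right (by norm_num) (by norm_num)
    omega
  set B : Finset Γ := ball C (3 * n + 1) with hB
  have hbdC : ∀ d ∈ C, κ * bd S d ≤ 2 ^ 14 * N := by
    intro d hd
    rcases hmem d hd with h | h | ⟨a, ha, h⟩
    · rw [h, cc2_bd_zero]
      simp
    · exact hbd d h
    · rw [← h, cc2_bd_neg]
      exact hbd a ha
  have hbdB : ∀ y ∈ B, κ * bd S y ≤ (3 * n + 1) * (2 ^ 14 * N) :=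
    bd_ball hbdC (3 * n + 1)
  have hbdB2 : ∀ y ∈ B, 2 ^ 26 * bd S y ≤ N := by
    intro y hy
    have h1 := hbdB y hy
    have h2 : (3 * n + 1) * 2 ^ 40 ≤ κ := by
      calc (3 * n + 1) * 2 ^ 40 ≤ (4 * n) * 2 ^ 40 := Nat.mul_le_mul_right _ (by omega)
        _ = n * 2 ^ 42 := by ring
        _ ≤ κ := hn1
    have h3 : κ * (2 ^ 14 * (2 ^ 26 * bd S y)) ≤ κ * (2 ^ 14 * N) := by
      calc κ * (2 ^ 14 * (2 ^ 26 * bd S y)) = 2 ^ 40 * (κ * bd S y) := by ring
        _ ≤ 2 ^ 40 * ((3 * n + 1) * (2 ^ 14 * N)) := Nat.mul_le_mul_left _ h1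
        _ = ((3 * n + 1) * 2 ^ 40) * (2 ^ 14 * N) := by ring
        _ ≤ κ * (2 ^ 14 * N) := Nat.mul_le_mul_right _ h2
    have h4 := Nat.le_of_mul_le_mul_left h3 hκpos
    exact Nat.le_of_mul_le_mul_left h4 (by positivity)
  have hBcard : N ≤ 2 ^ 45 * #B := by
    rcases ball_card hneg h0 n with h | h
    · have h1 : B = univ := by
        rw [eq_univ_iff_forall]
        intro x
        apply h
        rw [hcl]
        exact AddSubgroup.mem_top x
      rw [h1, card_univ]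
      exact Nat.le_mul_of_pos_left _ (by positivity)
    · rw [← hB] at h
      calc N ≤ κ ^ 2 := hN
        _ = κ * κ := by ring
        _ ≤ ((n + 1) * 2 ^ 42) * (8 * #V) := Nat.mul_le_mul hn2.le hκV
        _ = 2 ^ 45 * ((n + 1) * #V) := by ring
        _ ≤ 2 ^ 45 * ((n + 1) * #C) :=
          Nat.mul_le_mul_left _ (Nat.mul_le_mul_left _ hcard)
        _ ≤ 2 ^ 45 * #B := Nat.mul_le_mul_left _ h
  have hNr : (0 : ℝ) < N := by exact_mod_cast hNpos
  obtain ⟨χ, ⟨x₀, hx₀⟩, hχ⟩ := hfou hpar Γ S B (1 / 2 ^ 23) (1 / 2 ^ 45) (by positivity)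
    (by positivity)
    (by
      have : (N : ℝ) ≤ 2 ^ 23 * #S := by exact_mod_cast hS2
      rw [← hNdef, one_div_mul_eq_div, div_le_iff₀ (by positivity)]
      linarith)
    hS1
    (by
      have : (N : ℝ) ≤ 2 ^ 45 * #B := by exact_mod_cast hBcard
      rw [← hNdef, one_div_mul_eq_div, div_le_iff₀ (by positivity)]
      linarith)
    (by
      intro y hy
      have : (2 : ℝ) ^ 26 * bd S y ≤ N := by exact_mod_cast hbdB2 y hy
      rw [← hNdef]
      have h2 : (1 : ℝ) / 2 ^ 23 / 8 * N = N / 2 ^ 26 := by ring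
      rw [h2, le_div_iff₀ (by positivity)]
      linarith)
  obtain ⟨ψ, hψ⟩ := hchr Γ κ hexp χ
  refine ⟨ψ, ?_, ?_⟩
  · intro h
    apply hx₀
    rw [hψ, h]
    simp
  · intro a ha
    apply hlin hpar Γ κ S ψ a
    · exact le_trans (Nat.pow_le_pow_right (by norm_num) (by norm_num)) hκ1
    · have h2 : ∑ s ∈ S, (ZMod.stdAddChar (ψ s) : ℂ) = ∑ s ∈ S, χ s :=
        sum_congr rfl fun s _ => (hψ s).symm
      rw [h2]
      refine le_trans (le_of_eq ?_) hχ
      ring
    · exact hbd a ha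

end Pool.Agent.Lib.MP_8ac08c_co.OE
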