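import Pool.Agent.Lib.MP_8ac08c_co.OE.Stm

/-!
# MP_8ac08c_co, project OE, piece den: a nearly perfect dissociated set (helper68)
-/

set_option autoImplicit false

open Finset

namespace Pool.Agent.Lib.MP_8ac08c_co.OE

open Pool.Agent.Lib.MP_8ac08c_co Pool.Agent.Lib.MP_8ac08c_co.OD

private theorem den_sdiff {ι Q : Type} [DecidableEq ι] [AddCommGroup Q] (q : ι → Q)
    (S S' : Finset ι) : ∑ x ∈ S, q x - ∑ x ∈ S', q x =
      ∑ x ∈ S \ S', q x - ∑ x ∈ S' \ S, q x := by
  have h1 := Finset.sum_inter_add_sum_sdiff S S' q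
  have h2 := Finset.sum_inter_add_sum_sdiff S' S q
  rw [inter_comm S' S] at h2
  rw [← h1, ← h2]
  abel

/-- the effect of changing the signs on `F` -/
private theorem den_flip {ι Q : Type} [DecidableEq ι] [AddCommGroup Q] (q : ι → Q)
    (W F : Finset ι) (hF : F ⊆ W) (e : ι → ℤ) :
    ∑ x ∈ W, (if x ∈ F then -e x else e x) • q x =
      ∑ x ∈ W, e x • q x - (∑ x ∈ F, e x • q x + ∑ x ∈ F, e x • q x) := by
  rw [← sum_sdiff hF, ← sum_sdiff hF (f := fun x => e x • q x)]
  have h1 : ∑ x ∈ W \ F, (if x ∈ F then -e x else e x) • q x = ∑ x ∈ W \ F, e x • q x :=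
    sum_congr rfl fun x hx => by rw [if_neg (mem_sdiff.1 hx).2]
  have h2 : ∑ x ∈ F, (if x ∈ F then -e x else e x) • q x = - ∑ x ∈ F, e x • q x := by
    rw [← sum_neg_distrib]
    exact sum_congr rfl fun x hx => by rw [if_pos hx, neg_smul]
  rw [h1, h2]
  abel

/-- the two sides of a signed sum -/
private theorem den_split {ι Q : Type} [DecidableEq ι] [AddCommGroup Q] (q : ι → Q)
    (W : Finset ι) (e : ι → ℤ) (he : ∀ x ∈ W, e x = 1 ∨ e x = -1) :
    ∑ x ∈ W, e x • q x =
      ∑ x ∈ W.filter (fun x => e x = 1), q x - ∑ x ∈ W.filter (fun x => ¬ e x = 1), q x := by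
  rw [← sum_filter_add_sum_filter_not W (fun x => e x = 1) (fun x => e x • q x)]
  have h1 : ∑ x ∈ W.filter (fun x => e x = 1), e x • q x =
      ∑ x ∈ W.filter (fun x => e x = 1), q x :=
    sum_congr rfl fun x hx => by rw [(mem_filter.1 hx).2, one_smul]
  have h2 : ∑ x ∈ W.filter (fun x => ¬ e x = 1), e x • q x =
      - ∑ x ∈ W.filter (fun x => ¬ e x = 1), q x := by
    rw [← sum_neg_distrib]
    refine sum_congr rfl fun x hx => ?_
    rw [mem_filter] at hx
    rw [(he x hx.1).resolve_left hx.2, neg_smul, one_smul]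
  rw [h1, h2]
  abel

/-- maximality, in terms of signs -/
private theorem den_max {ι Q : Type} [DecidableEq ι] [AddCommGroup Q] (q : ι → Q)
    (X W : Finset ι) (hWX : W ⊆ X) (hmax : ∀ W' ⊆ X, Rel q W' → #W' ≤ #W)
    (W₁ : Finset ι) (hW₁ : W₁ ⊆ W) (f : ι → ℤ) (hf : ∀ x ∈ W₁, f x = 1 ∨ f x = -1)
    (S S' : Finset ι) (hS : S ⊆ X \ W) (hS' : S' ⊆ X \ W) (hd : Disjoint S S')
    (h : ∑ x ∈ W₁, f x • q x + (∑ x ∈ S, q x - ∑ x ∈ S', q x) = 0) :
    #W₁ + (#S + #S') ≤ #W := by
  have hWC : Disjoint W (X \ W) := disjoint_sdiff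
  have hp : W₁.filter (fun x => f x = 1) ⊆ W := (filter_subset _ _).trans hW₁
  have hn : W₁.filter (fun x => ¬ f x = 1) ⊆ W := (filter_subset _ _).trans hW₁
  have hu : W₁.filter (fun x => f x = 1) ∪ W₁.filter (fun x => ¬ f x = 1) = W₁ :=
    filter_union_filter_not_eq _ _
  have hrel : Rel q (W₁ ∪ (S ∪ S')) := by
    refine ⟨W₁.filter (fun x => f x = 1) ∪ S, W₁.filter (fun x => ¬ f x = 1) ∪ S', ?_, ?_, ?_⟩
    · rw [disjoint_union_left, disjoint_union_right, disjoint_union_right]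
      exact ⟨⟨disjoint_filter_filter_not _ _ _, hWC.mono hp hS'⟩,
        ⟨(hWC.mono hn hS).symm, hd⟩⟩
    · rw [union_union_union_comm, hu]
    · rw [sum_union (hWC.mono hp hS), sum_union (hWC.mono hn hS')]
      rw [den_split q W₁ f hf] at h
      rw [← sub_eq_zero, ← h]
      abel
  have h4 := hmax _ (union_subset (hW₁.trans hWX) (union_subset (hS.trans sdiff_subset)
    (hS'.trans sdiff_subset))) hrel
  rwa [card_union_of_disjoint (hWC.mono hW₁ (union_subset hS hS')),
    card_union_of_disjoint hd] at h4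

/-- every element is a difference of two subset sums, up to `a` -/
private theorem den_cov {ι Q : Type} [DecidableEq ι] [AddCommGroup Q] [Finite Q] (q : ι → Q)
    (C : Finset ι) (a : Q)
    (hinj : ∀ S ⊆ C, ∀ S' ⊆ C, ∑ x ∈ S, q x = ∑ x ∈ S', q x → S = S')
    (key : ∀ S ⊆ C, ∀ S' ⊆ C, a + ∑ x ∈ S, q x ≠ ∑ x ∈ S', q x)
    (hcard : Nat.card Q < 3 * 2 ^ #C) (g : Q) :
    ∃ S ⊆ C, ∃ S' ⊆ C, Disjoint S S' ∧
      (g = ∑ x ∈ S, q x - ∑ x ∈ S', q x ∨ g = ∑ x ∈ S, q x - ∑ x ∈ S', q x - a) := by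
  classical
  have := Fintype.ofFinite Q
  rw [Nat.card_eq_fintype_card] at hcard
  set A : Finset Q := C.powerset.image (fun S => ∑ x ∈ S, q x) with hA
  have hAc : #A = 2 ^ #C := by
    rw [hA, card_image_of_injOn, card_powerset]
    intro S hS S' hS' h
    exact hinj S (mem_powerset.1 hS) S' (mem_powerset.1 hS') h
  have hAm : ∀ x ∈ A, ∃ S ⊆ C, ∑ y ∈ S, q y = x := by
    intro x hx
    rw [hA, mem_image] at hx
    obtain ⟨S, hS, h⟩ := hx
    exact ⟨S, mem_powerset.1 hS, h⟩
  set A₁ : Finset Q := A.image (fun x => g + x) with hA₁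
  set A₂ : Finset Q := A.image (fun x => g + (a + x)) with hA₂
  have hA₁c : #A₁ = 2 ^ #C := by
    rw [hA₁, card_image_of_injective _ (add_right_injective g), hAc]
  have hA₂c : #A₂ = 2 ^ #C := by
    rw [hA₂, card_image_of_injective _ (fun x y h => add_left_cancel (add_left_cancel h)), hAc]
  have hd : Disjoint A₁ A₂ := by
    rw [disjoint_left]
    intro z h1 h2
    rw [hA₁, mem_image] at h1
    rw [hA₂, mem_image] at h2
    obtain ⟨x, hx, h1⟩ := h1
    obtain ⟨y, hy, h2⟩ := h2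
    obtain ⟨S, hS, h3⟩ := hAm x hx
    obtain ⟨S', hS', h4⟩ := hAm y hy
    refine key S' hS' S hS ?_
    rw [h3, h4]
    have h5 := h1.trans h2.symm
    exact (add_left_cancel h5).symm
  have hnd : ¬ Disjoint A (A₁ ∪ A₂) := by
    intro h
    have h1 := card_le_univ (A ∪ (A₁ ∪ A₂))
    rw [card_union_of_disjoint h, card_union_of_disjoint hd, hAc, hA₁c, hA₂c] at h1
    omega
  rw [not_disjoint_iff] at hnd
  obtain ⟨z, hz, hz'⟩ := hnd
  obtain ⟨S, hS, h1⟩ := hAm z hz
  rw [mem_union] at hz'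
  rcases hz' with hz' | hz'
  · rw [hA₁, mem_image] at hz'
    obtain ⟨x, hx, h2⟩ := hz'
    obtain ⟨S', hS', h3⟩ := hAm x hx
    refine ⟨S \ S', sdiff_subset.trans hS, S' \ S, sdiff_subset.trans hS',
      disjoint_sdiff_self_left.mono_right sdiff_subset, Or.inl ?_⟩
    rw [← den_sdiff, h1, h3, ← h2]
    abel
  · rw [hA₂, mem_image] at hz'
    obtain ⟨x, hx, h2⟩ := hz'
    obtain ⟨S', hS', h3⟩ := hAm x hx
    refine ⟨S \ S', sdiff_subset.trans hS, S' \ S, sdiff_subset.trans hS',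
      disjoint_sdiff_self_left.mono_right sdiff_subset, Or.inr ?_⟩
    rw [← den_sdiff, h1, h3, ← h2]
    abel

private theorem den_pm {Q : Type} [AddCommGroup Q] {n : ℤ} (hn : n = 1 ∨ n = -1) {x g : Q}
    (h : n • x = g) : x = g ∨ x = -g := by
  rcases hn with rfl | rfl
  · left
    rw [← h, one_smul]
  · right
    rw [← h, neg_smul, one_smul, neg_neg]

private theorem den_small {ι Q : Type} [DecidableEq ι] [AddCommGroup Q] (q : ι → Q)
    {S S' : Finset ι} (h : #S + #S' ≤ 1) :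
    (∑ x ∈ S, q x - ∑ x ∈ S', q x = 0) ∨ (∃ c ∈ S, ∑ x ∈ S, q x - ∑ x ∈ S', q x = q c) ∨
      (∃ c ∈ S', ∑ x ∈ S, q x - ∑ x ∈ S', q x = - q c) := by
  rcases Nat.eq_zero_or_pos #S with h1 | h1
  · rw [card_eq_zero] at h1
    rcases Nat.eq_zero_or_pos #S' with h2 | h2
    · rw [card_eq_zero] at h2
      left
      rw [h1, h2, sum_empty, sub_zero]
    · obtain ⟨c, hc⟩ := card_eq_one.1 (show #S' = 1 by omega)
      right
      right
      refine ⟨c, by rw [hc]; exact mem_singleton_self c, ?_⟩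
      rw [h1, hc, sum_empty, sum_singleton, zero_sub]
  · have h2 : #S' = 0 := by omega
    rw [card_eq_zero] at h2
    obtain ⟨c, hc⟩ := card_eq_one.1 (show #S = 1 by omega)
    right
    left
    refine ⟨c, by rw [hc]; exact mem_singleton_self c, ?_⟩
    rw [h2, hc, sum_empty, sum_singleton, sub_zero]

private theorem den_main {ι Q : Type} [DecidableEq ι] [AddCommGroup Q] [Finite Q] (q : ι → Q)
    (X W : Finset ι) (hWX : W ⊆ X) (hmax : ∀ W' ⊆ X, Rel q W' → #W' ≤ #W) (e : ι → ℤ)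
    (he : ∀ x ∈ W, e x = 1 ∨ e x = -1) (hsum : ∑ x ∈ W, e x • q x = 0)
    (h2 : ∀ w ∈ W, q w + q w ≠ 0) (hcard : Nat.card Q < 3 * 2 ^ #(X \ W))
    (hbig : 6 * #(X \ W) + 4 < #W) :
    ∃ w₁ ∈ W, ∃ w₂ ∈ W, w₁ ≠ w₂ ∧ e w₁ • q w₁ = e w₂ • q w₂ ∧
      (e w₁ • q w₁ + e w₁ • q w₁) + (e w₁ • q w₁ + e w₁ • q w₁) = 0 := by
  classical
  have hsg : ∀ F : Finset ι, ∀ x ∈ W, (if x ∈ F then -e x else e x) = 1 ∨
      (if x ∈ F then -e x else e x) = -1 := by
    intro F x hx
    rcases he x hx with h | h <;> rw [h] <;> split_ifs <;> simp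
  have hinj : ∀ S ⊆ X \ W, ∀ S' ⊆ X \ W, ∑ x ∈ S, q x = ∑ x ∈ S', q x → S = S' := by
    intro S hS S' hS' h
    have h1 := den_max q X W hWX hmax W (Subset.refl W) e he (S \ S') (S' \ S)
      (sdiff_subset.trans hS) (sdiff_subset.trans hS')
      (disjoint_sdiff_self_left.mono_right sdiff_subset)
      (by rw [hsum, ← den_sdiff, h, sub_self, add_zero])
    have h3 : S \ S' = ∅ := card_eq_zero.1 (by omega)
    have h4 : S' \ S = ∅ := card_eq_zero.1 (by omega)
    rw [sdiff_eq_empty_iff_subset] at h3 h4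
    exact subset_antisymm h3 h4
  have hne : ∀ w ∈ W, e w • q w + e w • q w ≠ 0 := by
    intro w hw h
    rcases he w hw with h1 | h1
    · rw [h1, one_smul] at h
      exact h2 w hw h
    · rw [h1, neg_smul, one_smul, ← neg_add, neg_eq_zero] at h
      exact h2 w hw h
  have key : ∀ w ∈ W, ∀ S ⊆ X \ W, ∀ S' ⊆ X \ W,
      (e w • q w + e w • q w) + ∑ x ∈ S, q x ≠ ∑ x ∈ S', q x := by
    intro w hw S hS S' hS' h
    have h1 := den_max q X W hWX hmax W (Subset.refl W) _ (hsg {w}) (S' \ S) (S \ S')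
      (sdiff_subset.trans hS') (sdiff_subset.trans hS)
      (disjoint_sdiff_self_left.mono_right sdiff_subset)
      (by
        rw [den_flip q W {w} (singleton_subset_iff.2 hw) e, hsum, sum_singleton, ← den_sdiff,
          ← h]
        abel)
    have h3 : S' \ S = ∅ := card_eq_zero.1 (by omega)
    have h4 : S \ S' = ∅ := card_eq_zero.1 (by omega)
    rw [sdiff_eq_empty_iff_subset] at h3 h4
    rw [subset_antisymm h4 h3] at h
    exact hne w hw (add_eq_right.1 h)
  have keyn : ∀ w ∈ W, ∀ S ⊆ X \ W, ∀ S' ⊆ X \ W,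
      -(e w • q w + e w • q w) + ∑ x ∈ S, q x ≠ ∑ x ∈ S', q x := by
    intro w hw S hS S' hS' h
    refine key w hw S' hS' S hS ?_
    rw [← h]
    abel
  -- a first element
  have hWne : W.Nonempty := by
    rw [← card_pos]
    omega
  obtain ⟨w, hw⟩ := hWne
  set a : Q := e w • q w + e w • q w with ha
  set C := X \ W with hC
  -- (1)
  have h1 : ∀ w' ∈ W, w' ≠ w → ∃ S ⊆ C, ∃ S' ⊆ C, #S + #S' ≤ 1 ∧
      (e w' • q w' = ∑ x ∈ S, q x - ∑ x ∈ S', q x ∨
        e w' • q w' = ∑ x ∈ S, q x - ∑ x ∈ S', q x - a) := by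
    intro w' hw' hww
    obtain ⟨S, hS, S', hS', hd, h⟩ := den_cov q C a hinj (key w hw) hcard (e w' • q w')
    refine ⟨S, hS, S', hS', ?_, h⟩
    have hers : ∑ x ∈ W.erase w', e x • q x + e w' • q w' = 0 := by
      rw [sum_erase_add _ _ hw', hsum]
    have hce : #(W.erase w') + 1 = #W := card_erase_add_one hw'
    rcases h with h | h
    · have h3 := den_max q X W hWX hmax (W.erase w') (erase_subset _ _) e
        (fun x hx => he x (mem_of_mem_erase hx)) S S' hS hS' hd (by rw [← h]; exact hers)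
      omega
    · have h3 := den_max q X W hWX hmax (W.erase w') (erase_subset _ _) _
        (fun x hx => hsg {w} x (mem_of_mem_erase hx)) S S' hS hS' hd
        (by
          rw [den_flip q (W.erase w') {w}
            (singleton_subset_iff.2 (mem_erase.2 ⟨hww.symm, hw⟩)) e, sum_singleton, ← ha]
          have h4 : ∑ x ∈ S, q x - ∑ x ∈ S', q x = e w' • q w' + a := by
            rw [h]
            abel
          rw [h4]
          have h5 : ∑ x ∈ W.erase w', e x • q x - a + (e w' • q w' + a) =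
              ∑ x ∈ W.erase w', e x • q x + e w' • q w' := by abel
          rw [h5, hers])
      omega
  -- (2)
  set R : Finset Q := insert (q w) (insert a (C.image q ∪ (C.image (fun x => q x + a) ∪
    C.image (fun x => q x - a)))) with hR
  have hRc : #R ≤ 3 * #C + 2 := by
    have i1 : #(C.image q) ≤ #C := card_image_le
    have i2 : #(C.image (fun x => q x + a)) ≤ #C := card_image_le
    have i3 : #(C.image (fun x => q x - a)) ≤ #C := card_image_le
    have i4 := card_union_le (C.image (fun x => q x + a)) (C.image (fun x => q x - a))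
    have i5 := card_union_le (C.image q) (C.image (fun x => q x + a) ∪
      C.image (fun x => q x - a))
    have i6 := card_insert_le a (C.image q ∪ (C.image (fun x => q x + a) ∪
      C.image (fun x => q x - a)))
    have i7 := card_insert_le (q w) (insert a (C.image q ∪ (C.image (fun x => q x + a) ∪
      C.image (fun x => q x - a))))
    rw [hR]
    omega
  have hRw : q w ∈ R := by
    rw [hR]
    exact mem_insert_self _ _
  have hRa : a ∈ R := by
    rw [hR]
    exact mem_insert_of_mem (mem_insert_self _ _)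
  have hR1 : ∀ c ∈ C, q c ∈ R := by
    intro c hc
    rw [hR]
    exact mem_insert_of_mem (mem_insert_of_mem (mem_union_left _ (mem_image_of_mem q hc)))
  have hR2 : ∀ c ∈ C, q c + a ∈ R := by
    intro c hc
    rw [hR]
    exact mem_insert_of_mem (mem_insert_of_mem (mem_union_right _ (mem_union_left _
      (mem_image_of_mem (fun x => q x + a) hc))))
  have hR3 : ∀ c ∈ C, q c - a ∈ R := by
    intro c hc
    rw [hR]
    exact mem_insert_of_mem (mem_insert_of_mem (mem_union_right _ (mem_union_right _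
      (mem_image_of_mem (fun x => q x - a) hc))))
  have hrep : ∀ w' ∈ W, ∃ r ∈ R, e w' • q w' = r ∨ e w' • q w' = -r := by
    intro w' hw'
    by_cases hww : w' = w
    · subst hww
      refine ⟨q w', hRw, ?_⟩
      rcases he w' hw' with h | h
      · left
        rw [h, one_smul]
      · right
        rw [h, neg_smul, one_smul]
    · obtain ⟨S, hS, S', hS', hc, h⟩ := h1 w' hw' hww
      rcases den_small q hc with h3 | ⟨c, hcS, h3⟩ | ⟨c, hcS, h3⟩
      · rw [h3] at h
        rcases h with h | h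
        · exact absurd (by rw [h, add_zero]) (hne w' hw')
        · exact ⟨a, hRa, Or.inr (by rw [h, zero_sub])⟩
      · rw [h3] at h
        rcases h with h | h
        · exact ⟨q c, hR1 c (hS hcS), Or.inl h⟩
        · exact ⟨q c - a, hR3 c (hS hcS), Or.inl h⟩
      · rw [h3] at h
        rcases h with h | h
        · exact ⟨q c, hR1 c (hS' hcS), Or.inr h⟩
        · refine ⟨q c + a, hR2 c (hS' hcS), Or.inr ?_⟩
          rw [h]
          abel
  choose! φ hφ1 hφ2 using hrep
  obtain ⟨r, hr, hfib⟩ := exists_lt_card_fiber_of_mul_lt_card_of_maps_to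
    (s := W) (t := R) (f := φ) (n := 2) hφ1 (by omega)
  have hmaps : ∀ x ∈ W.filter (fun x => φ x = r), e x • q x ∈ ({r, -r} : Finset Q) := by
    intro x hx
    rw [mem_filter] at hx
    have h3 := hφ2 x hx.1
    rw [hx.2] at h3
    rw [mem_insert, mem_singleton]
    exact h3
  obtain ⟨w₁, hw₁, w₂, hw₂, hne12, heq⟩ := exists_ne_map_eq_of_card_lt_of_maps_to
    (s := W.filter (fun x => φ x = r)) (t := ({r, -r} : Finset Q)) (f := fun x => e x • q x)
    (lt_of_le_of_lt card_le_two hfib) hmaps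
  rw [mem_filter] at hw₁ hw₂
  refine ⟨w₁, hw₁.1, w₂, hw₂.1, hne12, heq, ?_⟩
  -- (3)
  set u : Q := e w₁ • q w₁ with hu
  have heq' : e w₂ • q w₂ = u := heq.symm
  obtain ⟨S, hS, S', hS', hd, h⟩ := den_cov q C (-(u + u)) hinj (keyn w₁ hw₁.1) hcard
    ((u + u) + (u + u))
  rcases h with h | h
  · have h3 := den_max q X W hWX hmax W (Subset.refl W) _ (hsg {w₁, w₂}) S S' hS hS' hd
      (by
        have hF : ({w₁, w₂} : Finset ι) ⊆ W := by
          intro x hx
          rw [mem_insert, mem_singleton] at hx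
          rcases hx with rfl | rfl
          · exact hw₁.1
          · exact hw₂.1
        rw [den_flip q W {w₁, w₂} hF e, hsum, sum_pair hne12, ← h, heq', ← hu]
        abel)
    have h4 : S = ∅ := card_eq_zero.1 (by omega)
    have h5 : S' = ∅ := card_eq_zero.1 (by omega)
    rw [h, h4, h5, sum_empty, sub_zero]
  · exfalso
    refine key w₁ hw₁.1 S' hS' S hS ?_
    have h3 : ∑ x ∈ S, q x - ∑ x ∈ S', q x = (u + u) + (u + u) - (u + u) := by
      rw [h]
      abel
    rw [add_sub_cancel_right] at h3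
    rw [← hu, ← h3]
    abel

theorem p_den : S_den := by
  intro _ G _ _ _ X W K hWX hW hmax h2 hcard hbig
  classical
  obtain ⟨P, N, hd, hu, hPN⟩ := hW
  set q : G → G ⧸ K := fun x => (x : G ⧸ K) with hq
  set e : G → ℤ := fun x => if x ∈ P then 1 else -1 with he0
  have he : ∀ x ∈ W, e x = 1 ∨ e x = -1 := by
    intro x _
    rw [he0]
    dsimp only
    split_ifs
    · exact Or.inl rfl
    · exact Or.inr rfl
  have hPW : P ⊆ W := by rw [← hu]; exact subset_union_left
  have hNW : N ⊆ W := by rw [← hu]; exact subset_union_right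
  have hsum : ∑ x ∈ W, e x • q x = 0 := by
    rw [← hu, sum_union hd]
    have i1 : ∑ x ∈ P, e x • q x = ∑ x ∈ P, q x := by
      refine sum_congr rfl fun x hx => ?_
      have : e x = 1 := by
        rw [he0]
        exact if_pos hx
      rw [this, one_smul]
    have i2 : ∑ x ∈ N, e x • q x = - ∑ x ∈ N, q x := by
      rw [← sum_neg_distrib]
      refine sum_congr rfl fun x hx => ?_
      have : e x = -1 := by
        rw [he0]
        exact if_neg (fun h => (disjoint_left.1 hd h) hx)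
      rw [this, neg_smul, one_smul]
    rw [i1, i2, hPN]
    abel
  have hk : ∀ x : G, x ∈ K ↔ (x : G ⧸ K) = 0 := fun x => (QuotientAddGroup.eq_zero_iff x).symm
  have hq2 : ∀ w ∈ W, q w + q w ≠ 0 := by
    intro w hw h
    apply h2 w hw
    rw [hk, QuotientAddGroup.mk_add]
    exact h
  obtain ⟨w₁, hw₁, w₂, hw₂, hne, heq, h4⟩ := den_main q X W hWX hmax e he hsum hq2 hcard hbig
  have hmk : ∀ (n : ℤ) (x : G), ((n • x : G) : G ⧸ K) = n • q x := by
    intro n x
    rw [QuotientAddGroup.mk_zsmul]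
  -- signed sums with signs `f`
  have hSG : ∀ f : G → ℤ, (∀ x ∈ W, f x = 1 ∨ f x = -1) → ∑ x ∈ W, f x • x ∈ SG W := by
    intro f hf
    have h5 := den_split (fun x : G => x) W f hf
    rw [h5]
    have h6 := sub_mem_SG (disjoint_filter_filter_not W W (fun x => f x = 1))
    rwa [filter_union_filter_not_eq] at h6
  refine ⟨∑ x ∈ W, e x • x, hSG e he, ?_, e w₁ • w₁ + e w₂ • w₂, e w₂ • w₂, ?_, ?_, ?_, ?_⟩
  · rw [hk]
    have h5 : ((∑ x ∈ W, e x • x : G) : G ⧸ K) = ∑ x ∈ W, ((e x • x : G) : G ⧸ K) :=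
      map_sum (QuotientAddGroup.mk' K) _ _
    rw [h5]
    have h6 : ∑ x ∈ W, ((e x • x : G) : G ⧸ K) = ∑ x ∈ W, e x • q x :=
      sum_congr rfl fun x _ => hmk _ _
    rw [h6, hsum]
  · have hF : ({w₁, w₂} : Finset G) ⊆ W := by
      intro x hx
      rw [mem_insert, mem_singleton] at hx
      rcases hx with rfl | rfl
      · exact hw₁
      · exact hw₂
    have h5 := den_flip (fun x : G => x) W {w₁, w₂} hF e
    rw [sum_pair hne] at h5
    rw [← h5]
    apply hSG
    intro x hx
    rcases he x hx with h | h <;> rw [h] <;> split_ifs <;> simp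
  · rw [hk]
    have h5 : e w₁ • w₁ + e w₂ • w₂ - (e w₂ • w₂ + e w₂ • w₂) = e w₁ • w₁ - e w₂ • w₂ := by
      abel
    rw [h5, QuotientAddGroup.mk_sub, hmk, hmk, heq, sub_self]
  · rw [hk]
    have h5 : e w₁ • w₁ + e w₂ • w₂ + (e w₁ • w₁ + e w₂ • w₂) =
      (e w₁ • w₁ + e w₁ • w₁) + (e w₂ • w₂ + e w₂ • w₂) := by abel
    rw [h5, QuotientAddGroup.mk_add, QuotientAddGroup.mk_add, QuotientAddGroup.mk_add, hmk, hmk,
      ← heq, h4]
  · rw [hk, QuotientAddGroup.mk_add, hmk]
    intro h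
    rcases he w₂ hw₂ with h1 | h1
    · rw [h1, one_smul] at h
      exact hq2 w₂ hw₂ h
    · rw [h1, neg_smul, one_smul, ← neg_add, neg_eq_zero] at h
      exact hq2 w₂ hw₂ h

end Pool.Agent.Lib.MP_8ac08c_co.OE
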