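import Pool.Agent.Lib.MP_8ac08c_co.OE.Stm2

/-! Piece `dk2` of project OE. -/

set_option autoImplicit false

open Finset

namespace Pool.Agent.Lib.MP_8ac08c_co.OE

open Pool.Agent.Lib.MP_8ac08c_co Pool.Agent.Lib.MP_8ac08c_co.OD

theorem p_dk2 : S_dk2 := by
  intro G _ _ K hle hne
  have hsub : dbl K ≤ K := dbl_le K
  obtain ⟨i, hi⟩ : Nat.card (dbl K) ∣ Nat.card K := AddSubgroup.card_dvd_of_le hsub
  have hpos : 0 < Nat.card (dbl K) := Nat.card_pos
  have hposK : 0 < Nat.card K := Nat.card_pos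
  have hlt : Nat.card (dbl K) ≠ Nat.card K := by
    intro h
    exact hne (AddSubgroup.eq_of_le_of_card_ge hsub h.ge)
  have h1 : i ≤ 2 := by
    rw [hi, mul_comm] at hle
    exact Nat.le_of_mul_le_mul_right hle hpos
  interval_cases i
  · omega
  · omega
  · omega

end Pool.Agent.Lib.MP_8ac08c_co.OE
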