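import Pool.Agent.Lib.MP_8ac08c_co.OE.Stm2

/-! Piece `dk4` of project OE. -/

set_option autoImplicit false

open Finset

namespace Pool.Agent.Lib.MP_8ac08c_co.OE

open Pool.Agent.Lib.MP_8ac08c_co Pool.Agent.Lib.MP_8ac08c_co.OD

private lemma dk4_three (G : Type) [AddCommGroup G] [Fintype G] (K : AddSubgroup G) :
    Nat.card K ≠ Nat.card (dbl K) * 3 := by
  intro h
  have hsub : dbl K ≤ K := dbl_le K
  have hpos : 0 < Nat.card (dbl K) := Nat.card_pos
  have hc : Nat.card K = Nat.card (K ⧸ (dbl K).addSubgroupOf K) *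
      Nat.card ((dbl K).addSubgroupOf K) :=
    AddSubgroup.card_eq_card_quotient_mul_card_addSubgroup _
  have hN : Nat.card ((dbl K).addSubgroupOf K) = Nat.card (dbl K) :=
    Nat.card_congr (AddSubgroup.addSubgroupOfEquivOfLe hsub).toEquiv
  rw [hN, h, mul_comm] at hc
  have hq : Nat.card (K ⧸ (dbl K).addSubgroupOf K) = 3 :=
    (Nat.eq_of_mul_eq_mul_right hpos hc).symm
  have hall : ∀ q : K ⧸ (dbl K).addSubgroupOf K, q = 0 := by
    intro q
    have h3 : 3 • q = 0 := by
      have := card_nsmul_eq_zero' (x := q)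
      rwa [hq] at this
    have h2 : 2 • q = 0 := by
      induction q using QuotientAddGroup.induction_on with
      | H z =>
        rw [← QuotientAddGroup.mk_nsmul, QuotientAddGroup.eq_zero_iff,
          AddSubgroup.mem_addSubgroupOf, two_nsmul]
        exact add_self_mem_dbl z.2
    have : 3 • q = 2 • q + q := by rw [← succ_nsmul]
    rw [h3, h2, zero_add] at this
    exact this.symm
  have : Subsingleton (K ⧸ (dbl K).addSubgroupOf K) :=
    ⟨fun a b => by rw [hall a, hall b]⟩
  have h1 : Nat.card (K ⧸ (dbl K).addSubgroupOf K) ≤ 1 := Finite.card_le_one_iff_subsingleton.mpr this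
  omega

theorem p_dk4 : S_dk4 := by
  intro G _ _ K hle hlt
  have hsub : dbl K ≤ K := dbl_le K
  obtain ⟨i, hi⟩ : Nat.card (dbl K) ∣ Nat.card K := AddSubgroup.card_dvd_of_le hsub
  have hpos : 0 < Nat.card (dbl K) := Nat.card_pos
  have h1 : i ≤ 4 := by
    rw [hi, mul_comm] at hle
    exact Nat.le_of_mul_le_mul_right hle hpos
  have h3 : i ≠ 3 := by
    rintro rfl
    exact dk4_three G K hi
  interval_cases i
  all_goals omega

end Pool.Agent.Lib.MP_8ac08c_co.OE
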