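import Pool.Agent.Lib.MP_8ac08c_co.OE.Stm

/-!
# MP_8ac08c_co, project OE, piece drop: choosing `j` elements with a given sum of classes
-/

set_option autoImplicit false

open Finset

namespace Pool.Agent.Lib.MP_8ac08c_co.OE

open Pool.Agent.Lib.MP_8ac08c_co Pool.Agent.Lib.MP_8ac08c_co.OD

set_option synthInstance.maxSize 4000 in
private theorem drop_K4F : ∀ (S : Finset (Fin 2 × Fin 2)) (c₀ t : Fin 2 × Fin 2), c₀ ∈ S →
    t ∉ S → (∃ a ∈ S, a.1 = 1) → (∃ a ∈ S, a.2 = 1) → (∃ a ∈ S, a.1 + a.2 = 1) →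
    ((∀ a ∈ S, a.1 = 1) ∧ t.1 ≠ 1) ∨ ((∀ a ∈ S, a.2 = 1) ∧ t.2 ≠ 1) ∨
    ((∀ a ∈ S, a.1 + a.2 = 1) ∧ t.1 + t.2 ≠ 1) ∨
    ((∃ a ∈ S, ∃ b ∈ S, a + b + c₀ = t) ∧ ∀ v, v ∈ S ↔ v ≠ t) := by
  decide +kernel

private theorem drop_K4 : ∀ (S : Finset (ZMod 2 × ZMod 2)) (c₀ t : ZMod 2 × ZMod 2), c₀ ∈ S →
    t ∉ S → (∃ a ∈ S, a.1 = 1) → (∃ a ∈ S, a.2 = 1) → (∃ a ∈ S, a.1 + a.2 = 1) →
    ((∀ a ∈ S, a.1 = 1) ∧ t.1 ≠ 1) ∨ ((∀ a ∈ S, a.2 = 1) ∧ t.2 ≠ 1) ∨
    ((∀ a ∈ S, a.1 + a.2 = 1) ∧ t.1 + t.2 ≠ 1) ∨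
    ((∃ a ∈ S, ∃ b ∈ S, a + b + c₀ = t) ∧ ∀ v, v ∈ S ↔ v ≠ t) :=
  drop_K4F

private theorem drop_K2F : ∀ (S : Finset (Fin 2)) (c₀ t : Fin 2), c₀ ∈ S → t ∉ S →
    (∃ a ∈ S, a = 1) → (∀ a ∈ S, a = 1) ∧ t ≠ 1 := by
  decide +kernel

private theorem drop_K2 : ∀ (S : Finset (ZMod 2)) (c₀ t : ZMod 2), c₀ ∈ S → t ∉ S →
    (∃ a ∈ S, a = 1) → (∀ a ∈ S, a = 1) ∧ t ≠ 1 :=
  drop_K2F

/-- a nonzero homomorphism to `ZMod 2` takes the value `1` on a generating set -/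
private theorem drop_gen {V : Type} [AddCommGroup V] (Sg : Set V)
    (h : AddSubgroup.closure Sg = ⊤) (f : V →+ ZMod 2) (hf : ∃ v, f v ≠ 0) : ∃ a ∈ Sg, f a = 1 := by
  by_contra hcon
  push Not at hcon
  have h2 : ∀ x : ZMod 2, x ≠ 1 → x = 0 := by decide
  have hle : AddSubgroup.closure Sg ≤ f.ker := by
    rw [AddSubgroup.closure_le]
    intro a ha
    exact AddMonoidHom.mem_ker.2 (h2 _ (hcon a ha))
  obtain ⟨v, hv⟩ := hf
  rw [h] at hle
  exact hv (AddMonoidHom.mem_ker.1 (hle (AddSubgroup.mem_top v)))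

private theorem drop_core {V : Type} [AddCommGroup V] [Finite V] (h2 : ∀ v : V, v + v = 0)
    (h4 : Nat.card V ≤ 4) (Sg : Set V) (hgen : AddSubgroup.closure Sg = ⊤) (c₀ t : V)
    (hc : c₀ ∈ Sg) (ht : t ∉ Sg) :
    (∃ f : V →+ ZMod 2, (∀ a ∈ Sg, f a = 1) ∧ f t ≠ 1) ∨
    (Nat.card V = 4 ∧ (∃ a ∈ Sg, ∃ b ∈ Sg, a + b + c₀ = t) ∧ ∀ v, v ∈ Sg ↔ v ≠ t) := by
  classical
  have hpos : 0 < Nat.card V := Nat.card_pos
  have hne : Nat.card V ≠ 1 := by
    intro h1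
    have : Subsingleton V := (Nat.card_eq_one_iff_unique.1 h1).1
    exact ht (Subsingleton.elim c₀ t ▸ hc)
  have hne3 : Nat.card V ≠ 3 := by
    intro h3
    have hz : ∀ v : V, v = 0 := by
      intro v
      have e : Nat.card V • v = 0 := card_nsmul_eq_zero'
      rw [h3] at e
      have e2 : (3 : ℕ) • v = v + v + v := by
        rw [succ_nsmul, two_nsmul]
      rw [e2, h2, zero_add] at e
      exact e
    exact ht (by rw [hz t, ← hz c₀]; exact hc)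
  have hcases : Nat.card V = 2 ∨ Nat.card V = 4 := by omega
  rcases hcases with h | h
  · left
    have : Fact (Nat.Prime 2) := ⟨Nat.prime_two⟩
    let e : V ≃+ ZMod 2 := addEquivOfPrimeCardEq h (by simp)
    let S : Finset (ZMod 2) := univ.filter fun x => e.symm x ∈ Sg
    have hS : ∀ v, e v ∈ S ↔ v ∈ Sg := by
      intro v
      simp [S]
    obtain ⟨a, ha, ha1⟩ := drop_gen Sg hgen e.toAddMonoidHom ⟨e.symm 1, by
      show e (e.symm 1) ≠ 0
      rw [e.apply_symm_apply]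
      exact one_ne_zero⟩
    obtain ⟨g1, g2⟩ := drop_K2 S (e c₀) (e t) ((hS _).2 hc) (fun hh => ht ((hS _).1 hh))
      ⟨e a, (hS _).2 ha, ha1⟩
    exact ⟨e.toAddMonoidHom, fun b hb => g1 (e b) ((hS _).2 hb), g2⟩
  · have : IsAddKleinFour V := by
      refine ⟨h, ?_⟩
      have hnt : Nontrivial V := by
        rw [← Finite.one_lt_card_iff_nontrivial]
        omega
      have hd : AddMonoid.exponent V ∣ 2 := by
        apply AddMonoid.exponent_dvd_of_forall_nsmul_eq_zero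
        intro v
        rw [two_nsmul, h2]
      rcases (Nat.dvd_prime Nat.prime_two).1 hd with h1 | h1
      · exfalso
        obtain ⟨x, y, hxy⟩ := hnt
        have hx : ∀ v : V, v = 0 := by
          intro v
          have := AddMonoid.exponent_nsmul_eq_zero v
          rwa [h1, one_nsmul] at this
        exact hxy (by rw [hx x, hx y])
      · exact h1
    obtain ⟨e⟩ : Nonempty (V ≃+ ZMod 2 × ZMod 2) := IsAddKleinFour.nonempty_addEquiv
    let S : Finset (ZMod 2 × ZMod 2) := univ.filter fun x => e.symm x ∈ Sg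
    have hS : ∀ v, e v ∈ S ↔ v ∈ Sg := by
      intro v
      simp [S]
    let f1 : V →+ ZMod 2 := (AddMonoidHom.fst (ZMod 2) (ZMod 2)).comp e.toAddMonoidHom
    let f2 : V →+ ZMod 2 := (AddMonoidHom.snd (ZMod 2) (ZMod 2)).comp e.toAddMonoidHom
    have e1 : ∀ v, f1 v = (e v).1 := fun _ => rfl
    have e2 : ∀ v, f2 v = (e v).2 := fun _ => rfl
    have e3 : ∀ v, (f1 + f2) v = (e v).1 + (e v).2 := fun _ => rfl
    obtain ⟨a1, ha1, hb1⟩ := drop_gen Sg hgen f1 ⟨e.symm (1, 0), by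
      rw [e1, e.apply_symm_apply]
      decide⟩
    obtain ⟨a2, ha2, hb2⟩ := drop_gen Sg hgen f2 ⟨e.symm (0, 1), by
      rw [e2, e.apply_symm_apply]
      decide⟩
    obtain ⟨a3, ha3, hb3⟩ := drop_gen Sg hgen (f1 + f2) ⟨e.symm (1, 0), by
      rw [e3, e.apply_symm_apply]
      decide⟩
    rcases drop_K4 S (e c₀) (e t) ((hS _).2 hc) (fun hh => ht ((hS _).1 hh))
      ⟨e a1, (hS _).2 ha1, hb1⟩ ⟨e a2, (hS _).2 ha2, hb2⟩ ⟨e a3, (hS _).2 ha3, hb3⟩ with
      ⟨g1, g2⟩ | ⟨g1, g2⟩ | ⟨g1, g2⟩ | ⟨⟨a, ha, b, hb, hab⟩, g2⟩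
    · exact Or.inl ⟨f1, fun b hb => g1 (e b) ((hS _).2 hb), g2⟩
    · exact Or.inl ⟨f2, fun b hb => g1 (e b) ((hS _).2 hb), g2⟩
    · exact Or.inl ⟨f1 + f2, fun b hb => g1 (e b) ((hS _).2 hb), g2⟩
    · refine Or.inr ⟨h, ⟨e.symm a, ?_, e.symm b, ?_, ?_⟩, ?_⟩
      · rw [← hS, e.apply_symm_apply]
        exact ha
      · rw [← hS, e.apply_symm_apply]
        exact hb
      · apply e.injective
        rw [map_add, map_add, e.apply_symm_apply, e.apply_symm_apply, hab]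
      · intro v
        rw [← hS, g2]
        exact not_congr e.injective.eq_iff

private theorem drop_pick {V G : Type} [AddCommGroup V] [DecidableEq G] (c : G → V)
    (B B₀ E : Finset G) (i k : ℕ) (c₀ s : V) (hB : B₀ ⊆ B) (hE : E ⊆ B) (hEk : #E = k)
    (hk : k ≤ 2) (hEc : ∀ x ∈ E, c x ≠ c₀) (T₀ : Finset G) (hT₀ : T₀ ⊆ B₀)
    (hTc : ∀ x ∈ T₀, c x = c₀) (hi : i ≤ #T₀) (hs : i • c₀ + ∑ x ∈ E, c x = s) :
    ∃ J ⊆ B, #J = i + k ∧ #(J \ B₀) ≤ 2 ∧ ∑ x ∈ J, c x = s := by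
  obtain ⟨T, hT, hTi⟩ := exists_subset_card_eq hi
  have hd : Disjoint T E := by
    rw [disjoint_left]
    intro x hx hx'
    exact hEc x hx' (hTc x (hT hx))
  refine ⟨T ∪ E, union_subset ((hT.trans hT₀).trans hB) hE, ?_, ?_, ?_⟩
  · rw [card_union_of_disjoint hd, hTi, hEk]
  · have h1 : (T ∪ E) \ B₀ ⊆ E := by
      intro x hx
      rw [mem_sdiff, mem_union] at hx
      rcases hx.1 with h | h
      · exact absurd (hT₀ (hT h)) hx.2
      · exact h
    exact (card_le_card h1).trans (hEk.le.trans hk)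
  · rw [sum_union hd, ← hs]
    congr 1
    rw [sum_congr rfl fun x hx => hTc x (hT hx), sum_const, hTi]

theorem p_drop : S_drop := by
  intro V G _ _ _ c B B₀ j s h2 h4 hgen hB hj hj1
  classical
  obtain ⟨i, rfl⟩ : ∃ i, j = i + 1 := ⟨j - 1, by omega⟩
  -- a popular class
  have : Fintype V := Fintype.ofFinite V
  obtain ⟨c₀, hc₀⟩ : ∃ c₀ : V, i + 2 ≤ #(B₀.filter fun x => c x = c₀) := by
    by_contra hcon
    push Not at hcon
    have h1 : #B₀ = ∑ v : V, #(B₀.filter fun x => c x = v) :=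
      card_eq_sum_card_fiberwise (fun x _ => mem_coe.2 (mem_univ _))
    have h3 : ∑ v : V, #(B₀.filter fun x => c x = v) ≤ ∑ _v : V, (i + 1) :=
      sum_le_sum fun v _ => by have := hcon v; omega
    rw [sum_const, card_univ, smul_eq_mul, ← Nat.card_eq_fintype_card] at h3
    have h5 : Nat.card V * (i + 1) ≤ 4 * (i + 1) := Nat.mul_le_mul_right _ h4
    omega
  have hT₀ : (B₀.filter fun x => c x = c₀) ⊆ B₀ := filter_subset _ _
  have hTc : ∀ x ∈ B₀.filter (fun x => c x = c₀), c x = c₀ := fun x hx => (mem_filter.1 hx).2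
  obtain ⟨b₀, hb₀⟩ : (B₀.filter fun x => c x = c₀).Nonempty := card_pos.1 (by omega)
  have hb₀B : b₀ ∈ B := hB (hT₀ hb₀)
  have hb₀c : c b₀ = c₀ := hTc b₀ hb₀
  by_cases hA : ∃ J ⊆ B, #J = i + 1 ∧ #(J \ B₀) ≤ 2 ∧ ∑ x ∈ J, c x = s
  · exact Or.inl hA
  right
  have hneg : ∀ v : V, -v = v := fun v => neg_eq_of_add_eq_zero_left (h2 v)
  obtain ⟨t, ht⟩ : ∃ t : V, i • c₀ + t = s := ⟨s - i • c₀, by abel⟩
  have k0 : t ≠ c₀ := by
    intro h
    apply hA
    exact drop_pick c B B₀ ∅ (i + 1) 0 c₀ s hB (empty_subset _) card_empty (by omega)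
      (by simp) _ hT₀ hTc (by omega) (by rw [sum_empty, add_zero, succ_nsmul, ← ht, h])
  have k1 : ∀ b ∈ B, c b ≠ t := by
    intro b hb h
    by_cases hbc : c b = c₀
    · exact k0 (h.symm.trans hbc)
    · apply hA
      exact drop_pick c B B₀ {b} i 1 c₀ s hB (singleton_subset_iff.2 hb) (card_singleton _)
        (by omega) (by intro x hx; rw [mem_singleton.1 hx]; exact hbc) _ hT₀ hTc (by omega)
        (by rw [sum_singleton, h, ht])
  have k2 : 1 ≤ i → ∀ a ∈ B, ∀ b ∈ B, c a + c b + c₀ ≠ t := by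
    intro hi a ha b hb h
    by_cases hab : c a = c b
    · rw [hab, h2, zero_add] at h
      exact k0 h.symm
    by_cases hac : c a = c₀
    · have : c b = t := by
        rw [← h, hac]
        have := h2 c₀
        calc c b = c b + (c₀ + c₀) := by rw [this, add_zero]
          _ = c₀ + c b + c₀ := by abel
      exact k1 b hb this
    by_cases hbc : c b = c₀
    · have : c a = t := by
        rw [← h, hbc]
        have := h2 c₀
        calc c a = c a + (c₀ + c₀) := by rw [this, add_zero]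
          _ = c a + c₀ + c₀ := by abel
      exact k1 a ha this
    have hne : a ≠ b := by
      rintro rfl
      exact hab rfl
    apply hA
    obtain ⟨k, rfl⟩ : ∃ k, i = k + 1 := ⟨i - 1, by omega⟩
    refine drop_pick c B B₀ {a, b} k 2 c₀ s hB ?_ (card_pair hne) le_rfl ?_ _ hT₀ hTc
      (by omega) ?_
    · intro x hx
      rw [mem_insert, mem_singleton] at hx
      rcases hx with rfl | rfl
      · exact ha
      · exact hb
    · intro x hx
      rw [mem_insert, mem_singleton] at hx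
      rcases hx with rfl | rfl
      · exact hac
      · exact hbc
    · rw [sum_pair hne, ← ht, ← h, succ_nsmul]
      have := h2 c₀
      calc k • c₀ + (c a + c b) = k • c₀ + (c a + c b) + (c₀ + c₀) := by rw [this, add_zero]
        _ = k • c₀ + c₀ + (c a + c b + c₀) := by abel
  rcases drop_core h2 h4 (c '' (B : Set G)) hgen c₀ t ⟨b₀, mem_coe.2 hb₀B, hb₀c⟩
    (by rintro ⟨b, hb, hbt⟩; exact k1 b (mem_coe.1 hb) hbt) with ⟨f, hf, hft⟩ | ⟨h, h', hall⟩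
  · left
    refine ⟨f, fun b hb => hf _ ⟨b, mem_coe.2 hb, rfl⟩, ?_⟩
    rw [← ht, map_add, map_nsmul, ← hb₀c, hf _ ⟨b₀, mem_coe.2 hb₀B, rfl⟩, nsmul_one]
    push_cast
    intro hcon
    exact hft (add_left_cancel hcon)
  · right
    have hi : i = 0 := by
      by_contra hi
      obtain ⟨_, ⟨a, ha, rfl⟩, _, ⟨b, hb, rfl⟩, hab⟩ := h'
      exact k2 (Nat.pos_of_ne_zero hi) a (mem_coe.1 ha) b (mem_coe.1 hb) hab
    subst hi
    rw [zero_nsmul, zero_add] at ht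
    subst ht
    refine ⟨rfl, h, fun v => ?_⟩
    rw [← hall v]
    constructor
    · rintro ⟨b, hb, hbv⟩
      exact ⟨b, mem_coe.2 hb, hbv⟩
    · rintro ⟨b, hb, hbv⟩
      exact ⟨b, mem_coe.1 hb, hbv⟩

end Pool.Agent.Lib.MP_8ac08c_co.OE
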