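import Pool.Agent.Lib.MP_8ac08c_co.OE.Stm

set_option autoImplicit false

open Finset

namespace Pool.Agent.Lib.MP_8ac08c_co.OE

open Pool.Agent.Lib.MP_8ac08c_co Pool.Agent.Lib.MP_8ac08c_co.OD

/-- the elements of `K ⊔ ⟨w⟩` when `2 w ∈ K` -/
private theorem enl_sup {G : Type} [AddCommGroup G] {K : AddSubgroup G} {w x : G}
    (hw : w + w ∈ K) (hx : x ∈ K ⊔ AddSubgroup.zmultiples w) : x ∈ K ∨ x - w ∈ K := by
  rw [AddSubgroup.mem_sup] at hx
  obtain ⟨k, hk, y, hy, rfl⟩ := hx
  obtain ⟨n, rfl⟩ := AddSubgroup.mem_zmultiples_iff.1 hy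
  rcases Int.even_or_odd n with ⟨m, rfl⟩ | ⟨m, rfl⟩
  · left
    have : (m + m) • w = m • (w + w) := by
      rw [add_smul, smul_add]
    rw [this]
    exact K.add_mem hk (K.zsmul_mem hw m)
  · right
    have : k + (2 * m + 1) • w - w = k + m • (w + w) := by
      rw [add_smul, one_smul, two_mul, add_smul, smul_add]
      abel
    rw [this]
    exact K.add_mem hk (K.zsmul_mem hw m)

private theorem enl_gen {G : Type} [AddCommGroup G] {A : Finset G} {K : AddSubgroup G} {w : G}
    (hK : AddSubgroup.closure (InK A K : Set G) = K) (hwA : w ∈ A) :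
    AddSubgroup.closure (InK A (K ⊔ AddSubgroup.zmultiples w) : Set G) =
      K ⊔ AddSubgroup.zmultiples w := by
  apply le_antisymm
  · rw [AddSubgroup.closure_le]
    intro x hx
    exact (mem_InK.1 (Finset.mem_coe.1 hx)).2
  · refine sup_le ?_ ?_
    · conv_lhs => rw [← hK]
      apply AddSubgroup.closure_mono
      intro x hx
      have h1 := mem_InK.1 (Finset.mem_coe.1 hx)
      exact Finset.mem_coe.2 (mem_InK.2 ⟨h1.1, (le_sup_left : K ≤ _) h1.2⟩)
    · rw [AddSubgroup.zmultiples_le]
      apply AddSubgroup.subset_closure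
      exact Finset.mem_coe.2 (mem_InK.2 ⟨hwA,
        (le_sup_right : AddSubgroup.zmultiples w ≤ _) (AddSubgroup.mem_zmultiples w)⟩)

theorem p_enl : S_enl := by
  intro G _ _ _ A K₀ q hgen hcov
  have hfin : Finite (AddSubgroup G) :=
    Finite.of_injective (fun K : AddSubgroup G => (K : Set G)) SetLike.coe_injective
  let Q : AddSubgroup G → Prop := fun K => K₀ ≤ K ∧
    AddSubgroup.closure (InK A K : Set G) = K ∧ CovP A (InK A K₀) K q
  have hQ0 : Q K₀ := ⟨le_refl _, hgen, fun J hJ _ hq => hcov J hJ hq⟩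
  have hwf : WellFoundedGT (AddSubgroup G) := Finite.to_wellFoundedGT
  obtain ⟨K, hQK, hmax⟩ := hwf.wf.has_min {K | Q K} ⟨K₀, hQ0⟩
  obtain ⟨hK0, hKg, hKc⟩ := hQK
  -- no larger subgroup
  have key : ∀ w ∈ A, w ∉ K → ¬ CovP A (InK A K₀) (K ⊔ AddSubgroup.zmultiples w) q := by
    intro w hwA hwK hC
    have hQ2 : Q (K ⊔ AddSubgroup.zmultiples w) :=
      ⟨hK0.trans le_sup_left, enl_gen hKg hwA, hC⟩
    apply hmax _ hQ2
    refine lt_of_le_of_ne le_sup_left ?_
    intro h
    apply hwK
    rw [h]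
    exact (le_sup_right : AddSubgroup.zmultiples w ≤ _) (AddSubgroup.mem_zmultiples w)
  refine ⟨K, ?_, hKg, hKc, ?_, ?_⟩
  · intro x hx
    exact hK0 (mem_InK.1 hx).2
  · intro w hwA hwK hww hdw
    apply key w hwA hwK
    intro J hJ h2 hq
    obtain ⟨R, hR, hRK, r, hr, hrz⟩ := hKc J hJ h2 hq
    refine ⟨R, hR, fun x hx => (le_sup_left : K ≤ _) (hRK x hx), r, hr, ?_⟩
    intro z hz
    apply hrz
    obtain ⟨k, hk, rfl⟩ := mem_dbl.1 hz
    rcases enl_sup hww hk with h | h
    · exact add_self_mem_dbl h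
    · have : k + k = ((k - w) + (k - w)) + (w + w) := by abel
      rw [this]
      exact (dbl K).add_mem (add_self_mem_dbl h) hdw
  · intro w hwA hwK hww a b c ha hb hc haw hbw hcw
    by_contra hne
    push Not at hne
    obtain ⟨hab, hac, hbc⟩ := hne
    apply key w hwA hwK
    intro J hJ h2 hq
    have hnotK : ∀ x, x - w ∈ K → x ∉ K := by
      intro x hx hxK
      apply hwK
      have : w = x - (x - w) := by abel
      rw [this]
      exact K.sub_mem hxK hx
    have hnotB : ∀ x, x - w ∈ K → x ∉ InK A K₀ := fun x hx hxB =>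
      hnotK x hx (hK0 (mem_InK.1 hxB).2)
    have hex : ∃ w' ∈ A, w' ∉ J ∧ w' - w ∈ K := by
      by_contra hno
      push Not at hno
      have haJ : a ∈ J := by
        by_contra h
        exact hno a ha h haw
      have hbJ : b ∈ J := by
        by_contra h
        exact hno b hb h hbw
      have hcJ : c ∈ J := by
        by_contra h
        exact hno c hc h hcw
      have h3 : ({a, b, c} : Finset G) ⊆ J \ InK A K₀ := by
        intro x hx
        simp only [mem_insert, mem_singleton] at hx
        rw [mem_sdiff]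
        rcases hx with rfl | rfl | rfl
        · exact ⟨haJ, hnotB _ haw⟩
        · exact ⟨hbJ, hnotB _ hbw⟩
        · exact ⟨hcJ, hnotB _ hcw⟩
      have h4 : #({a, b, c} : Finset G) = 3 := by
        rw [card_eq_three]
        exact ⟨a, b, c, hab, hac, hbc, rfl⟩
      have h5 := card_le_card h3
      omega
    obtain ⟨w', hw'A, hw'J, hw'w⟩ := hex
    obtain ⟨R, hR, hRK, r, hr, hrz⟩ := hKc J hJ h2 hq
    have hw'R : w' ∉ R := fun h => hnotK w' hw'w (hRK w' h)
    have hd : Disjoint R ({w'} : Finset G) := by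
      rw [disjoint_singleton_right]
      exact hw'R
    have hw'2 : w' ∈ K ⊔ AddSubgroup.zmultiples w := by
      have : w' = (w' - w) + w := by abel
      rw [this]
      exact AddSubgroup.add_mem _ ((le_sup_left : K ≤ _) hw'w)
        ((le_sup_right : AddSubgroup.zmultiples w ≤ _) (AddSubgroup.mem_zmultiples w))
    refine ⟨R ∪ {w'}, ?_, ?_, r + -w', ?_, ?_⟩
    · intro x hx
      rw [mem_union, mem_singleton] at hx
      rcases hx with hx | rfl
      · exact hR hx
      · exact mem_sdiff.2 ⟨hw'A, hw'J⟩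
    · intro x hx
      rw [mem_union, mem_singleton] at hx
      rcases hx with hx | rfl
      · exact (le_sup_left : K ≤ _) (hRK x hx)
      · exact hw'2
    · exact add_mem_SG hd hr (mem_SG_single.2 (Or.inr rfl))
    · intro z hz
      obtain ⟨k, hk, rfl⟩ := mem_dbl.1 hz
      rcases enl_sup hww hk with h | h
      · have : r + -w' + (k + k) = (r + (k + k)) + -w' := by abel
        rw [this]
        exact add_mem_SG hd (hrz _ (add_self_mem_dbl h)) (mem_SG_single.2 (Or.inr rfl))
      · have h6 : k - w' ∈ K := by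
          have : k - w' = (k - w) - (w' - w) := by abel
          rw [this]
          exact K.sub_mem h hw'w
        have : r + -w' + (k + k) = (r + ((k - w') + (k - w'))) + w' := by abel
        rw [this]
        exact add_mem_SG hd (hrz _ (add_self_mem_dbl h6)) (mem_SG_single.2 (Or.inl rfl))

end Pool.Agent.Lib.MP_8ac08c_co.OE
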