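import Pool.Agent.Lib.MP_8ac08c_co.OE.Stm

/-!
# MP_8ac08c_co, project OE, piece eta4
-/

set_option autoImplicit false

open Finset

namespace Pool.Agent.Lib.MP_8ac08c_co.OE

open Pool.Agent.Lib.MP_8ac08c_co Pool.Agent.Lib.MP_8ac08c_co.OD

private theorem eta4_coset {G : Type} [AddCommGroup G] [Fintype G] [DecidableEq G]
    (H : AddSubgroup G) (c : G) :
    ∃ C : Finset G, #C = Nat.card H ∧ ∀ x ∈ C, x - c ∈ H := by
  classical
  refine ⟨(univ.filter fun x : G => x ∈ H).map (addRightEmbedding c), ?_, ?_⟩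
  · rw [card_map, Nat.card_eq_fintype_card, Fintype.card_subtype]
  · intro x hx
    rw [mem_map] at hx
    obtain ⟨y, hy, rfl⟩ := hx
    rw [mem_filter] at hy
    simpa using hy.2

private theorem eta4_pick {G : Type} [AddCommGroup G] [Fintype G] [DecidableEq G]
    (H : AddSubgroup G) (c : G) (n : ℕ) (hn : n ≤ Nat.card H) :
    ∃ C : Finset G, #C = n ∧ ∀ x ∈ C, x - c ∈ H := by
  obtain ⟨C, h1, h2⟩ := eta4_coset H c
  obtain ⟨D, h3, h4⟩ := exists_subset_card_eq (h1 ▸ hn : n ≤ #C)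
  exact ⟨D, h4, fun x hx => h2 x (h3 hx)⟩

private theorem eta4_sum {G : Type} [AddCommGroup G] (H : AddSubgroup G) (c : G) (C : Finset G)
    (h : ∀ x ∈ C, x - c ∈ H) : ∑ x ∈ C, x - #C • c ∈ H := by
  have h1 : ∑ x ∈ C, x - #C • c = ∑ x ∈ C, (x - c) := by
    rw [sum_sub_distrib, sum_const]
  rw [h1]
  exact sum_mem h

private theorem eta4_even {G : Type} [AddCommGroup G] (K : AddSubgroup G) (a : G) (ha : a ∈ K)
    (n : ℕ) (hn : Even n) : n • a ∈ dbl K := by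
  obtain ⟨m, rfl⟩ := hn
  rw [add_nsmul]
  exact add_self_mem_dbl (K.nsmul_mem ha m)

private theorem eta4_odd (d : ℕ) (hd : 4 ≤ d) : ∃ n₁ n₂ n₃ : ℕ, n₁ ≤ d ∧ n₂ ≤ d ∧ n₃ ≤ d ∧
    n₁ + n₂ + n₃ = 2 * d + 1 ∧ Even (n₁ + n₃) ∧ Even (n₂ + n₃) := by
  rcases Nat.even_or_odd d with h | h
  · obtain ⟨m, rfl⟩ := h
    exact ⟨m + m - 1, m + m - 1, 3, by omega, by omega, by omega, by omega,
      ⟨m + 1, by omega⟩, ⟨m + 1, by omega⟩⟩
  · obtain ⟨m, rfl⟩ := h
    exact ⟨2 * m + 1, 2 * m + 1, 1, by omega, by omega, by omega, by omega,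
      ⟨m + 1, by omega⟩, ⟨m + 1, by omega⟩⟩

theorem p_eta4 : S_eta4 := by
  intro G _ _ K κ h1 h2 h3
  classical
  have hd : κ = 2 * Nat.card (dbl K) := by omega
  -- the two classes
  obtain ⟨CK, hCK, hCK'⟩ := eta4_coset K 0
  have hmem : ∀ x, x ∈ CK → x ∈ K := fun x hx => by simpa using hCK' x hx
  obtain ⟨C0, hC0, hC0'⟩ := eta4_coset (dbl K) 0
  have hex : ∀ c : G, ∃ x ∈ K, x ∉ dbl K ∧ x - c ∉ dbl K := by
    intro c
    by_contra hc
    push Not at hc
    have h4 : CK ⊆ (univ.filter fun x : G => x ∈ dbl K) ∪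
        (univ.filter fun x : G => x ∈ dbl K).map (addRightEmbedding c) := by
      intro x hx
      rw [mem_union]
      by_cases h5 : x ∈ dbl K
      · exact Or.inl (mem_filter.2 ⟨mem_univ _, h5⟩)
      · refine Or.inr (mem_map.2 ⟨x - c, mem_filter.2 ⟨mem_univ _, hc x (hmem x hx) h5⟩, ?_⟩)
        simp
    have h5 := (card_le_card h4).trans (card_union_le _ _)
    rw [card_map] at h5
    have h6 : #(univ.filter fun x : G => x ∈ dbl K) = Nat.card (dbl K) := by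
      rw [Nat.card_eq_fintype_card, Fintype.card_subtype]
    omega
  obtain ⟨a, haK, ha, -⟩ := hex 0
  obtain ⟨b, hbK, hb, hba⟩ := hex a
  have haa : a + a ∈ dbl K := add_self_mem_dbl haK
  have hbb : b + b ∈ dbl K := add_self_mem_dbl hbK
  have hab : a + b ∉ dbl K := by
    intro h
    apply hba
    have h4 : b - a = (a + b) - (a + a) := by abel
    rw [h4]
    exact sub_mem h haa
  obtain ⟨n₁, n₂, n₃, hn1, hn2, hn3, hns, he1, he2⟩ := eta4_odd (Nat.card (dbl K)) (by omega)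
  obtain ⟨T₁, ht1, ht1'⟩ := eta4_pick (dbl K) a n₁ hn1
  obtain ⟨T₂, ht2, ht2'⟩ := eta4_pick (dbl K) b n₂ hn2
  obtain ⟨T₃, ht3, ht3'⟩ := eta4_pick (dbl K) (a + b) n₃ hn3
  have hd12 : Disjoint T₁ T₂ := by
    rw [disjoint_left]
    intro x hx hy
    apply hba
    have h4 : b - a = (x - a) - (x - b) := by abel
    rw [h4]
    exact sub_mem (ht1' x hx) (ht2' x hy)
  have hd3 : Disjoint (T₁ ∪ T₂) T₃ := by
    rw [disjoint_left]
    intro x hx hy
    rcases mem_union.1 hx with hx | hx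
    · apply hb
      have h4 : b = (x - a) - (x - (a + b)) := by abel
      rw [h4]
      exact sub_mem (ht1' x hx) (ht3' x hy)
    · apply ha
      have h4 : a = (x - b) - (x - (a + b)) := by abel
      rw [h4]
      exact sub_mem (ht2' x hx) (ht3' x hy)
  have hcard : #(T₁ ∪ T₂ ∪ T₃) = κ + 1 := by
    rw [card_union_of_disjoint hd3, card_union_of_disjoint hd12]
    omega
  have hnot : ∀ x ∈ T₁ ∪ T₂ ∪ T₃, x ∈ K ∧ x ∉ dbl K := by
    intro x hx
    have key : ∀ c ∈ K, c ∉ dbl K → x - c ∈ dbl K → x ∈ K ∧ x ∉ dbl K := by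
      intro c hc hc' h
      refine ⟨?_, fun h4 => hc' ?_⟩
      · have h4 : x = (x - c) + c := by abel
        rw [h4]
        exact add_mem (dbl_le K h) hc
      · have h5 : c = x - (x - c) := by abel
        rw [h5]
        exact sub_mem h4 h
    rcases mem_union.1 hx with hx | hx
    · rcases mem_union.1 hx with hx | hx
      · exact key a haK ha (ht1' x hx)
      · exact key b hbK hb (ht2' x hx)
    · exact key (a + b) (add_mem haK hbK) hab (ht3' x hx)
  have hsum : ∑ x ∈ T₁ ∪ T₂ ∪ T₃, x ∈ dbl K := by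
    rw [sum_union hd3, sum_union hd12]
    have h4 := add_mem (add_mem (eta4_sum _ _ _ ht1') (eta4_sum _ _ _ ht2')) (eta4_sum _ _ _ ht3')
    have h5 := add_mem (eta4_even K a haK _ he1) (eta4_even K b hbK _ he2)
    have h6 := add_mem h4 h5
    rw [ht1, ht2, ht3] at h6
    have h7 : ∑ x ∈ T₁, x + ∑ x ∈ T₂, x + ∑ x ∈ T₃, x =
        ∑ x ∈ T₁, x - n₁ • a + (∑ x ∈ T₂, x - n₂ • b) + (∑ x ∈ T₃, x - n₃ • (a + b)) +
          ((n₁ + n₃) • a + (n₂ + n₃) • b) := by
      rw [add_nsmul, add_nsmul, nsmul_add]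
      abel
    rw [h7]
    exact h6
  rw [← hcard]
  refine le_eta (fun x hx => (hnot x hx).1) ?_
  intro B hB hBc hmemB
  have h4 : #((T₁ ∪ T₂ ∪ T₃) \ B) = 1 := by
    rw [card_sdiff_of_subset hB]
    omega
  obtain ⟨x, hx⟩ := card_eq_one.1 h4
  have h5 : x ∈ T₁ ∪ T₂ ∪ T₃ := by
    have : x ∈ (T₁ ∪ T₂ ∪ T₃) \ B := by rw [hx]; exact mem_singleton_self x
    exact (mem_sdiff.1 this).1
  apply (hnot x h5).2
  have h6 := sum_sdiff (f := fun x : G => x) hB
  rw [hx, sum_singleton] at h6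
  have h7 : x = (x + ∑ y ∈ B, y) - ∑ y ∈ B, y := by abel
  rw [h7]
  refine sub_mem ?_ hmemB
  rw [h6]
  exact hsum

end Pool.Agent.Lib.MP_8ac08c_co.OE
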