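import Pool.Agent.Lib.MP_8ac08c_co.OE.Stm2

/-! # MP_8ac08c_co, project OE, piece eta5: `eta K κ ≥ κ + 1` for `|K| = 4 |2 K|` large enough -/

set_option autoImplicit false

open Finset

namespace Pool.Agent.Lib.MP_8ac08c_co.OE

open Pool.Agent.Lib.MP_8ac08c_co Pool.Agent.Lib.MP_8ac08c_co.OD

/-- the quotient `K / 2 K` -/
private theorem eta5_quot {G : Type} [AddCommGroup G] [Finite G] (K : AddSubgroup G) :
    ∃ (V : Type) (_ : AddCommGroup V) (_ : Finite V) (c : G → V), (∀ v : V, v + v = 0) ∧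
      Nat.card K = Nat.card V * Nat.card (dbl K) ∧
      (∀ a b, a ∈ K → b ∈ K → c (a + b) = c a + c b) ∧
      (∀ a ∈ K, (c a = 0 ↔ a ∈ dbl K)) ∧ ∀ v, ∃ a ∈ K, c a = v := by
  classical
  have hle : dbl K ≤ K := by
    intro x hx
    obtain ⟨k, hk, rfl⟩ := mem_dbl.1 hx
    exact K.add_mem hk hk
  let H : AddSubgroup K := (dbl K).addSubgroupOf K
  let c : G → K ⧸ H := fun x => if hx : x ∈ K then ((⟨x, hx⟩ : K) : K ⧸ H) else 0
  have hc : ∀ x (hx : x ∈ K), c x = ((⟨x, hx⟩ : K) : K ⧸ H) := fun x hx => dif_pos hx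
  refine ⟨K ⧸ H, inferInstance, inferInstance, c, ?_, ?_, ?_, ?_, ?_⟩
  · intro v
    obtain ⟨k, rfl⟩ := QuotientAddGroup.mk_surjective v
    rw [← QuotientAddGroup.mk_add, QuotientAddGroup.eq_zero_iff]
    rw [AddSubgroup.mem_addSubgroupOf]
    exact mem_dbl.2 ⟨k, k.2, rfl⟩
  · rw [AddSubgroup.card_eq_card_quotient_mul_card_addSubgroup H]
    congr 1
    exact Nat.card_congr (AddSubgroup.addSubgroupOfEquivOfLe hle).toEquiv
  · intro a b ha hb
    rw [hc a ha, hc b hb, hc (a + b) (K.add_mem ha hb), ← QuotientAddGroup.mk_add]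
    rfl
  · intro a ha
    rw [hc a ha, QuotientAddGroup.eq_zero_iff, AddSubgroup.mem_addSubgroupOf]
  · intro v
    obtain ⟨k, rfl⟩ := QuotientAddGroup.mk_surjective v
    exact ⟨k, k.2, hc k k.2⟩

/-- Sums of classes. -/
private theorem eta5_csum {G V : Type} [AddCommGroup G] [AddCommGroup V]
    {K : AddSubgroup G} {c : G → V} (hadd : ∀ a b, a ∈ K → b ∈ K → c (a + b) = c a + c b)
    (h0 : c 0 = 0) (J : Finset G) (hJ : ∀ x ∈ J, x ∈ K) : ∑ x ∈ J, c x = c (∑ x ∈ J, x) := by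
  classical
  induction J using Finset.induction_on with
  | empty => rw [sum_empty, sum_empty, h0]
  | insert a s ha ih =>
    rw [sum_insert ha, sum_insert ha, ih (fun x hx => hJ x (mem_insert_of_mem hx)),
      hadd a _ (hJ a (mem_insert_self a s))
        (sum_mem fun x hx => hJ x (mem_insert_of_mem hx))]

/-- a part of a fibre with a given number of elements -/
private theorem eta5_fib {G V : Type} [AddCommGroup G] [Fintype G] [AddCommGroup V]
    {K : AddSubgroup G} {c : G → V} (hadd : ∀ a b, a ∈ K → b ∈ K → c (a + b) = c a + c b)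
    (hc0 : ∀ a ∈ K, (c a = 0 ↔ a ∈ dbl K)) (hsurj : ∀ v, ∃ a ∈ K, c a = v) (v : V) (n : ℕ)
    (hn : n ≤ Nat.card (dbl K)) :
    ∃ T : Finset G, (∀ x ∈ T, x ∈ K ∧ c x = v) ∧ #T = n := by
  classical
  obtain ⟨a, ha, hav⟩ := hsurj v
  have hdK : dbl K ≤ K := by
    intro x hx
    obtain ⟨k, hk, rfl⟩ := mem_dbl.1 hx
    exact K.add_mem hk hk
  let F : Finset G := (univ.filter fun x : G => x ∈ dbl K).image fun x => a + x
  have hF : #F = Nat.card (dbl K) := by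
    rw [card_image_of_injective _ (add_right_injective a), ← Fintype.card_subtype,
      ← Nat.card_eq_fintype_card]
  obtain ⟨T, hT, hTn⟩ := exists_subset_card_eq (s := F) (n := n) (by rw [hF]; exact hn)
  refine ⟨T, fun x hx => ?_, hTn⟩
  obtain ⟨y, hy, rfl⟩ := mem_image.1 (hT hx)
  have hy' : y ∈ dbl K := (mem_filter.1 hy).2
  refine ⟨K.add_mem ha (hdK hy'), ?_⟩
  rw [hadd a y ha (hdK hy'), (hc0 y (hdK hy')).2 hy', add_zero, hav]

private theorem eta5_nat (κ d : ℕ) (hκ : κ % 2 = 0) (h0 : 0 < κ) (h : κ + 4 ≤ 3 * d) :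
    ∃ n₁ n₂ n₃ : ℕ, n₁ % 2 = 1 ∧ n₂ % 2 = 1 ∧ n₃ % 2 = 1 ∧ n₁ ≤ d ∧ n₂ ≤ d ∧ n₃ ≤ d ∧
      n₁ + n₂ + n₃ = κ + 1 := by
  obtain ⟨e, he1, he2, he3⟩ : ∃ e : ℕ, e % 2 = 1 ∧ e ≤ d ∧ d ≤ e + 1 := by
    rcases Nat.mod_two_eq_zero_or_one d with h1 | h1
    · exact ⟨d - 1, by omega, by omega, by omega⟩
    · exact ⟨d, h1, le_refl d, by omega⟩
  by_cases h1 : κ - 1 ≤ e
  · exact ⟨κ - 1, 1, 1, by omega, by omega, by omega, by omega, by omega, by omega, by omega⟩
  by_cases h2 : κ ≤ 2 * e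
  · exact ⟨e, κ - e, 1, by omega, by omega, by omega, by omega, by omega, by omega, by omega⟩
  · exact ⟨e, e, κ + 1 - 2 * e, by omega, by omega, by omega, by omega, by omega, by omega,
      by omega⟩

private theorem eta5_odd {V : Type} [AddCommGroup V] (hV2 : ∀ v : V, v + v = 0) (v : V) (n : ℕ)
    (hn : n % 2 = 1) : n • v = v := by
  obtain ⟨m, hm⟩ : ∃ m, n = 2 * m + 1 := ⟨n / 2, by omega⟩
  rw [hm, add_smul, one_smul, mul_comm, mul_smul, two_smul, hV2, smul_zero, zero_add]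

/-- `eta K κ ≥ κ + 1` for `|K| = 4 |2 K|` large enough. -/
theorem p_eta5 : S_eta5 := by
  intro G _ _ K κ hK hev h0 hle
  classical
  obtain ⟨V, _, _, c, hV2, hVc, hadd, hc0, hsurj⟩ := eta5_quot K
  have h00 : c 0 = 0 := (hc0 0 K.zero_mem).2 (dbl K).zero_mem
  have hd0 : 0 < Nat.card (dbl K) := Nat.card_pos
  have hV4 : Nat.card V = 4 := by
    rw [hVc] at hK
    exact Nat.eq_of_mul_eq_mul_right hd0 hK
  -- two different nonzero classes
  let _ : Fintype V := Fintype.ofFinite V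
  have hVf : Fintype.card V = 4 := by rw [← Nat.card_eq_fintype_card, hV4]
  obtain ⟨α, hα⟩ : ∃ α : V, α ≠ 0 := by
    by_contra hcon
    push Not at hcon
    have h1 : Fintype.card V ≤ 1 :=
      Fintype.card_le_one_iff.2 fun a b => by rw [hcon a, hcon b]
    omega
  obtain ⟨β, hβ0, hβα⟩ : ∃ β : V, β ≠ 0 ∧ β ≠ α := by
    by_contra hcon
    push Not at hcon
    have h1 : (univ : Finset V) ⊆ {0, α} := by
      intro v _
      rw [mem_insert, mem_singleton]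
      by_cases hv : v = 0
      · exact Or.inl hv
      · exact Or.inr (hcon v hv)
    have h2 := card_le_card h1
    rw [card_univ, hVf] at h2
    have h3 : #({0, α} : Finset V) ≤ 2 := card_le_two
    omega
  have hαβ0 : α + β ≠ 0 := by
    intro h1
    apply hβα
    have h2 : α + β = α + α := by rw [h1, hV2]
    exact add_left_cancel h2
  have hαβα : α + β ≠ α := by
    intro h1
    exact hβ0 (add_eq_left.1 h1)
  have hαβ' : α + β ≠ β := by
    intro h1
    exact hα (add_eq_right.1 h1)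
  obtain ⟨n₁, n₂, n₃, ho1, ho2, ho3, hd1, hd2, hd3, hn⟩ :=
    eta5_nat κ (Nat.card (dbl K)) (Nat.even_iff.1 hev) h0 (by omega)
  obtain ⟨T₁, hT₁, hc₁⟩ := eta5_fib hadd hc0 hsurj α n₁ hd1
  obtain ⟨T₂, hT₂, hc₂⟩ := eta5_fib hadd hc0 hsurj β n₂ hd2
  obtain ⟨T₃, hT₃, hc₃⟩ := eta5_fib hadd hc0 hsurj (α + β) n₃ hd3
  have hdis12 : Disjoint T₁ T₂ := by
    rw [Finset.disjoint_left]
    intro x h1 h2
    exact hβα ((hT₂ x h2).2.symm.trans (hT₁ x h1).2)
  have hdis13 : Disjoint T₁ T₃ := by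
    rw [Finset.disjoint_left]
    intro x h1 h2
    exact hαβα ((hT₃ x h2).2.symm.trans (hT₁ x h1).2)
  have hdis23 : Disjoint T₂ T₃ := by
    rw [Finset.disjoint_left]
    intro x h1 h2
    exact hαβ' ((hT₃ x h2).2.symm.trans (hT₂ x h1).2)
  have hdis : Disjoint (T₁ ∪ T₂) T₃ := disjoint_union_left.2 ⟨hdis13, hdis23⟩
  set T : Finset G := T₁ ∪ T₂ ∪ T₃ with hT
  have hTc : #T = κ + 1 := by
    rw [hT, card_union_of_disjoint hdis, card_union_of_disjoint hdis12, hc₁, hc₂, hc₃, hn]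
  have hTK : ∀ x ∈ T, x ∈ K ∧ c x ≠ 0 := by
    intro x hx
    rw [hT, mem_union, mem_union] at hx
    rcases hx with (h1 | h1) | h1
    · exact ⟨(hT₁ x h1).1, by rw [(hT₁ x h1).2]; exact hα⟩
    · exact ⟨(hT₂ x h1).1, by rw [(hT₂ x h1).2]; exact hβ0⟩
    · exact ⟨(hT₃ x h1).1, by rw [(hT₃ x h1).2]; exact hαβ0⟩
  have hsum : ∑ x ∈ T, c x = 0 := by
    rw [hT, sum_union hdis, sum_union hdis12,
      sum_congr rfl (fun x hx => (hT₁ x hx).2), sum_congr rfl (fun x hx => (hT₂ x hx).2),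
      sum_congr rfl (fun x hx => (hT₃ x hx).2), sum_const, sum_const, sum_const, hc₁, hc₂, hc₃,
      eta5_odd hV2 α n₁ ho1, eta5_odd hV2 β n₂ ho2, eta5_odd hV2 (α + β) n₃ ho3, hV2]
  rw [← hTc]
  refine le_eta (fun x hx => (hTK x hx).1) ?_
  intro B hB hBc hBd
  have h11 : #(T \ B) = 1 := by
    have h12 := card_sdiff_add_card_eq_card hB
    omega
  obtain ⟨b, hb⟩ := card_eq_one.1 h11
  have hbT : b ∈ T := (mem_sdiff.1 (hb ▸ mem_singleton_self b)).1
  have hBK : ∀ x ∈ B, x ∈ K := fun x hx => (hTK x (hB hx)).1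
  have h13 := (hc0 _ (sum_mem hBK)).2 hBd
  rw [← eta5_csum hadd h00 B hBK] at h13
  have h14 := sum_sdiff (f := fun x : G => c x) hB
  rw [hb, sum_singleton, h13, add_zero, hsum] at h14
  exact (hTK b hbT).2 h14

end Pool.Agent.Lib.MP_8ac08c_co.OE
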