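import Pool.Agent.Lib.MP_8ac08c_co.OE.Stm2

/-! # MP_8ac08c_co, project OE, piece eta7: `eta K κ ≤ κ - 1` if `|K| = κ` is divisible by 4 -/

set_option autoImplicit false

open Finset

namespace Pool.Agent.Lib.MP_8ac08c_co.OE

open Pool.Agent.Lib.MP_8ac08c_co Pool.Agent.Lib.MP_8ac08c_co.OD

/-- two classes only -/
private theorem eta7_two {G : Type} [AddCommGroup G] [Fintype G] {K : AddSubgroup G}
    (h2 : Nat.card K ≤ 2 * Nat.card (dbl K)) {a b c : G} (ha : a ∈ K) (hb : b ∈ K) (hc : c ∈ K)
    (hac : a - c ∉ dbl K) (hbc : b - c ∉ dbl K) : a - b ∈ dbl K := by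
  classical
  by_contra hab
  have h3 : #(univ.filter (fun y => y - a ∈ dbl K) ∪ univ.filter (fun y => y - b ∈ dbl K) ∪
      univ.filter (fun y => y - c ∈ dbl K)) ≤ Nat.card K := by
    rw [← card_filter_sub K]
    apply card_le_card
    intro y hy
    rw [mem_union, mem_union, mem_filter, mem_filter, mem_filter] at hy
    rw [mem_filter]
    refine ⟨mem_univ _, ?_⟩
    rcases hy with (⟨_, h⟩ | ⟨_, h⟩) | ⟨_, h⟩
    · have := add_mem (dbl_le K h) ha
      rwa [sub_add_cancel] at this
    · have := add_mem (dbl_le K h) hb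
      rwa [sub_add_cancel] at this
    · have := add_mem (dbl_le K h) hc
      rwa [sub_add_cancel] at this
  have disj : ∀ u v : G, u - v ∉ dbl K →
      Disjoint (univ.filter (fun y => y - u ∈ dbl K)) (univ.filter (fun y => y - v ∈ dbl K)) := by
    intro u v huv
    rw [disjoint_left]
    intro y hy hy'
    rw [mem_filter] at hy hy'
    apply huv
    have := sub_mem hy'.2 hy.2
    have e : y - v - (y - u) = u - v := by abel
    rwa [e] at this
  rw [card_union_of_disjoint (by
    rw [disjoint_union_left]
    exact ⟨disj a c hac, disj b c hbc⟩), card_union_of_disjoint (disj a b hab), coset_card,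
    coset_card, coset_card] at h3
  have h6 : 0 < Nat.card (dbl K) := Nat.card_pos
  omega

theorem p_eta7 : S_eta7 := by
  classical
  intro G _ _ K κ h2 hK h4
  have hκ0 : 0 < κ := by rw [← hK]; exact Nat.card_pos
  obtain ⟨T, hTK, hTB, hTc⟩ := exists_eta K hκ0
  by_contra hcon
  obtain ⟨B, hB, hBc⟩ := exists_subset_card_eq (s := T) (n := κ) (by omega)
  set S := univ.filter (fun x : G => x ∈ K) with hS
  have hSc : #S = κ := by rw [hS, card_filter_sub, hK]
  have hBS : B = S := by
    apply eq_of_subset_of_card_le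
    · intro x hx
      rw [hS, mem_filter]
      exact ⟨mem_univ _, hTK x (hB hx)⟩
    · rw [hSc, hBc]
  apply hTB B hB hBc
  rw [hBS]
  rw [← sum_filter_add_sum_filter_not S (fun x => x ∈ dbl K)]
  apply add_mem
  · apply sum_mem
    intro x hx
    exact (mem_filter.1 hx).2
  · set N := S.filter (fun x => ¬ x ∈ dbl K) with hN
    rcases N.eq_empty_or_nonempty with h0 | ⟨u, hu⟩
    · rw [h0, sum_empty]; exact zero_mem _
    · have hmem : ∀ x ∈ N, x ∈ K ∧ x ∉ dbl K := by
        intro x hx
        rw [hN, mem_filter, hS, mem_filter] at hx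
        exact ⟨hx.1.2, hx.2⟩
      have h1 : ∑ y ∈ N, y - #N • u ∈ dbl K := by
        apply sum_sub_card_smul
        intro y hy
        refine eta7_two h2 (hmem y hy).1 (hmem u hu).1 (zero_mem K) ?_ ?_
        · rw [sub_zero]; exact (hmem y hy).2
        · rw [sub_zero]; exact (hmem u hu).2
      have hD : #(S.filter (fun x => x ∈ dbl K)) = Nat.card (dbl K) := by
        rw [← card_filter_sub (dbl K)]
        congr 1
        ext x
        rw [mem_filter, mem_filter, mem_filter]
        constructor
        · rintro ⟨_, h⟩; exact ⟨mem_univ _, h⟩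
        · rintro ⟨_, h⟩; exact ⟨⟨mem_univ _, dbl_le K h⟩, h⟩
      have hsum : #(S.filter (fun x => x ∈ dbl K)) + #N = #S :=
        card_filter_add_card_filter_not _
      have hNpos : 0 < #N := card_pos.2 ⟨u, hu⟩
      have hdvd : Nat.card (dbl K) ∣ Nat.card K := AddSubgroup.card_dvd_of_le (dbl_le K)
      obtain ⟨i, hi⟩ := hdvd
      have hdpos : 0 < Nat.card (dbl K) := Nat.card_pos
      have hi2 : i = 2 := by
        have ha : i ≤ 2 := by
          by_contra hlt
          have : Nat.card (dbl K) * 3 ≤ Nat.card (dbl K) * i := Nat.mul_le_mul_left _ (by omega)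
          omega
        have hb : 1 < i := by
          by_contra hlt
          have : Nat.card (dbl K) * i ≤ Nat.card (dbl K) * 1 := Nat.mul_le_mul_left _ (by omega)
          omega
        omega
      rw [hi2] at hi
      have hNe : #N % 2 = 0 := by omega
      have h3 : #N • u ∈ dbl K :=
        nsmul_even_mem (add_self_mem_dbl (hmem u hu).1) hNe
      have := add_mem h1 h3
      rwa [sub_add_cancel] at this

end Pool.Agent.Lib.MP_8ac08c_co.OE
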