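import Pool.Agent.Lib.MP_8ac08c_co.OE.Stm2

set_option autoImplicit false

open Finset

namespace Pool.Agent.Lib.MP_8ac08c_co.OE

open Pool.Agent.Lib.MP_8ac08c_co

theorem p_eta8 : S_eta8 := by
  intro G _ _ K κ heq hκ0
  by_contra hcon
  obtain ⟨T, hT, hB, hc⟩ := exists_eta K hκ0
  obtain ⟨B, hBT, hBc⟩ := exists_subset_card_eq (s := T) (n := κ) (by omega)
  apply hB B hBT hBc
  rw [heq]
  exact sum_mem fun x hx => hT x (hBT hx)

end Pool.Agent.Lib.MP_8ac08c_co.OE
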