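import Pool.Agent.Lib.MP_8ac08c_co.OE.Stm
import Pool.Agent.Lib.MP_8ac08c_co.Explicit

/-! Piece [OE fail]: the case of the wrong parity. -/

set_option autoImplicit false

open Finset

namespace Pool.Agent.Lib.MP_8ac08c_co.OE

open Pool.Agent.Lib.MP_8ac08c_co Pool.Agent.Lib.MP_8ac08c_co.OD

/-- a subgroup of index two -/
private lemma fail_two {G : Type} [AddCommGroup G] [Finite G] {L M : AddSubgroup G} (hLM : L ≤ M)
    (hc : Nat.card M = 2 * Nat.card L) {a b : G} (ha : a ∈ M) (hb : b ∈ M) (ha' : a ∉ L)
    (hb' : b ∉ L) : a - b ∈ L := by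
  have h1 : Nat.card (L.addSubgroupOf M) = Nat.card L :=
    Nat.card_congr (AddSubgroup.addSubgroupOfEquivOfLe hLM).toEquiv
  have h2 : (L.addSubgroupOf M).index = 2 := by
    have h3 := AddSubgroup.card_mul_index (L.addSubgroupOf M)
    rw [h1, hc, mul_comm 2] at h3
    exact Nat.eq_of_mul_eq_mul_left Nat.card_pos h3
  have h4 := AddSubgroup.add_mem_iff_of_index_two h2 (a := ⟨a, ha⟩) (b := -⟨b, hb⟩)
  have h5 : (⟨a, ha⟩ + -⟨b, hb⟩ : M) ∈ L.addSubgroupOf M := by
    rw [h4]
    constructor
    · intro h
      exact absurd (AddSubgroup.mem_addSubgroupOf.1 h) ha'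
    · intro h
      rw [neg_mem_iff] at h
      exact absurd (AddSubgroup.mem_addSubgroupOf.1 h) hb'
  have h6 := AddSubgroup.mem_addSubgroupOf.1 h5
  rw [sub_eq_add_neg]
  exact h6

/-- sum over a set whose elements are congruent to `a₀` -/
private lemma fail_sum {G : Type} [AddCommGroup G] {L : AddSubgroup G} {Z : Finset G} {u : G}
    (h : ∀ y ∈ Z, y - u ∈ L) : ∑ y ∈ Z, y - #Z • u ∈ L := by
  have h1 : ∑ y ∈ Z, (y - u) ∈ L := sum_mem h
  rwa [sum_sub_distrib, sum_const] at h1

private lemma fail_even {G : Type} [AddCommGroup G] {L : AddSubgroup G} {u : G}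
    (hu : u + u ∈ L) {n : ℕ} (hn : Even n) : n • u ∈ L := by
  obtain ⟨l, rfl⟩ := hn
  have : (l + l) • u = l • (u + u) := by
    rw [add_smul, smul_add]
  rw [this]
  exact L.nsmul_mem hu _

/-- all elements of the closure of a set in one class modulo `dbl K` -/
private lemma fail_cls {G : Type} [AddCommGroup G] [DecidableEq G] {K D : AddSubgroup G}
    {B : Finset G} {b : G} (hK : AddSubgroup.closure (B : Set G) = K) (h2 : b + b ∈ D)
    (hB : ∀ x ∈ B, x - b ∈ D) {x : G} (hx : x ∈ K) : x ∈ D ∨ x - b ∈ D := by
  rw [← hK] at hx
  induction hx using AddSubgroup.closure_induction with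
  | mem x hx => exact Or.inr (hB x hx)
  | zero => exact Or.inl D.zero_mem
  | add x y _ _ hx hy =>
    rcases hx with hx | hx <;> rcases hy with hy | hy
    · exact Or.inl (D.add_mem hx hy)
    · right
      have : x + y - b = x + (y - b) := by abel
      rw [this]
      exact D.add_mem hx hy
    · right
      have : x + y - b = (x - b) + y := by abel
      rw [this]
      exact D.add_mem hx hy
    · left
      have : x + y = (x - b) + (y - b) + (b + b) := by abel
      rw [this]
      exact D.add_mem (D.add_mem hx hy) h2
  | neg x _ hx =>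
    rcases hx with hx | hx
    · exact Or.inl (D.neg_mem hx)
    · right
      have : -x - b = -(x - b) - (b + b) := by abel
      rw [this]
      exact D.sub_mem (D.neg_mem hx) h2

theorem p_fail : S_fail := by
  intro hrel hsol G _ _ _ κ h t u hyp hκ A B₀ K K' hAu hu1 hu2 henl hB₀A hB₀c hdK' hK'K hcK hAK'
    hspec
  classical
  obtain ⟨heven, hcard, hhκ, hexp, hlt, hge, htwo⟩ := hyp
  obtain ⟨hsub, hgen, hcov, hstar, hfew⟩ := henl
  set B := InK A K with hBdef
  have hBA : B ⊆ A := InK_subset A K
  have hB₀B : B₀ ⊆ B := fun x hx => mem_InK.2 ⟨hB₀A hx, hsub x hx⟩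
  have hBc : #B₀ ≤ #B := card_le_card hB₀B
  have hBK : ∀ x ∈ B, x ∈ K := fun x hx => (mem_InK.1 hx).2
  have hBK' : ∀ x ∈ B, x ∉ K' := fun x hx => hAK' x (hBA hx) (hBK x hx)
  have hκbig : 1000 ≤ κ := by
    refine le_trans ?_ hκ
    norm_num
  have ht : t + 4 ≤ κ / 4 := by
    have h1 : 2 ^ t ≤ κ := hge.trans hhκ
    by_contra hcon
    have h2 : κ / 4 - 3 ≤ t := by omega
    have h3 : 2 ^ (κ / 4 - 3) ≤ κ := (Nat.pow_le_pow_right (by norm_num) h2).trans h1
    have h4 : ∀ m : ℕ, 20 ≤ m → 4 * (m + 4) < 2 ^ m := by
      intro m hm
      induction m, hm using Nat.le_induction with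
      | base => norm_num
      | succ n hn ih => rw [pow_succ]; omega
    have h5 := h4 (κ / 4 - 3) (by omega)
    omega
  -- a₀
  have hBne : B.Nonempty := by
    rw [← card_pos]
    omega
  obtain ⟨a₀, ha₀⟩ := hBne
  have ha₀K := hBK a₀ ha₀
  have ha₀K' := hBK' a₀ ha₀
  have h2a₀ : a₀ + a₀ ∈ dbl K := add_self_mem_dbl ha₀K
  have hBa : ∀ x ∈ B, x - a₀ ∈ K' := fun x hx =>
    fail_two hK'K hcK (hBK x hx) ha₀K (hBK' x hx) ha₀K'
  have hκa : κ • a₀ ∈ dbl K := fail_even h2a₀ heven
  -- #B ≤ |K'|
  have hBle : #B ≤ Nat.card K' := by
    rw [Nat.card_eq_fintype_card, ← Finset.card_univ]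
    refine Finset.card_le_card_of_injOn (fun x => if hx : x - a₀ ∈ K' then ⟨x - a₀, hx⟩ else 0)
      (fun _ _ => by simp) ?_
    intro x hx y hy hxy
    have hx' := hBa x hx
    have hy' := hBa y hy
    simp only [hx', hy', dif_pos] at hxy
    have := congrArg Subtype.val hxy
    exact sub_left_injective this
  -- the quotient
  have hQ : Nat.card (G ⧸ K') * Nat.card K' = h * κ := by
    rw [← hcard]
    exact (AddSubgroup.card_eq_card_quotient_mul_card_addSubgroup K').symm
  have hhpos : 0 < h := lt_of_lt_of_le (by positivity) hge
  set i := Nat.card (G ⧸ K') with hi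
  have hi1 : 91 * i ≤ 100 * h := by
    have h1 : 91 * κ ≤ 100 * Nat.card K' := hB₀c.trans (Nat.mul_le_mul_left _ (hBc.trans hBle))
    have h2 : κ * (91 * i) ≤ κ * (100 * h) := by
      calc κ * (91 * i) = (91 * κ) * i := by ring
        _ ≤ (100 * Nat.card K') * i := Nat.mul_le_mul_right _ h1
        _ = 100 * (i * Nat.card K') := by ring
        _ = 100 * (h * κ) := by rw [hQ]
        _ = κ * (100 * h) := by ring
    exact Nat.le_of_mul_le_mul_left h2 (by omega)
  have hi2 : i < 2 ^ (t + 2) := by
    have : 2 ^ (t + 2) = 2 * 2 ^ (t + 1) := by rw [pow_succ (n := t + 1)]; ring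
    omega
  -- the relation
  let q : G → G ⧸ K' := fun x => ((x - a₀ : G) : G ⧸ K')
  set X := A \ B with hX
  obtain ⟨W, hWX, hWrel, hWmax⟩ : ∃ W ⊆ X, Rel q W ∧ ∀ W' ⊆ X, Rel q W' → #W' ≤ #W := by
    obtain ⟨W, hW, hmax⟩ := Finset.exists_max_image (X.powerset.filter fun W => Rel q W)
      (fun W => #W) ⟨∅, by
        rw [mem_filter]
        exact ⟨empty_mem_powerset _, ∅, ∅, disjoint_empty_left _, by simp, by simp⟩⟩
    rw [mem_filter, mem_powerset] at hW
    refine ⟨W, hW.1, hW.2, ?_⟩
    intro W' hW' hr
    exact hmax W' (mem_filter.2 ⟨mem_powerset.2 hW', hr⟩)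
  obtain ⟨-, hC2, hC3, -⟩ := hrel G (G ⧸ K') q X W hWX hWrel hWmax
  set c := #(X \ W) with hc
  have hWA : W ⊆ A := hWX.trans sdiff_subset
  have hWK : ∀ w ∈ W, w ∉ K := by
    intro w hw hwK
    have := (mem_sdiff.1 (hWX hw)).2
    exact this (mem_InK.2 ⟨hWA hw, hwK⟩)
  have hcount : #B + #W + c = u := by
    have h1 : #X = u - #B := by rw [hX, card_sdiff_of_subset hBA, hAu]
    have h2 : c = #X - #W := by rw [hc, card_sdiff_of_subset hWX]
    have h3 : #B ≤ u := by rw [← hAu]; exact card_le_card hBA
    have h4 : #W ≤ #X := card_le_card hWX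
    omega
  have hc1 : c ≤ t + 1 := by
    have h1 : 2 ^ c < 2 ^ (t + 2) := lt_of_le_of_lt hC2 hi2
    have := (Nat.pow_lt_pow_iff_right (by norm_num : 1 < 2)).1 h1
    omega
  have hww : ∀ w ∈ W, w + w ∉ K' → 2 ^ (c + 1) ≤ i := by
    intro w hw hw2
    apply hC3 w hw
    intro h0
    apply hw2
    have h1 : (((w - a₀) + (w - a₀) : G) : G ⧸ K') = 0 := h0
    rw [QuotientAddGroup.eq_zero_iff] at h1
    have h2 : w + w = (w - a₀) + (w - a₀) + (a₀ + a₀) := by abel
    rw [h2]
    exact K'.add_mem h1 (hdK' h2a₀)
  obtain ⟨P, N, hPN, hPNW, hsum⟩ := hWrel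
  set z := ∑ x ∈ P, x - ∑ x ∈ N, x with hz
  have hzSG : z ∈ SG W := by
    rw [← hPNW]
    exact sub_mem_SG hPN
  have hzW : z - #W • a₀ ∈ K' := by
    have h1 : ((∑ x ∈ P, (x - a₀) - ∑ x ∈ N, (x - a₀) : G) : G ⧸ K') = 0 := by
      have h2 : ((∑ x ∈ P, (x - a₀) : G) : G ⧸ K') = ∑ x ∈ P, q x :=
        map_sum (QuotientAddGroup.mk' K') _ _
      have h3 : ((∑ x ∈ N, (x - a₀) : G) : G ⧸ K') = ∑ x ∈ N, q x :=
        map_sum (QuotientAddGroup.mk' K') _ _
      rw [QuotientAddGroup.mk_sub, h2, h3, hsum, sub_self]
    rw [QuotientAddGroup.eq_zero_iff, sum_sub_distrib, sum_sub_distrib, sum_const, sum_const] at h1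
    have h4 : #W = #P + #N := by rw [← hPNW, card_union_of_disjoint hPN]
    have h5 : z - #W • a₀ = (∑ x ∈ P, x - #P • a₀ - (∑ x ∈ N, x - #N • a₀)) -
        (#N + #N) • a₀ := by
      rw [h4, hz, add_smul, add_smul]
      abel
    rw [h5]
    exact K'.sub_mem h1 (fail_even (hdK' h2a₀) ⟨_, rfl⟩)
  -- the value for `J`
  have hval : ∀ J ⊆ B, #B + #W = κ + #J → ∑ x ∈ B \ J, x + z ∈ K' := by
    intro J hJ hJc
    have h1 : ∑ x ∈ B \ J, x - #(B \ J) • a₀ ∈ K' :=
      fail_sum fun y hy => hBa y (mem_sdiff.1 hy).1
    have h2 : #(B \ J) + #W = κ := by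
      have h3 := card_sdiff_of_subset hJ
      have h4 := card_le_card hJ
      omega
    have h3 : ∑ x ∈ B \ J, x + z = (∑ x ∈ B \ J, x - #(B \ J) • a₀) + (z - #W • a₀) +
        κ • a₀ := by
      rw [← h2, add_smul]
      abel
    rw [h3]
    exact K'.add_mem (K'.add_mem h1 hzW) (hdK' hκa)
  have hno : ∀ w ∈ W, c = t + 1 → w + w ∈ K' := by
    intro w hw hct
    by_contra hcon
    have := hww w hw hcon
    rw [hct] at this
    omega
  by_cases hT : κ ≤ #B + #W
  · by_cases hKK : K' = dbl K
    · -- case (1)
      obtain ⟨J, hJ, hJc⟩ := exists_subset_card_eq (s := B₀) (n := #B + #W - κ) (by omega)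
      have hJB : J ⊆ B := hJ.trans hB₀B
      apply hsol G κ (t + 4) A B₀ W J K z hcov hWA hWK hzSG hJB
      · rw [sdiff_eq_empty_iff_subset.2 hJ]
        simp
      · omega
      · rw [← hBdef]
        omega
      · rw [← hBdef, ← hKK]
        exact hval J hJB (by omega)
    · -- case (2)
      have hcd : Nat.card K' = 2 * Nat.card (dbl K) := by
        have h1 : Nat.card K ≤ 4 * Nat.card (dbl K) := by
          refine (card_le_dbl' K).trans (Nat.mul_le_mul_right _ ?_)
          refine le_trans (le_of_eq ?_) htwo
          congr 1
          ext x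
          simp
        obtain ⟨m, hm⟩ := AddSubgroup.card_dvd_of_le hdK'
        have h2 : 0 < Nat.card (dbl K) := Nat.card_pos
        have h3 : 0 < Nat.card K' := Nat.card_pos
        have hm0 : m ≠ 0 := by
          rintro rfl
          omega
        have hm1 : m ≠ 1 := by
          rintro rfl
          rw [mul_one] at hm
          apply hKK
          exact (AddSubgroup.eq_of_le_of_card_ge hdK' (by omega)).symm
        have hm2 : m ≤ 2 := by
          rw [hcK, hm] at h1
          by_contra hcon
          have h4 : 3 ≤ m := by omega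
          have h5 : Nat.card (dbl K) * 3 ≤ Nat.card (dbl K) * m := Nat.mul_le_mul_left _ h4
          omega
        have hm3 : m = 2 := by omega
        rw [hm, hm3, mul_comm]
      by_cases hT2 : κ < #B + #W
      · -- case (2a)
        have hB₀ne : B₀.Nonempty := by
          rw [← card_pos]
          omega
        obtain ⟨b, hb⟩ := hB₀ne
        have hbB := hB₀B hb
        obtain ⟨b', hb'B, hb'⟩ : ∃ b' ∈ B, b' - b ∉ dbl K := by
          by_contra hcon
          push Not at hcon
          obtain ⟨x, hx, hx'⟩ : ∃ x ∈ K', x ∉ dbl K := by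
            by_contra hcon2
            push Not at hcon2
            exact hKK (le_antisymm hcon2 hdK')
          rcases fail_cls hgen (add_self_mem_dbl (hBK b hbB)) hcon (hK'K hx) with h1 | h1
          · exact hx' h1
          · apply hBK' b hbB
            have h2 : b = x - (x - b) := by abel
            rw [h2]
            exact K'.sub_mem hx (hdK' h1)
        have hbb' : b' ≠ b := by
          rintro rfl
          apply hb'
          rw [sub_self]
          exact (dbl K).zero_mem
        obtain ⟨J', hJ', hJ'c⟩ := exists_subset_card_eq (s := (B₀.erase b).erase b')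
          (n := #B + #W - κ - 1) (by
            have h1 := pred_card_le_card_erase (s := B₀.erase b) (a := b')
            have h2 := card_erase_of_mem hb
            omega)
        have hJ'B : J' ⊆ B := fun x hx => hB₀B (mem_of_mem_erase (mem_of_mem_erase (hJ' hx)))
        have hJ'B₀ : J' ⊆ B₀ := fun x hx => mem_of_mem_erase (mem_of_mem_erase (hJ' hx))
        have hb1 : b ∉ J' := fun hx => by
          have := mem_of_mem_erase (hJ' hx)
          exact (notMem_erase b B₀) this
        have hb2 : b' ∉ J' := fun hx => (notMem_erase b' (B₀.erase b)) (hJ' hx)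
        have key : ∀ y ∈ B, y ∉ J' → ∑ x ∈ B \ insert y J', x + z ∈ dbl K → Sol A κ := by
          intro y hy hyJ hv
          have hJB : insert y J' ⊆ B := insert_subset hy hJ'B
          have hJc : #(insert y J') = #B + #W - κ := by
            rw [card_insert_of_notMem hyJ, hJ'c]
            omega
          apply hsol G κ (t + 4) A B₀ W (insert y J') K z hcov hWA hWK hzSG hJB
          · have h1 : insert y J' \ B₀ ⊆ {y} := by
              intro x hx
              rw [mem_sdiff, mem_insert] at hx
              rw [mem_singleton]
              rcases hx.1 with h | h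
              · exact h
              · exact absurd (hJ'B₀ h) hx.2
            have := card_le_card h1
            rw [card_singleton] at this
            omega
          · omega
          · rw [← hBdef]
            omega
          · rw [← hBdef]
            exact hv
        have hsum2 : ∀ y ∈ B, y ∉ J' → ∑ x ∈ B \ insert y J', x + y = ∑ x ∈ B \ J', x := by
          intro y hy hyJ
          have h1 : B \ J' = insert y (B \ insert y J') := by
            ext x
            simp only [mem_sdiff, mem_insert]
            constructor
            · rintro ⟨h2, h3⟩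
              by_cases hxy : x = y
              · exact Or.inl hxy
              · right
                refine ⟨h2, ?_⟩
                rintro (h4 | h4)
                · exact hxy h4
                · exact h3 h4
            · rintro (h2 | ⟨h2, h3⟩)
              · rw [h2]
                exact ⟨hy, hyJ⟩
              · exact ⟨h2, fun h4 => h3 (Or.inr h4)⟩
          rw [h1, sum_insert (by simp), add_comm]
        have hv1 : ∑ x ∈ B \ insert b J', x + z ∈ K' := by
          apply hval _ (insert_subset hbB hJ'B)
          rw [card_insert_of_notMem hb1, hJ'c]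
          omega
        have hv2 : ∑ x ∈ B \ insert b' J', x + z ∈ K' := by
          apply hval _ (insert_subset hb'B hJ'B)
          rw [card_insert_of_notMem hb2, hJ'c]
          omega
        by_cases h1 : ∑ x ∈ B \ insert b J', x + z ∈ dbl K
        · exact key b hbB hb1 h1
        · by_cases h2 : ∑ x ∈ B \ insert b' J', x + z ∈ dbl K
          · exact key b' hb'B hb2 h2
          · exfalso
            have h3 := fail_two hdK' hcd hv1 hv2 h1 h2
            apply hb'
            have h4 := hsum2 b hbB hb1
            have h5 := hsum2 b' hb'B hb2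
            have h6 : ∑ x ∈ B \ insert b J', x + z - (∑ x ∈ B \ insert b' J', x + z) = b' - b := by
              have h7 : ∑ x ∈ B \ insert b J', x = ∑ x ∈ B \ J', x - b := by
                rw [← h4]; abel
              have h8 : ∑ x ∈ B \ insert b' J', x = ∑ x ∈ B \ J', x - b' := by
                rw [← h5]; abel
              rw [h7, h8]
              abel
            rwa [h6] at h3
      · -- case (2b)
        have hTκ : #B + #W = κ := by omega
        have hune : u ≠ κ + t := fun h1 => hKK (hspec h1)
        have hct : c = t + 1 := by omega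
        have hWne : W.Nonempty := by
          rw [nonempty_iff_ne_empty]
          intro hW0
          rw [hW0, card_empty, add_zero] at hTκ
          have h1 : κ ≤ Nat.card K' := by rw [← hTκ]; exact hBle
          have h2 : i ≤ h := by
            have h3 : i * κ ≤ h * κ := by
              rw [← hQ]
              exact Nat.mul_le_mul_left _ h1
            exact Nat.le_of_mul_le_mul_right h3 (by omega)
          rw [hct] at hC2
          omega
        obtain ⟨w, hw⟩ := hWne
        have hw2 : w + w ∈ K' := hno w hw hct
        have hw3 : w + w ∉ dbl K := hstar w (hWA hw) (hWK w hw) (hK'K hw2)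
        have hv0 : ∑ x ∈ B \ ∅, x + z ∈ K' := hval ∅ (empty_subset _) (by simpa using hTκ)
        have key : ∀ z' ∈ SG W, ∑ x ∈ B \ ∅, x + z' ∈ dbl K → Sol A κ := by
          intro z' hz' hv
          apply hsol G κ (t + 4) A B₀ W ∅ K z' hcov hWA hWK hz' (empty_subset _)
          · simp
          · simp
          · rw [← hBdef]
            simpa using hTκ
          · rw [← hBdef]
            exact hv
        by_cases h1 : ∑ x ∈ B \ ∅, x + z ∈ dbl K
        · exact key z hzSG h1
        · have hw' : w ∈ P ∪ N := by rw [hPNW]; exact hw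
          rcases mem_union.1 hw' with hwP | hwN
          · apply key (z - (w + w))
            · have h2 : ∑ x ∈ P.erase w, x - ∑ x ∈ insert w N, x = z - (w + w) := by
                rw [sum_insert (fun hx => (disjoint_left.1 hPN hwP) hx), hz]
                have h3 := sum_erase_add (f := fun x => x) P hwP
                rw [← h3]
                abel
              have h3 : Disjoint (P.erase w) (insert w N) := by
                rw [disjoint_left]
                intro x hx hx'
                rw [mem_erase] at hx
                rcases mem_insert.1 hx' with h4 | h4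
                · exact hx.1 h4
                · exact (disjoint_left.1 hPN hx.2) h4
              have h4 : P.erase w ∪ insert w N = W := by
                rw [← hPNW]
                ext x
                simp only [mem_union, mem_erase, mem_insert]
                constructor
                · rintro (h5 | h5 | h5)
                  · exact Or.inl h5.2
                  · rw [h5]; exact Or.inl hwP
                  · exact Or.inr h5
                · rintro (h5 | h5)
                  · by_cases h6 : x = w
                    · exact Or.inr (Or.inl h6)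
                    · exact Or.inl ⟨h6, h5⟩
                  · exact Or.inr (Or.inr h5)
              have h5 := sub_mem_SG h3
              rwa [h2, h4] at h5
            · have h2 := fail_two hdK' hcd hv0 hw2 h1 hw3
              have h3 : ∑ x ∈ B \ ∅, x + (z - (w + w)) = ∑ x ∈ B \ ∅, x + z - (w + w) := by abel
              rw [h3]
              exact h2
          · apply key (z + (w + w))
            · have h2 : ∑ x ∈ insert w P, x - ∑ x ∈ N.erase w, x = z + (w + w) := by
                rw [sum_insert (fun hx => (disjoint_left.1 hPN hx) hwN), hz]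
                have h3 := sum_erase_add (f := fun x => x) N hwN
                rw [← h3]
                abel
              have h3 : Disjoint (insert w P) (N.erase w) := by
                rw [disjoint_left]
                intro x hx' hx
                rw [mem_erase] at hx
                rcases mem_insert.1 hx' with h4 | h4
                · exact hx.1 h4
                · exact (disjoint_left.1 hPN h4) hx.2
              have h4 : insert w P ∪ N.erase w = W := by
                rw [← hPNW]
                ext x
                simp only [mem_union, mem_erase, mem_insert]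
                constructor
                · rintro ((h5 | h5) | h5)
                  · rw [h5]; exact Or.inr hwN
                  · exact Or.inl h5
                  · exact Or.inr h5.2
                · rintro (h5 | h5)
                  · exact Or.inl (Or.inr h5)
                  · by_cases h6 : x = w
                    · exact Or.inl (Or.inl h6)
                    · exact Or.inr ⟨h6, h5⟩
              have h5 := sub_mem_SG h3
              rwa [h2, h4] at h5
            · have h2 := fail_two hdK' hcd hv0 (K'.neg_mem hw2) h1
                (fun h3 => hw3 (neg_mem_iff.1 h3))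
              have h3 : ∑ x ∈ B \ ∅, x + (z + (w + w)) = ∑ x ∈ B \ ∅, x + z - -(w + w) := by abel
              rw [h3]
              exact h2
  · -- case (3)
    exfalso
    have hct : c = t + 1 := by omega
    have huκ : u = κ + t := by omega
    have hKd : K' = dbl K := hspec huκ
    have hW0 : W = ∅ := by
      by_contra hne
      obtain ⟨w, hw⟩ := nonempty_iff_ne_empty.2 hne
      have h1 := hno w hw hct
      exact hstar w (hWA hw) (hWK w hw) (hK'K h1) (hKd ▸ h1)
    rw [hW0, card_empty, add_zero] at hT hcount
    have h1 : κ - 1 ≤ Nat.card K' := by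
      refine le_trans ?_ hBle
      omega
    by_cases h2 : κ ≤ Nat.card K'
    · have h3 : i ≤ h := by
        have h4 : i * κ ≤ h * κ := by
          rw [← hQ]
          exact Nat.mul_le_mul_left _ h2
        exact Nat.le_of_mul_le_mul_right h4 (by omega)
      rw [hct] at hC2
      omega
    · have h3 : Nat.card K' = κ - 1 := by omega
      obtain ⟨p, hp, hpd⟩ := Nat.exists_prime_and_dvd (n := κ - 1) (by omega)
      have := Fact.mk hp
      rw [← h3] at hpd
      obtain ⟨x, hx⟩ := exists_prime_addOrderOf_dvd_card' p hpd
      have h4 : addOrderOf (x : G) = p := by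
        rw [← hx]
        exact AddSubgroup.addOrderOf_coe x
      have h5 : p ∣ κ := by
        rw [← h4]
        exact addOrderOf_dvd_of_nsmul_eq_zero (hexp x)
      rw [h3] at hpd
      have h6 : p ∣ κ - (κ - 1) := Nat.dvd_sub h5 hpd
      have h7 : κ - (κ - 1) = 1 := by omega
      rw [h7] at h6
      exact hp.one_lt.ne' (Nat.dvd_one.1 h6)

end Pool.Agent.Lib.MP_8ac08c_co.OE
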