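import Pool.Agent.Lib.MP_8ac08c_co.OE.Stm
import Pool.Agent.Lib.MP_8ac08c_co.Explicit

/-! # MP_8ac08c_co, project OE, piece finU: the covered case, `u ≥ κ + t + 1` -/

set_option autoImplicit false

open Finset

namespace Pool.Agent.Lib.MP_8ac08c_co.OE

open Pool.Agent.Lib.MP_8ac08c_co Pool.Agent.Lib.MP_8ac08c_co.OD

/-- the quotient `K / 2 K` -/
private theorem finU_quot {G : Type} [AddCommGroup G] [Finite G] (K : AddSubgroup G) :
    ∃ (V : Type) (_ : AddCommGroup V) (_ : Finite V) (c : G → V), (∀ v : V, v + v = 0) ∧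
      Nat.card K = Nat.card V * Nat.card (dbl K) ∧
      (∀ a b, a ∈ K → b ∈ K → c (a + b) = c a + c b) ∧
      (∀ a ∈ K, (c a = 0 ↔ a ∈ dbl K)) ∧ ∀ v, ∃ a ∈ K, c a = v := by
  classical
  have hle : dbl K ≤ K := by
    intro x hx
    obtain ⟨k, hk, rfl⟩ := mem_dbl.1 hx
    exact K.add_mem hk hk
  let H : AddSubgroup K := (dbl K).addSubgroupOf K
  let c : G → K ⧸ H := fun x => if hx : x ∈ K then ((⟨x, hx⟩ : K) : K ⧸ H) else 0
  have hc : ∀ x (hx : x ∈ K), c x = ((⟨x, hx⟩ : K) : K ⧸ H) := fun x hx => dif_pos hx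
  refine ⟨K ⧸ H, inferInstance, inferInstance, c, ?_, ?_, ?_, ?_, ?_⟩
  · intro v
    obtain ⟨k, rfl⟩ := QuotientAddGroup.mk_surjective v
    rw [← QuotientAddGroup.mk_add, QuotientAddGroup.eq_zero_iff]
    rw [AddSubgroup.mem_addSubgroupOf]
    exact mem_dbl.2 ⟨k, k.2, rfl⟩
  · rw [AddSubgroup.card_eq_card_quotient_mul_card_addSubgroup H]
    congr 1
    exact Nat.card_congr (AddSubgroup.addSubgroupOfEquivOfLe hle).toEquiv
  · intro a b ha hb
    rw [hc a ha, hc b hb, hc (a + b) (K.add_mem ha hb), ← QuotientAddGroup.mk_add]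
    rfl
  · intro a ha
    rw [hc a ha, QuotientAddGroup.eq_zero_iff, AddSubgroup.mem_addSubgroupOf]
  · intro v
    obtain ⟨k, rfl⟩ := QuotientAddGroup.mk_surjective v
    exact ⟨k, k.2, hc k k.2⟩

/-- index two -/
private theorem finU_half {G : Type} [AddCommGroup G] [Finite G] (K K' : AddSubgroup G)
    (hle : K' ≤ K) (b : G) (hb : b ∈ K) (hb' : b ∉ K')
    (h : ∀ x ∈ K, x ∉ K' → x + b ∈ K') : Nat.card K = 2 * Nat.card K' := by
  have h2 : (K'.addSubgroupOf K).index = 2 := by
    rw [AddSubgroup.index_eq_two_iff]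
    refine ⟨⟨b, hb⟩, fun x => ?_⟩
    rw [AddSubgroup.mem_addSubgroupOf, AddSubgroup.mem_addSubgroupOf]
    by_cases hx : (x : G) ∈ K'
    · refine Or.inr ⟨hx, fun h1 => hb' ?_⟩
      have h3 : ((x + ⟨b, hb⟩ : K) : G) - (x : G) = b := by
        rw [AddSubgroup.coe_add]
        abel
      rw [← h3]
      exact K'.sub_mem h1 hx
    · exact Or.inl ⟨h x x.2 hx, hx⟩
  have h3 := (K'.addSubgroupOf K).card_mul_index
  rw [h2, Nat.card_congr (AddSubgroup.addSubgroupOfEquivOfLe hle).toEquiv] at h3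
  omega

private theorem finU_card {G : Type} [AddCommGroup G] [Finite G] (K : AddSubgroup G)
    (S : Finset G) (h : ∀ x ∈ S, x ∈ K) : #S ≤ Nat.card K := by
  classical
  have h1 : (S : Set G) ⊆ (K : Set G) := fun x hx => h x hx
  have h2 := Set.ncard_le_ncard h1 (Set.toFinite _)
  rw [Set.ncard_coe_finset] at h2
  exact h2

private theorem finU_pow (t : ℕ) (ht : 6 ≤ t) : 8 * t ≤ 2 ^ t := by
  induction t, ht using Nat.le_induction with
  | base => norm_num
  | succ n hn ih =>
    rw [pow_succ]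
    omega

private theorem finU_inst {G : Type} [AddCommGroup G] [Fintype G]
    (i j : DecidablePred fun x : G => x + x = 0)
    (h : #(@filter G (fun x : G => x + x = 0) i univ) ≤ 4) :
    #(@filter G (fun x : G => x + x = 0) j univ) ≤ 4 := by
  have hij : i = j := Subsingleton.elim _ _
  subst hij
  exact h

/-- Sums of classes. -/
private theorem finU_csum {G V : Type} [AddCommGroup G] [DecidableEq G] [AddCommGroup V]
    {K : AddSubgroup G} {c : G → V} (hadd : ∀ a b, a ∈ K → b ∈ K → c (a + b) = c a + c b)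
    (h0 : c 0 = 0) (J : Finset G) (hJ : ∀ x ∈ J, x ∈ K) : ∑ x ∈ J, c x = c (∑ x ∈ J, x) := by
  induction J using Finset.induction_on with
  | empty => rw [sum_empty, sum_empty, h0]
  | insert a s ha ih =>
    rw [sum_insert ha, sum_insert ha, ih (fun x hx => hJ x (mem_insert_of_mem hx)),
      hadd a _ (hJ a (mem_insert_self a s))
        (sum_mem fun x hx => hJ x (mem_insert_of_mem hx))]

/-- The covered case, `u ≥ κ + t + 1`. -/
theorem p_finU : S_finU := by
  intro hrel hdrop hsol henl hbeta hocc hfail G _ _ _ κ h t u H hκ hu1 hu2 hspec A K₀ hA h91 hcl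
    hcov
  classical
  obtain ⟨K, hE⟩ := henl G A K₀ (t + 4) hcl hcov
  have hB₀A : InK A K₀ ⊆ A := InK_subset A K₀
  have hB₀ : InK A K₀ ⊆ InK A K := fun x hx => mem_InK.2 ⟨hB₀A hx, hE.sub x hx⟩
  have hcB : #(InK A K₀) ≤ #(InK A K) := card_le_card hB₀
  -- sizes
  have hcK : #(InK A K) ≤ Nat.card K := finU_card K _ (fun x hx => (mem_InK.1 hx).2)
  have h91K : 91 * κ ≤ 100 * #(InK A K) := h91.trans (Nat.mul_le_mul_left _ hcB)
  have h4 : Nat.card K ≤ 4 * Nat.card (dbl K) := by
    refine (card_le_dbl' K).trans (Nat.mul_le_mul_right _ ?_)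
    exact finU_inst _ _ H.two
  have hκ0 : 0 < κ := lt_of_lt_of_le (by positivity) hκ
  have hidx : Nat.card (G ⧸ K) * Nat.card K = h * κ := by
    rw [← AddSubgroup.card_eq_card_quotient_mul_card_addSubgroup, H.card]
  -- the largest relation
  set q : G → G ⧸ K := fun x => (x : G ⧸ K) with hq
  set X : Finset G := A \ InK A K with hX
  have hex : ∃ W ⊆ X, Rel q W ∧ ∀ W' ⊆ X, Rel q W' → #W' ≤ #W := by
    have hne : ((X.powerset).filter (fun W => Rel q W)).Nonempty := by
      refine ⟨∅, ?_⟩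
      rw [mem_filter, mem_powerset]
      exact ⟨empty_subset _, ∅, ∅, disjoint_empty_left _, by rw [empty_union], rfl⟩
    obtain ⟨W, hW, hmax⟩ := exists_max_image _ (fun W : Finset G => #W) hne
    rw [mem_filter, mem_powerset] at hW
    refine ⟨W, hW.1, hW.2, fun W' hW' hr => hmax W' ?_⟩
    rw [mem_filter, mem_powerset]
    exact ⟨hW', hr⟩
  obtain ⟨W, hWX, hWr, hWm⟩ := hex
  obtain ⟨hdis, hpow, -, -⟩ := hrel G (G ⧸ K) q X W hWX hWr hWm
  have hXA : X ⊆ A := sdiff_subset
  have hWA : W ⊆ A := hWX.trans hXA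
  have hXK : ∀ w ∈ X, w ∉ K := fun w hw hwK =>
    (mem_sdiff.1 hw).2 (mem_InK.2 ⟨(mem_sdiff.1 hw).1, hwK⟩)
  have hWK : ∀ w ∈ W, w ∉ K := fun w hw => hXK w (hWX hw)
  have hcardA : #(InK A K) + #W + #(X \ W) = u := by
    have h5 : #(X \ W) + #W = #X := card_sdiff_add_card_eq_card hWX
    have h6 : #X + #(InK A K) = #A := card_sdiff_add_card_eq_card (InK_subset A K)
    omega
  -- the sum
  obtain ⟨P, N, hPN, hPNW, hsum⟩ := hWr
  set z : G := ∑ x ∈ P, x - ∑ x ∈ N, x with hz
  have hzSG : z ∈ SG W := by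
    rw [← hPNW]
    exact sub_mem_SG hPN
  have hzK : z ∈ K := by
    rw [← QuotientAddGroup.eq_zero_iff, hz, QuotientAddGroup.mk_sub, sub_eq_zero]
    have h5 : ∀ S : Finset G, ((∑ x ∈ S, x : G) : G ⧸ K) = ∑ x ∈ S, q x := by
      intro S
      exact map_sum (QuotientAddGroup.mk' K) (fun x => x) S
    rw [h5, h5]
    exact hsum
  have hsK : ∑ x ∈ InK A K, x ∈ K := sum_mem fun x hx => (mem_InK.1 hx).2
  -- the classes
  obtain ⟨V, _, _, c, hV2, hVc, hadd, hc0, hsurj⟩ := finU_quot K
  have h00 : c 0 = 0 := (hc0 0 K.zero_mem).2 (dbl K).zero_mem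
  have hV4 : Nat.card V ≤ 4 := by
    have h5 : 0 < Nat.card (dbl K) := Nat.card_pos
    rw [hVc] at h4
    exact Nat.le_of_mul_le_mul_right h4 h5
  have hsubc : ∀ a b, a ∈ K → b ∈ K → (a - b ∈ dbl K ↔ c a = c b) := by
    intro a b ha hb
    have h5 := hadd (a - b) b (K.sub_mem ha hb) hb
    rw [sub_add_cancel] at h5
    rw [← hc0 (a - b) (K.sub_mem ha hb), h5]
    constructor
    · intro h6
      rw [h6, zero_add]
    · intro h6
      have h7 : c (a - b) + c b - c b = c b - c b := by rw [h6]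
      rw [add_sub_cancel_right, sub_self] at h7
      exact h7
  have hgen : AddSubgroup.closure (c '' (InK A K : Set G)) = ⊤ := by
    let f : K →+ V :=
      { toFun := fun k => c k
        map_zero' := h00
        map_add' := fun a b => hadd a b a.2 b.2 }
    rw [eq_top_iff]
    intro v _
    obtain ⟨a, ha, rfl⟩ := hsurj v
    have h5 : K ≤ (AddSubgroup.comap f (AddSubgroup.closure (c '' (InK A K : Set G)))).map
        K.subtype := by
      have h6 := hE.gen
      conv_lhs => rw [← h6]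
      rw [AddSubgroup.closure_le]
      intro x hx
      have hxK : x ∈ K := (mem_InK.1 hx).2
      refine ⟨⟨x, hxK⟩, ?_, rfl⟩
      show c x ∈ AddSubgroup.closure (c '' (InK A K : Set G))
      exact AddSubgroup.subset_closure ⟨x, hx, rfl⟩
    obtain ⟨k, hk, hka⟩ := h5 ha
    have h6 : c k ∈ AddSubgroup.closure (c '' (InK A K : Set G)) := hk
    have h7 : (k : G) = a := hka
    rw [h7] at h6
    exact h6
  -- arithmetic
  have h8t : 8 * t ≤ κ := by
    rcases Nat.lt_or_ge t 6 with h5 | h5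
    · have h6 : (2 : ℕ) ^ 100 ≥ 48 := by norm_num
      omega
    · exact (finU_pow t h5).trans (H.ge.trans H.le)
  have hbig : 1000 ≤ κ := by
    have h6 : (1000 : ℕ) ≤ 2 ^ 100 := by norm_num
    exact h6.trans hκ
  set S₀ : G := ∑ x ∈ InK A K, x + z with hS₀
  have hS₀K : S₀ ∈ K := K.add_mem hsK hzK
  -- the main step
  have step : ∀ j, 1 ≤ j → j ≤ t + 2 → #(InK A K) + #W = κ + j →
      Sol A κ ∨ (j = 1 ∧ ∀ b ∈ InK A K, c b ≠ c S₀) := by
    intro j hj1 hj2 hj
    rcases hdrop V G c (InK A K) (InK A K₀) j (c S₀) hV2 hV4 hgen hB₀ (by omega) hj1 with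
      ⟨J, hJB, hJc, hJ2, hJs⟩ | ⟨f, hf1, hf2⟩ | ⟨hj1', -, hocc'⟩
    · left
      refine hsol G κ (t + 4) A (InK A K₀) W J K z hE.cov hWA hWK hzSG hJB hJ2 (by omega)
        (by omega) ?_
      have hJK : ∀ x ∈ J, x ∈ K := fun x hx => (mem_InK.1 (hJB hx)).2
      have h5 : ∑ x ∈ InK A K \ J, x + z = S₀ - ∑ x ∈ J, x := by
        rw [hS₀, ← sum_sdiff hJB]
        abel
      rw [h5, hsubc _ _ hS₀K (sum_mem hJK), ← hJs, finU_csum hadd h00 J hJK]
    · left
      have hBne : (InK A K).Nonempty := by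
        rw [← card_pos]
        omega
      obtain ⟨b₀, hb₀⟩ := hBne
      have hb₀K : b₀ ∈ K := (mem_InK.1 hb₀).2
      have hcneg : ∀ a ∈ K, c (-a) = c a := by
        intro a ha
        have h5 := hadd (-a) a (K.neg_mem ha) ha
        rw [neg_add_cancel, h00] at h5
        have h6 := hV2 (c a)
        have h7 : c (-a) + c a = c a + c a := by rw [← h5, h6]
        exact add_right_cancel h7
      let K' : AddSubgroup G :=
        { carrier := {x | x ∈ K ∧ f (c x) = 0}
          zero_mem' := ⟨K.zero_mem, by rw [h00, map_zero]⟩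
          add_mem' := by
            rintro a b ⟨ha, ha'⟩ ⟨hb, hb'⟩
            exact ⟨K.add_mem ha hb, by rw [hadd a b ha hb, map_add, ha', hb', add_zero]⟩
          neg_mem' := by
            rintro a ⟨ha, ha'⟩
            exact ⟨K.neg_mem ha, by rw [hcneg a ha, ha']⟩ }
      have hK'm : ∀ x, x ∈ K' ↔ x ∈ K ∧ f (c x) = 0 := fun x => Iff.rfl
      have hdK : dbl K ≤ K := by
        intro x hx
        obtain ⟨k, hk, rfl⟩ := mem_dbl.1 hx
        exact K.add_mem hk hk
      refine hfail hrel hsol G κ h t u H hκ A (InK A K₀) K K' hA (by omega) hu2 hE hB₀A h91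
        ?_ ?_ ?_ ?_ (fun h5 => by omega)
      · intro x hx
        rw [hK'm]
        exact ⟨hdK hx, by rw [(hc0 x (hdK hx)).2 hx, map_zero]⟩
      · intro x hx
        exact ((hK'm x).1 hx).1
      · have hz2 : ∀ a : ZMod 2, a ≠ 0 → a + 1 = 0 := by decide
        refine finU_half K K' (fun x hx => ((hK'm x).1 hx).1) b₀ hb₀K ?_ ?_
        · intro h5
          have h6 := ((hK'm b₀).1 h5).2
          rw [hf1 b₀ hb₀] at h6
          exact one_ne_zero h6
        · intro x hx hx'
          rw [hK'm]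
          refine ⟨K.add_mem hx hb₀K, ?_⟩
          rw [hadd x b₀ hx hb₀K, map_add, hf1 b₀ hb₀]
          exact hz2 _ (fun h6 => hx' ((hK'm x).2 ⟨hx, h6⟩))
      · intro a haA haK haK'
        have h6 := ((hK'm a).1 haK').2
        rw [hf1 a (mem_InK.2 ⟨haA, haK⟩)] at h6
        exact one_ne_zero h6
    · right
      refine ⟨hj1', fun b hb hcb => ?_⟩
      exact (hocc' (c S₀)).1 ⟨b, hb, hcb⟩ rfl
  have hlt := H.lt
  rcases Nat.lt_or_ge (Nat.card K) κ with hKκ | hKκ
  · -- case 2
    have h5 : Nat.card (G ⧸ K) < 2 ^ (t + 2) := by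
      have h6 : 91 * κ ≤ 100 * Nat.card K := h91K.trans (Nat.mul_le_mul_left _ hcK)
      have h7 : Nat.card (G ⧸ K) * (91 * κ) ≤ Nat.card (G ⧸ K) * (100 * Nat.card K) :=
        Nat.mul_le_mul_left _ h6
      have h8 : (91 * Nat.card (G ⧸ K)) * κ ≤ (100 * h) * κ := by
        calc (91 * Nat.card (G ⧸ K)) * κ = Nat.card (G ⧸ K) * (91 * κ) := by ring
          _ ≤ Nat.card (G ⧸ K) * (100 * Nat.card K) := h7
          _ = 100 * (Nat.card (G ⧸ K) * Nat.card K) := by ring
          _ = 100 * (h * κ) := by rw [hidx]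
          _ = (100 * h) * κ := by ring
      have h9 := Nat.le_of_mul_le_mul_right h8 hκ0
      have h10 : 2 ^ (t + 2) = 2 * 2 ^ (t + 1) := by ring
      omega
    have h6 : #(X \ W) < t + 2 := (Nat.pow_lt_pow_iff_right (by norm_num)).1 (hpow.trans_lt h5)
    rcases W.eq_empty_or_nonempty with hW0 | hWne
    · exfalso
      have h7 : #W = 0 := by rw [hW0, card_empty]
      omega
    · have h7 := hbeta hrel G A (InK A K₀) W K (t + 4) hE hWX ⟨P, N, hPN, hPNW, hsum⟩ hWm hWne
      have h8 : #(X \ W) + 1 < t + 2 :=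
        (Nat.pow_lt_pow_iff_right (by norm_num)).1 (h7.trans_lt h5)
      rcases step (#(InK A K) + #W - κ) (by omega) (by omega) (by omega) with h9 | ⟨-, h9⟩
      · exact h9
      · exfalso
        obtain ⟨a, haA, haK, ha⟩ := hocc G A K κ h91K hKκ h4 S₀ hS₀K
        exact h9 a (mem_InK.2 ⟨haA, haK⟩) ((hsubc a S₀ haK hS₀K).1 ha)
  · -- case 1
    have h5 : Nat.card (G ⧸ K) ≤ h := by
      have h6 : Nat.card (G ⧸ K) * κ ≤ h * κ := by
        rw [← hidx]
        exact Nat.mul_le_mul_left _ hKκ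
      exact Nat.le_of_mul_le_mul_right h6 hκ0
    have h6 : #(X \ W) < t + 1 :=
      (Nat.pow_lt_pow_iff_right (by norm_num)).1 (hpow.trans_lt (h5.trans_lt hlt))
    rcases W.eq_empty_or_nonempty with hW0 | hWne
    · have h7 : #W = 0 := by rw [hW0, card_empty]
      rcases step (#(InK A K) + #W - κ) (by omega) (by omega) (by omega) with h9 | ⟨h9, h10⟩
      · exact h9
      · exfalso
        have hIc : #(InK A K) = κ + 1 := by omega
        have hz0 : z = 0 := by
          rw [hW0] at hPNW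
          obtain ⟨hP0, hN0⟩ := union_eq_empty.1 hPNW
          rw [hz, hP0, hN0, sum_empty, sub_zero]
        refine hspec (by omega) ⟨K, hKκ, ?_, ?_⟩
        · rw [← hIc]
          refine le_eta (fun x hx => (mem_InK.1 hx).2) ?_
          intro B hB hBc hBd
          -- `B` misses exactly one element
          have h11 : #(InK A K \ B) = 1 := by
            have h12 := card_sdiff_add_card_eq_card hB
            omega
          obtain ⟨b, hb⟩ := card_eq_one.1 h11
          have hbI : b ∈ InK A K := (mem_sdiff.1 (hb ▸ mem_singleton_self b)).1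
          have h13 : ∑ x ∈ B, x = S₀ - b := by
            have h14 := sum_sdiff (f := fun x : G => x) hB
            rw [hb, sum_singleton] at h14
            rw [hS₀, hz0, add_zero, ← h14]
            abel
          rw [h13, hsubc _ _ hS₀K (mem_InK.1 hbI).2] at hBd
          exact h10 b hbI hBd.symm
        · have h11 : #(X \ W) = t := by omega
          rw [← h11]
          refine le_dis_of_lift ?_
          intro P' N' hP' hN' hd hPN'
          have h12 : Rel q (P' ∪ N') := by
            refine ⟨P', N', hd, rfl, ?_⟩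
            have h13 : ∀ S : Finset G, ((∑ x ∈ S, x : G) : G ⧸ K) = ∑ x ∈ S, q x := by
              intro S
              exact map_sum (QuotientAddGroup.mk' K) (fun x => x) S
            rw [← h13, ← h13, ← sub_eq_zero, ← QuotientAddGroup.mk_sub,
              QuotientAddGroup.eq_zero_iff]
            exact hPN'
          exact union_eq_empty.1 (hdis _ (union_subset hP' hN') h12)
    · have h7 := hbeta hrel G A (InK A K₀) W K (t + 4) hE hWX ⟨P, N, hPN, hPNW, hsum⟩ hWm hWne
      have h8 : #(X \ W) + 1 < t + 1 :=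
        (Nat.pow_lt_pow_iff_right (by norm_num)).1 (h7.trans_lt (h5.trans_lt hlt))
      rcases step (#(InK A K) + #W - κ) (by omega) (by omega) (by omega) with h9 | ⟨h9, -⟩
      · exact h9
      · omega

end Pool.Agent.Lib.MP_8ac08c_co.OE
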