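import Pool.Agent.Lib.MP_8ac08c_co.OE.Stm

/-!
# MP_8ac08c_co, groups of even order: piece gap
-/

set_option autoImplicit false

open Finset

namespace Pool.Agent.Lib.MP_8ac08c_co.OE

private theorem gap_pow (t : ℕ) (ht : 250 ≤ t) : 100 * (6 * t + 4) ^ 2 < 2 ^ t := by
  induction t, ht using Nat.le_induction with
  | base => norm_num
  | succ n hn ih =>
    have h1 : (6 * (n + 1) + 4) ^ 2 ≤ 2 * (6 * n + 4) ^ 2 := by nlinarith
    calc 100 * (6 * (n + 1) + 4) ^ 2 ≤ 100 * (2 * (6 * n + 4) ^ 2) := Nat.mul_le_mul_left _ h1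
      _ = 2 * (100 * (6 * n + 4) ^ 2) := by ring
      _ < 2 * 2 ^ n := Nat.mul_lt_mul_of_pos_left ih two_pos
      _ = 2 ^ (n + 1) := by ring

private theorem gap_core (κ h i k : ℕ) (hκ : 0 < κ) (hh : 0 < h) (hd : h ∣ κ)
    (he : k * i = h * κ) (hk : k < κ) (h91 : 91 * κ ≤ 100 * k) :
    91 * κ ≤ 100 * (κ - k) ^ 2 := by
  have hi : 0 < i := by
    rcases Nat.eq_zero_or_pos i with h0 | h0
    · rw [h0, Nat.mul_zero] at he
      have := Nat.mul_pos hh hκ
      omega
    · exact h0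
  obtain ⟨d, i', h', hd0, hcop, hi', hh'⟩ := Nat.exists_coprime' (m := i) (n := h)
    (Nat.gcd_pos_of_pos_left _ hi)
  subst hi' hh'
  have hi'0 : 0 < i' := Nat.pos_of_mul_pos_right hi
  have hh'0 : 0 < h' := Nat.pos_of_mul_pos_right hh
  have he' : k * i' = h' * κ := by
    have h1 : (k * i') * d = (h' * κ) * d := by
      calc (k * i') * d = k * (i' * d) := by ring
        _ = h' * d * κ := he
        _ = (h' * κ) * d := by ring
    exact Nat.eq_of_mul_eq_mul_right hd0 h1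
  have h1 : i' ∣ κ := by
    have h2 : i' ∣ h' * κ := ⟨k, by rw [← he']; ring⟩
    exact hcop.dvd_of_dvd_mul_left h2
  have h2 : h' ∣ κ := (Dvd.intro d rfl).trans hd
  obtain ⟨c, hc⟩ := hcop.mul_dvd_of_dvd_of_dvd h1 h2
  have hc0 : 0 < c := by
    rcases Nat.eq_zero_or_pos c with h0 | h0
    · rw [h0, Nat.mul_zero] at hc
      omega
    · exact h0
  have hk' : k = h' * h' * c := by
    have h3 : k * i' = (h' * h' * c) * i' := by rw [he', hc]; ring
    exact Nat.eq_of_mul_eq_mul_right hi'0 h3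
  have hlt : h' < i' := by
    by_contra h3
    push Not at h3
    have h4 : κ ≤ k := by
      rw [hk', hc]
      exact Nat.mul_le_mul_right c (Nat.mul_le_mul_right h' h3)
    omega
  have h91' : 91 * i' ≤ 100 * h' := by
    have h3 : (91 * i') * (h' * c) ≤ (100 * h') * (h' * c) := by
      calc (91 * i') * (h' * c) = 91 * κ := by rw [hc]; ring
        _ ≤ 100 * k := h91
        _ = (100 * h') * (h' * c) := by rw [hk']; ring
    exact Nat.le_of_mul_le_mul_right h3 (Nat.mul_pos hh'0 hc0)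
  have hsub : h' * c ≤ κ - k := by
    obtain ⟨e, rfl⟩ := Nat.exists_eq_add_of_lt hlt
    have h3 : κ - k = h' * c * (e + 1) := by
      rw [hc, hk']
      have : (h' + e + 1) * h' * c = h' * h' * c + h' * c * (e + 1) := by ring
      rw [this]
      exact Nat.add_sub_cancel_left _ _
    rw [h3]
    exact Nat.le_mul_of_pos_right _ (Nat.succ_pos e)
  calc 91 * κ = (91 * i') * (h' * c) := by rw [hc]; ring
    _ ≤ (100 * h') * (h' * c) := Nat.mul_le_mul_right _ h91'
    _ = 100 * ((h' * h') * (c * 1)) := by ring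
    _ ≤ 100 * ((h' * h') * (c * c)) := by
        exact Nat.mul_le_mul_left _ (Nat.mul_le_mul_left _ (Nat.mul_le_mul_left _ hc0))
    _ = 100 * (h' * c) ^ 2 := by ring
    _ ≤ 100 * (κ - k) ^ 2 := Nat.mul_le_mul_left _ (Nat.pow_le_pow_left hsub 2)

theorem p_gap : S_gap := by
  intro κ h i k t hκ hh hd he hk h91 ht
  have hκ0 : 0 < κ := lt_of_lt_of_le (by positivity) hκ
  have h1 := gap_core κ h i k hκ0 hh hd he hk h91
  by_contra h2
  push Not at h2
  have h3 : 100 * (κ - k) ^ 2 ≤ 100 * (6 * t + 4) ^ 2 :=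
    Nat.mul_le_mul_left _ (Nat.pow_le_pow_left h2 2)
  have h4 : h ≤ κ := Nat.le_of_dvd hκ0 hd
  rcases le_or_gt t 250 with h5 | h5
  · have h6 : 100 * (6 * t + 4) ^ 2 ≤ 100 * (6 * 250 + 4) ^ 2 :=
      Nat.mul_le_mul_left _ (Nat.pow_le_pow_left (by omega) 2)
    have h7 : 100 * (6 * 250 + 4) ^ 2 < 2 ^ 28 := by norm_num
    have h8 : 2 ^ 28 ≤ 2 ^ 500 := Nat.pow_le_pow_right two_pos (by norm_num)
    have h9 := h7.trans_le h8
    generalize 2 ^ 500 = z at hκ h9
    omega
  · have h6 := gap_pow t h5.le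
    omega

end Pool.Agent.Lib.MP_8ac08c_co.OE
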