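import Pool.Agent.Lib.MP_8ac08c_co.OE.Stm

/-!
# The inverse theorem (assembly), for the sums `FS`
-/

set_option autoImplicit false
set_option exponentiation.threshold 600

open Finset

namespace Pool.Agent.Lib.MP_8ac08c_co.OE

open Pool.Agent.Lib.MP_8ac08c_co Pool.Agent.Lib.MP_8ac08c_co.OD

private lemma inv2_sdiff {Γ : Type} [DecidableEq Γ] (Z U : Finset Γ) : #(Z \ (Z \ U)) ≤ #U := by
  apply card_le_card
  intro x hx
  rw [mem_sdiff, mem_sdiff, not_and_or, not_not] at hx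
  rcases hx.2 with h | h
  · exact absurd hx.1 h
  · exact h

private lemma inv2_sdiff2 {Γ : Type} [DecidableEq Γ] (Z U Z' : Finset Γ) :
    #(Z \ Z') ≤ #U + #((Z \ U) \ Z') := by
  refine (card_le_card ?_).trans (card_union_le U ((Z \ U) \ Z'))
  intro x hx
  rw [mem_sdiff] at hx
  rw [mem_union, mem_sdiff, mem_sdiff]
  by_cases h : x ∈ U
  · exact Or.inl h
  · exact Or.inr ⟨⟨hx.1, h⟩, hx.2⟩

private lemma inv2_card {Γ ι : Type} [DecidableEq Γ] [DecidableEq ι] (f : ι → Γ) (Z V : Finset ι)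
    (hV : V ⊆ Z) (hf : ∀ v, #(Z.filter fun a => f a = v) ≤ 4) : #V ≤ 4 * #(V.image f) := by
  apply card_le_mul_card_image
  intro b _
  exact (card_le_card (filter_subset_filter _ hV)).trans (hf b)

private lemma inv2_add {Γ ι : Type} [AddCommGroup Γ] [DecidableEq Γ] [DecidableEq ι] (f : ι → Γ)
    (U₁ U₂ : Finset ι) (hd : Disjoint U₁ U₂) (a b : Γ) (ha : a ∈ FS f U₁) (hb : b ∈ FS f U₂) :
    a + b ∈ FS f (U₁ ∪ U₂) := by
  unfold FS at ha hb ⊢
  rw [mem_image] at ha hb ⊢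
  obtain ⟨P, hP, rfl⟩ := ha
  obtain ⟨Q, hQ, rfl⟩ := hb
  rw [mem_powerset] at hP hQ
  refine ⟨P ∪ Q, mem_powerset.2 (union_subset_union hP hQ), ?_⟩
  rw [sum_union (Disjoint.mono hP hQ hd)]

theorem p_inv2 : S_inv2 := by
  intro hols hst hpar hfou hchr hlin hcc Γ ι _ _ _ _ f κ _ Z hκ100 hΓκ hexp hfib hZ hrob
  have h1213 : (2 : ℕ) ^ 13 = 2 * 2 ^ 12 := by norm_num
  have hfib' : ∀ V ⊆ Z, ∀ v, #(V.filter fun a => f a = v) ≤ 4 := fun V hV v =>
    (card_le_card (filter_subset_filter _ hV)).trans (hfib v)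
  obtain ⟨U₁, hU1Z, hU1c, hU1d, hU1g⟩ := hst hols Γ ι f κ Z hκ100 hΓκ hfib
    (fun Z' hZ' hc => hrob Z' hZ' (by rw [h1213] at hc; nlinarith)) (by omega)
  have hZ1 : #Z ≤ #(Z \ U₁) + #U₁ := by
    have := card_sdiff_add_card_inter Z U₁
    have h2 : #(Z ∩ U₁) ≤ #U₁ := card_le_card inter_subset_right
    omega
  -- the second alternative for a large set `V`
  have key : ∀ V ⊆ Z, ∀ U : Finset ι, 2 ^ 12 * #(Z \ V) ≤ κ →
      2 * #(FS f U) ≤ Fintype.card Γ → Fintype.card Γ ≤ 2 ^ 23 * #(FS f U) →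
      (∀ a ∈ V, κ * bd (FS f U) (f a) ≤ 2 ^ 14 * Fintype.card Γ) →
      ∃ ψ : Γ →+ ZMod κ, ψ ≠ 0 ∧ ∃ V ⊆ Z, 2 ^ 12 * #(Z \ V) ≤ κ ∧
        ∀ a ∈ V, (ψ (f a)).valMinAbs.natAbs ≤ 2 ^ 85 := by
    intro V hV U hc h1 h2 h3
    have h4 : #Z ≤ #V + #(Z \ V) := by
      have := card_sdiff_add_card_eq_card hV
      omega
    have h5 := inv2_card f Z V hV hfib
    obtain ⟨ψ, hψ, hψa⟩ := hcc hpar hfou hchr hlin Γ κ (V.image f) (FS f U) hκ100 hΓκ hexp h1 h2
      (by rw [coe_image]; exact hrob V hV hc) (by omega) (by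
        intro x hx
        rw [mem_image] at hx
        obtain ⟨a, ha, rfl⟩ := hx
        exact h3 a ha)
    exact ⟨ψ, hψ, V, hV, hc, fun a ha => hψa _ (mem_image_of_mem f ha)⟩
  by_cases h1 : 2 * #(FS f U₁) ≤ Fintype.card Γ
  · right
    refine key (Z \ U₁) sdiff_subset U₁ ?_ h1 hU1d hU1g
    have := inv2_sdiff Z U₁
    omega
  · obtain ⟨U₂, hU2Z, hU2c, hU2d, hU2g⟩ := hst hols Γ ι f κ (Z \ U₁) hκ100 hΓκ
      (hfib' _ sdiff_subset)
      (fun Z' hZ' hc => hrob Z' (hZ'.trans sdiff_subset) (by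
        have := inv2_sdiff2 Z U₁ Z'
        omega)) (by omega)
    have hU2Z' : U₂ ⊆ Z := hU2Z.trans sdiff_subset
    have hcV : #(Z \ ((Z \ U₁) \ U₂)) ≤ #U₁ + #U₂ := by
      refine (inv2_sdiff2 Z U₁ _).trans ?_
      have := inv2_sdiff (Z \ U₁) U₂
      omega
    have hVZ : (Z \ U₁) \ U₂ ⊆ Z := sdiff_subset.trans sdiff_subset
    by_cases h2 : 2 * #(FS f U₂) ≤ Fintype.card Γ
    · right
      exact key ((Z \ U₁) \ U₂) hVZ U₂ (by omega) h2 hU2d hU2g
    · left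
      have hdis : Disjoint U₁ U₂ := by
        rw [disjoint_left]
        intro x hx hx2
        exact (mem_sdiff.mp (hU2Z hx2)).2 hx
      refine ⟨U₁ ∪ U₂, union_subset hU1Z hU2Z', ?_, ?_⟩
      · rw [card_union_of_disjoint hdis]
        omega
      · intro z
        have hc : #((FS f U₂).image fun b => z - b) = #(FS f U₂) :=
          card_image_of_injective _ sub_right_injective
        have hne : (FS f U₁ ∩ ((FS f U₂).image fun b => z - b)).Nonempty := by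
          apply inter_nonempty_of_card_lt_card_add_card (subset_univ _) (subset_univ _)
          rw [hc, card_univ]
          omega
        obtain ⟨x, hx⟩ := hne
        rw [mem_inter, mem_image] at hx
        obtain ⟨hx1, b, hb, hbx⟩ := hx
        have h5 := inv2_add f U₁ U₂ hdis x b hx1 hb
        rw [← hbx, sub_add_cancel] at h5
        exact h5

end Pool.Agent.Lib.MP_8ac08c_co.OE
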