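import Pool.Agent.Lib.MP_8ac08c_co.OE.Stm

set_option autoImplicit false
set_option exponentiation.threshold 600

open Finset

namespace Pool.Agent.Lib.MP_8ac08c_co.OE

open Pool.Agent.Lib.MP_8ac08c_co Pool.Agent.Lib.MP_8ac08c_co.OD

private theorem ivh2_card {κ : ℕ} [NeZero κ] {Γ : Type} [AddCommGroup Γ] [Finite Γ]
    (φ : Γ →+ ZMod κ) (a : Γ) (ha : φ a ≠ 0) (hw : (φ a).valMinAbs.natAbs ≤ 2 ^ 85)
    (hc : Nat.card Γ ≤ κ ^ 2) : Nat.card φ.ker ≤ 2 ^ 85 * κ := by
  have hκ : 0 < κ := Nat.pos_of_ne_zero (NeZero.ne κ)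
  have h1 : Nat.card φ.ker * Nat.card φ.range = Nat.card Γ := by
    rw [← AddSubgroup.card_mul_index φ.ker, AddSubgroup.index_ker]
  have h2 : addOrderOf (φ a) ≤ Nat.card φ.range := by
    rw [← Nat.card_zmultiples]
    have : AddSubgroup.zmultiples (φ a) ≤ φ.range := by
      rw [AddSubgroup.zmultiples_le]
      exact ⟨a, rfl⟩
    exact Nat.le_of_dvd Nat.card_pos (AddSubgroup.card_dvd_of_le this)
  have h3 : κ ≤ addOrderOf (φ a) * (φ a).valMinAbs.natAbs := by
    have h4 : ((addOrderOf (φ a) * (φ a).valMinAbs : ℤ) : ZMod κ) = 0 := by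
      push_cast
      rw [← nsmul_eq_mul, addOrderOf_nsmul_eq_zero]
    rw [ZMod.intCast_zmod_eq_zero_iff_dvd] at h4
    have h5 : (addOrderOf (φ a) * (φ a).valMinAbs : ℤ) ≠ 0 := by
      apply mul_ne_zero
      · exact_mod_cast (addOrderOf_pos (φ a)).ne'
      · rw [Ne, ZMod.valMinAbs_eq_zero]
        exact ha
    have h6 := Int.natAbs_le_of_dvd_ne_zero h4 h5
    rw [Int.natAbs_mul, Int.natAbs_natCast, Int.natAbs_natCast] at h6
    exact h6
  have h7 : κ ≤ Nat.card φ.range * 2 ^ 85 := h3.trans (Nat.mul_le_mul h2 hw)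
  have h8 : Nat.card φ.ker * κ ≤ (2 ^ 85 * κ) * κ := by
    calc Nat.card φ.ker * κ ≤ Nat.card φ.ker * (Nat.card φ.range * 2 ^ 85) :=
          Nat.mul_le_mul_left _ h7
      _ = Nat.card Γ * 2 ^ 85 := by rw [← h1]; ring
      _ ≤ κ ^ 2 * 2 ^ 85 := Nat.mul_le_mul_right _ hc
      _ = (2 ^ 85 * κ) * κ := by ring
  exact Nat.le_of_mul_le_mul_right h8 hκ

/-- the doubling homomorphism -/
private def ivh2_d {G : Type} [AddCommGroup G] (H : AddSubgroup G) : H →+ dbl H where
  toFun h := ⟨(h : G) + h, add_self_mem_dbl h.2⟩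
  map_zero' := by
    apply Subtype.ext
    simp
  map_add' x y := by
    apply Subtype.ext
    simp only [AddSubgroup.coe_add]
    abel

private theorem ivh2_d_val {G : Type} [AddCommGroup G] (H : AddSubgroup G) (h : H) :
    ((ivh2_d H h : dbl H) : G) = (h : G) + h := rfl

private theorem ivh2_d_surj {G : Type} [AddCommGroup G] (H : AddSubgroup G) (y : dbl H) :
    ∃ h : H, ivh2_d H h = y := by
  obtain ⟨k, hk, hy⟩ := mem_dbl.1 y.2
  exact ⟨⟨k, hk⟩, Subtype.ext hy.symm⟩

theorem p_ivh2 : S_ivh2 := by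
  intro hinv G _ _ _ κ H Z hκ hH hexp h4 hZ hZH hrob
  classical
  have hκ0 : κ ≠ 0 := by
    rintro rfl
    have : (0 : ℕ) < 2 ^ 100 := by positivity
    omega
  have : NeZero κ := ⟨hκ0⟩
  have : Fintype H := Fintype.ofFinite H
  have : Fintype (dbl H) := Fintype.ofFinite (dbl H)
  set d := ivh2_d H with hd
  set g : G → H := fun a => if h : a ∈ H then ⟨a, h⟩ else 0 with hg
  have hgv : ∀ a ∈ H, (g a : G) = a := by
    intro a ha
    rw [hg]
    simp only
    rw [dif_pos ha]
  have hgH : ∀ x : H, g x = x := fun x => Subtype.ext (hgv x x.2)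
  set f : G → dbl H := fun a => d (g a) with hf
  have hfv : ∀ a ∈ H, ((f a : dbl H) : G) = a + a := by
    intro a ha
    rw [hf]
    simp only
    rw [hd, ivh2_d_val, hgv a ha]
  have hrob' : ∀ W ⊆ Z, 2 ^ 12 * #(Z \ W) ≤ κ →
      AddSubgroup.closure (f '' (W : Set G)) = ⊤ := by
    intro W hW hc
    have h1 := hrob W hW hc
    set K := AddSubgroup.closure (f '' (W : Set G)) with hK
    have h2 : AddSubgroup.closure (W : Set G) ≤ (K.comap d).map H.subtype := by
      rw [AddSubgroup.closure_le]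
      intro a ha
      have haH : a ∈ H := hZH a (hW ha)
      have h3 : g a ∈ K.comap d := by
        rw [AddSubgroup.mem_comap]
        exact AddSubgroup.subset_closure ⟨a, ha, rfl⟩
      exact ⟨g a, h3, hgv a haH⟩
    rw [h1] at h2
    rw [eq_top_iff]
    intro y _
    obtain ⟨x, rfl⟩ := ivh2_d_surj H y
    obtain ⟨x', hx', hxx⟩ := h2 x.2
    have h4 : x' = x := Subtype.ext hxx
    rw [h4] at hx'
    exact hx'
  have hcD : Fintype.card (dbl H) ≤ κ ^ 2 := by
    rw [← Nat.card_eq_fintype_card]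
    exact (Nat.le_of_dvd Nat.card_pos (AddSubgroup.card_dvd_of_le (dbl_le H))).trans hH
  have hexp' : ∀ x : dbl H, κ • x = 0 := by
    intro x
    apply Subtype.ext
    have := hexp x
    simpa using this
  have hfib : ∀ v, #(Z.filter fun a => f a = v) ≤ 4 := by
    intro v
    rcases (Z.filter fun a => f a = v).eq_empty_or_nonempty with h | ⟨b, hb⟩
    · rw [h]
      simp
    · rw [mem_filter] at hb
      refine le_trans ?_ h4
      apply card_le_card_of_injOn (fun a => a - b)
      · intro a ha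
        have ha' : a ∈ Z.filter fun a => f a = v := ha
        rw [mem_filter] at ha'
        have h5 : a + a = b + b := by
          rw [← hfv a (hZH a ha'.1), ← hfv b (hZH b hb.1), ha'.2, hb.2]
        have h6 : (a - b) + (a - b) = 0 := by
          have : (a - b) + (a - b) = (a + a) - (b + b) := by abel
          rw [this, h5, sub_self]
        have h7 : a - b ∈ univ.filter fun x : G => x + x = 0 := mem_filter.2 ⟨mem_univ _, h6⟩
        exact h7
      · intro a _ a' _ h
        exact sub_left_injective h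
  rcases hinv (dbl H) G f κ Z hκ hcD hexp' hfib hZ hrob' with
    ⟨R, hR, hRc, hRz⟩ | ⟨ψ, hψ, V, hV, hVc, hVw⟩
  · left
    refine ⟨R, hR, hRc, -∑ x ∈ R, x, ?_, ?_⟩
    · rw [mem_SG]
      exact ⟨∅, empty_subset _, by simp⟩
    · intro z hz
      have h1 := hRz ⟨z, hz⟩
      unfold FS at h1
      rw [mem_image] at h1
      obtain ⟨P, hP, h2⟩ := h1
      rw [mem_powerset] at hP
      rw [mem_SG]
      refine ⟨P, hP, ?_⟩
      have h3 : ((∑ x ∈ P, f x : dbl H) : G) = z := by rw [h2]
      rw [AddSubgroup.val_finsetSum] at h3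
      have h5 : ∑ x ∈ P, ((f x : dbl H) : G) = ∑ x ∈ P, x + ∑ x ∈ P, x := by
        rw [← sum_add_distrib]
        apply sum_congr rfl
        intro x hx
        exact hfv x (hZH x (hR (hP hx)))
      rw [← h3, h5]
      abel
  · right
    set φ : H →+ ZMod κ := ψ.comp d with hφ
    have hφg : ∀ a, φ (g a) = ψ (f a) := fun a => rfl
    refine ⟨V, φ.ker.map H.subtype, fun a => (ψ (f a)).valMinAbs, hV, hVc, hVw, ?_, ?_⟩
    · intro n hn
      rw [AddSubgroup.mem_map]
      refine ⟨∑ x ∈ V, n x • g x, ?_, ?_⟩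
      · rw [AddMonoidHom.mem_ker, map_sum]
        have h1 : ((∑ x ∈ V, n x * (ψ (f x)).valMinAbs : ℤ) : ZMod κ) = 0 := by
          rw [hn]
          simp
        rw [← h1, Int.cast_sum]
        apply sum_congr rfl
        intro x _
        rw [map_zsmul, hφg, Int.cast_mul, ZMod.coe_valMinAbs, zsmul_eq_mul]
      · rw [map_sum]
        apply sum_congr rfl
        intro x hx
        rw [map_zsmul]
        congr 1
        exact hgv x (hZH x (hV hx))
    · have h1 : Nat.card (φ.ker.map H.subtype) = Nat.card φ.ker :=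
        (Nat.card_congr (AddSubgroup.equivMapOfInjective _ _ H.subtype_injective).toEquiv).symm
      rw [h1]
      have hcl := hrob' V hV hVc
      obtain ⟨a, haV, ha⟩ : ∃ a ∈ V, ψ (f a) ≠ 0 := by
        by_contra hcon
        push Not at hcon
        apply hψ
        have h2 : AddSubgroup.closure (f '' (V : Set G)) ≤ ψ.ker := by
          rw [AddSubgroup.closure_le]
          rintro _ ⟨x, hx, rfl⟩
          exact hcon x hx
        rw [hcl] at h2
        ext x
        exact h2 (AddSubgroup.mem_top x)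
      exact ivh2_card φ (g a) (by rw [hφg]; exact ha) (by rw [hφg]; exact hVw a haV) hH

end Pool.Agent.Lib.MP_8ac08c_co.OE
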