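import Pool.Agent.Lib.MP_8ac08c_co.OE.Stm

set_option autoImplicit false

open Finset

namespace Pool.Agent.Lib.MP_8ac08c_co.OE

open Pool.Agent.Lib.MP_8ac08c_co Pool.Agent.Lib.MP_8ac08c_co.OD

private lemma lin2_bd_smul {Γ : Type} [AddCommGroup Γ] [Fintype Γ] [DecidableEq Γ] (S : Finset Γ)
    (x : Γ) (m : ℕ) : bd S (m • x) ≤ m * bd S x := by
  induction m with
  | zero => simp [bd]
  | succ k ih =>
    rw [succ_nsmul]
    have h := bd_add S (k • x) x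
    have h2 : (k + 1) * bd S x = k * bd S x + bd S x := by ring
    rw [h2]
    omega

private lemma lin2_m (κ W : ℕ) (_hκ : 1 ≤ κ) (hW : 0 < W) (hW2 : 2 * W ≤ κ) :
    ∃ m : ℕ, 1 ≤ m ∧ κ ≤ 4 * (m * W) ∧ 2 * (m * W) ≤ κ ∧ 4 * (m * W) < κ + 4 * W := by
  have h4 : 0 < 4 * W := by omega
  refine ⟨(κ + (4 * W - 1)) / (4 * W), ?_, ?_, ?_, ?_⟩
  · rw [Nat.le_div_iff_mul_le h4]
    omega
  · have h := Nat.lt_div_mul_add (a := κ + (4 * W - 1)) h4
    have e : 4 * ((κ + (4 * W - 1)) / (4 * W) * W) = (κ + (4 * W - 1)) / (4 * W) * (4 * W) := by ring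
    rw [e]
    omega
  · have h := Nat.div_mul_le_self (κ + (4 * W - 1)) (4 * W)
    have e : 4 * ((κ + (4 * W - 1)) / (4 * W) * W) = (κ + (4 * W - 1)) / (4 * W) * (4 * W) := by ring
    by_cases h1 : (κ + (4 * W - 1)) / (4 * W) ≤ 1
    · have : (κ + (4 * W - 1)) / (4 * W) * W ≤ 1 * W := Nat.mul_le_mul_right W h1
      omega
    · have h2 : 2 * W ≤ (κ + (4 * W - 1)) / (4 * W) * W := Nat.mul_le_mul_right W (by omega)
      omega
  · have h := Nat.div_mul_le_self (κ + (4 * W - 1)) (4 * W)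
    have e : 4 * ((κ + (4 * W - 1)) / (4 * W) * W) = (κ + (4 * W - 1)) / (4 * W) * (4 * W) := by ring
    rw [e]
    omega

theorem p_lin2 : S_lin2 := by
  intro hpar Γ _ _ _ κ _ S ψ x hκ hbig hbd
  set W := (ψ x).valMinAbs.natAbs with hWdef
  by_cases hW0 : W = 0
  · rw [hW0]; positivity
  have hWpos : 0 < W := Nat.pos_of_ne_zero hW0
  have hW2 : 2 * W ≤ κ := by
    have := ZMod.natAbs_valMinAbs_le (ψ x)
    omega
  have hκ1 : 1 ≤ κ := le_trans (Nat.one_le_two_pow) hκ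
  obtain ⟨m, hm1, hm2, hm3, hm4⟩ := lin2_m κ W hκ1 hWpos hW2
  have hκR : (0 : ℝ) < κ := by exact_mod_cast hκ1
  -- the character
  let χ : AddChar Γ ℂ := (ZMod.stdAddChar (N := κ)).compAddMonoidHom ψ
  have hχ : ∀ y, χ y = ZMod.stdAddChar (ψ y) := fun y => rfl
  have hre : (χ (m • x)).re ≤ 0 := by
    have h1 : ψ (m • x) = (((m : ℤ) * (ψ x).valMinAbs : ℤ) : ZMod κ) := by
      push_cast
      rw [map_nsmul, nsmul_eq_mul]
    rw [hχ, h1, ZMod.stdAddChar_coe]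
    have h2 : (2 * (Real.pi : ℂ) * Complex.I * (((m : ℤ) * (ψ x).valMinAbs : ℤ) : ℂ) / (κ : ℂ)) =
        ((2 * Real.pi * ((m : ℝ) * ((ψ x).valMinAbs : ℝ)) / κ : ℝ) : ℂ) * Complex.I := by
      push_cast
      ring
    rw [h2, Complex.exp_ofReal_mul_I_re]
    have h3 : Real.cos (2 * Real.pi * ((m : ℝ) * ((ψ x).valMinAbs : ℝ)) / κ) =
        Real.cos (2 * Real.pi * ((m : ℝ) * (W : ℝ)) / κ) := by
      have hW' : (W : ℝ) = |((ψ x).valMinAbs : ℝ)| := by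
        rw [hWdef, Nat.cast_natAbs, Int.cast_abs]
      rw [hW', ← Real.cos_abs (2 * Real.pi * ((m : ℝ) * ((ψ x).valMinAbs : ℝ)) / κ)]
      congr 1
      rw [abs_div, abs_mul (2 * Real.pi), abs_mul (m : ℝ),
        abs_of_pos (by positivity : (0 : ℝ) < 2 * Real.pi),
        abs_of_nonneg (by positivity : (0 : ℝ) ≤ (m : ℝ)), abs_of_pos hκR]
    rw [h3]
    have hm2R : (κ : ℝ) ≤ 4 * ((m : ℝ) * W) := by exact_mod_cast hm2
    have hm3R : 2 * ((m : ℝ) * W) ≤ κ := by exact_mod_cast hm3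
    apply Real.cos_nonpos_of_pi_div_two_le_of_le
    · rw [le_div_iff₀ hκR]
      nlinarith [Real.pi_pos]
    · rw [div_le_iff₀ hκR]
      nlinarith [Real.pi_pos]
  have hN : (0 : ℝ) < Fintype.card Γ := by
    have : 0 < Fintype.card Γ := Fintype.card_pos
    exact_mod_cast this
  have hsum := (hpar Γ S).1 (m • x)
  have hterm : ‖∑ s ∈ S, χ s‖ ^ 2 * (1 - (χ (m • x)).re) ≤
      ∑ χ : AddChar Γ ℂ, ‖∑ s ∈ S, χ s‖ ^ 2 * (1 - (χ (m • x)).re) := by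
    apply Finset.single_le_sum (f := fun χ : AddChar Γ ℂ =>
      ‖∑ s ∈ S, χ s‖ ^ 2 * (1 - (χ (m • x)).re)) _ (Finset.mem_univ χ)
    intro χ' _
    apply mul_nonneg (by positivity)
    have h1 : (χ' (m • x)).re ≤ ‖χ' (m • x)‖ := Complex.re_le_norm _
    rw [AddChar.norm_apply] at h1
    linarith
  have hbig' : (Fintype.card Γ : ℝ) ^ 2 / 2 ^ 72 ≤ ‖∑ s ∈ S, χ s‖ ^ 2 := hbig
  have h1 : (Fintype.card Γ : ℝ) ^ 2 / 2 ^ 72 ≤ (Fintype.card Γ : ℝ) * bd S (m • x) := by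
    rw [hsum]
    refine le_trans hbig' (le_trans ?_ hterm)
    have : 0 ≤ ‖∑ s ∈ S, χ s‖ ^ 2 := by positivity
    nlinarith
  have h2 : (bd S (m • x) : ℝ) ≤ m * bd S x := by exact_mod_cast lin2_bd_smul S x m
  have h3 : (Fintype.card Γ : ℝ) / 2 ^ 72 ≤ m * bd S x := by
    have : (Fintype.card Γ : ℝ) * ((Fintype.card Γ : ℝ) / 2 ^ 72) ≤
        (Fintype.card Γ : ℝ) * (m * bd S x) := by
      calc (Fintype.card Γ : ℝ) * ((Fintype.card Γ : ℝ) / 2 ^ 72)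
          = (Fintype.card Γ : ℝ) ^ 2 / 2 ^ 72 := by ring
        _ ≤ (Fintype.card Γ : ℝ) * bd S (m • x) := h1
        _ ≤ _ := by exact mul_le_mul_of_nonneg_left h2 hN.le
    exact le_of_mul_le_mul_left this hN
  have h4 : (κ : ℝ) * bd S x ≤ 2 ^ 14 * Fintype.card Γ := by exact_mod_cast hbd
  have hm0 : (0 : ℝ) ≤ m := by positivity
  have h5 : (κ : ℝ) ≤ 2 ^ 86 * m := by
    have e1 : (κ : ℝ) * ((Fintype.card Γ : ℝ) / 2 ^ 72) ≤ κ * (m * bd S x) :=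
      mul_le_mul_of_nonneg_left h3 hκR.le
    have e2 : (κ : ℝ) * (m * bd S x) ≤ m * (2 ^ 14 * Fintype.card Γ) := by
      calc (κ : ℝ) * (m * bd S x) = m * (κ * bd S x) := by ring
        _ ≤ _ := mul_le_mul_of_nonneg_left h4 hm0
    have e3 : (Fintype.card Γ : ℝ) * κ ≤ (Fintype.card Γ : ℝ) * (2 ^ 86 * m) := by
      have := le_trans e1 e2
      have e4 : (κ : ℝ) * ((Fintype.card Γ : ℝ) / 2 ^ 72) * 2 ^ 72 ≤
        m * (2 ^ 14 * Fintype.card Γ) * 2 ^ 72 := mul_le_mul_of_nonneg_right this (by positivity)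
      calc (Fintype.card Γ : ℝ) * κ = (κ : ℝ) * ((Fintype.card Γ : ℝ) / 2 ^ 72) * 2 ^ 72 := by
            field_simp
        _ ≤ _ := e4
        _ = _ := by ring
    exact le_of_mul_le_mul_left e3 hN
  have h5N : κ ≤ 2 ^ 86 * m := by exact_mod_cast h5
  -- conclusion
  by_contra hcon
  push Not at hcon
  have hW77 : 2 ^ 85 ≤ W := le_of_lt hcon
  -- 4 m W < κ + 4 W , m ≥ 2
  have hm2' : 2 ≤ m := by
    by_contra hlt
    have : m ≤ 1 := by omega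
    have : 2 ^ 86 * m ≤ 2 ^ 86 * 1 := Nat.mul_le_mul_left _ this
    omega
  obtain ⟨k, rfl⟩ : ∃ k, m = k + 1 := ⟨m - 1, by omega⟩
  have h6 : 4 * (k * W) < κ := by
    have e : (k + 1) * W = k * W + W := by ring
    rw [e] at hm4
    omega
  have h7 : κ ≤ 2 ^ 87 * k := by
    have : 2 ^ 86 * (k + 1) ≤ 2 ^ 86 * (2 * k) := Nat.mul_le_mul_left _ (by omega)
    have e : 2 ^ 86 * (2 * k) = 2 ^ 87 * k := by ring
    omega
  have h8 : k * 2 ^ 85 ≤ k * W := Nat.mul_le_mul_left _ hW77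
  have e : 2 ^ 87 * k = 4 * (k * 2 ^ 85) := by ring
  omega

end Pool.Agent.Lib.MP_8ac08c_co.OE
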