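import Pool.Agent.Lib.MP_8ac08c_co.OE.Stm
import Pool.Agent.Lib.MP_8ac08c_co.Explicit

/-! Piece `low4` of project OE: a subgroup of order `2 κ`. -/

set_option autoImplicit false

open Finset

namespace Pool.Agent.Lib.MP_8ac08c_co.OE

open Pool.Agent.Lib.MP_8ac08c_co Pool.Agent.Lib.MP_8ac08c_co.OD

/-- a surjection on the cyclic group of order the exponent -/
private theorem low4_surj (hchr : S_chr) (G : Type) [AddCommGroup G] [Finite G] (κ : ℕ)
    (hκ : κ = AddMonoid.exponent G) (hpos : 0 < κ) :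
    ∃ ψ : G →+ ZMod κ, Function.Surjective ψ := by
  have _ : NeZero κ := ⟨hpos.ne'⟩
  have hkill : ∀ x : G, κ • x = 0 := fun x => by rw [hκ]; exact AddMonoid.exponent_nsmul_eq_zero x
  -- all characters have order dividing the exponent `n`
  have hex : Monoid.ExponentExists (AddChar G ℂ) := by
    refine ⟨κ, hpos, fun χ => ?_⟩
    ext x
    rw [AddChar.pow_apply, AddChar.one_apply, ← AddChar.map_nsmul_eq_pow, hkill,
      AddChar.map_zero_eq_one]
  obtain ⟨χ, hχ⟩ := Monoid.exists_orderOf_eq_exponent hex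
  have hn0 : 0 < Monoid.exponent (AddChar G ℂ) := hex.exponent_pos
  have hdvd : κ ∣ orderOf χ := by
    rw [hκ, hχ]
    apply AddMonoid.exponent_dvd_of_forall_nsmul_eq_zero
    intro x
    rw [← AddChar.forall_apply_eq_zero (α := G)]
    intro χ'
    rw [AddChar.map_nsmul_eq_pow, ← AddChar.pow_apply, Monoid.pow_exponent_eq_one,
      AddChar.one_apply]
  obtain ⟨ψ, hψ⟩ := hchr G κ hkill χ
  refine ⟨ψ, ?_⟩
  rw [← AddMonoidHom.range_eq_top]
  have hr : ∀ x, Nat.card ψ.range • ψ x = 0 := by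
    intro x
    have h1 : Nat.card ψ.range • (⟨ψ x, ⟨x, rfl⟩⟩ : ψ.range) = 0 := card_nsmul_eq_zero'
    have h2 := congrArg (fun y : ψ.range => (y : ZMod κ)) h1
    simpa using h2
  have hχr : χ ^ Nat.card ψ.range = 1 := by
    ext x
    rw [AddChar.pow_apply, AddChar.one_apply, hψ, ← AddChar.map_nsmul_eq_pow, hr,
      AddChar.map_zero_eq_one]
  have h3 : κ ∣ Nat.card ψ.range := hdvd.trans (orderOf_dvd_of_pow_eq_one hχr)
  have h4 : Nat.card (ZMod κ) = κ := Nat.card_zmod κ
  have h5 : 0 < Nat.card ψ.range := Nat.card_pos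
  apply AddSubgroup.eq_top_of_le_card
  rw [h4]
  exact Nat.le_of_dvd h5 h3

private theorem low4_two (κ : ℕ) (hpos : 0 < κ) (z : ZMod κ) (hz : z + z = 0) :
    z = 0 ∨ (Even κ ∧ z = ((κ / 2 : ℕ) : ZMod κ)) := by
  have _ : NeZero κ := ⟨hpos.ne'⟩
  have h1 : -z = z := neg_eq_of_add_eq_zero_left hz
  rcases (ZMod.neg_eq_self_iff z).1 h1 with h | h
  · exact Or.inl h
  · right
    refine ⟨⟨z.val, by omega⟩, ?_⟩
    have h2 : κ / 2 = z.val := by omega
    rw [h2, ZMod.natCast_zmod_val]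

private theorem low4_index (G : Type) [AddCommGroup G] [Finite G] (d : ℕ) (_hd : 0 < d)
    (φ : G →+ ZMod d) (hφ : Function.Surjective φ) : Nat.card φ.ker * d = Nat.card G := by
  have h1 := AddSubgroup.card_mul_index φ.ker
  have h2 : φ.ker.index = d := by
    rw [AddSubgroup.index_ker, AddMonoidHom.range_eq_top.2 hφ]
    rw [Nat.card_congr (Equiv.refl _)]
    simp
  rwa [h2] at h1

/-- [OE low4] -/
theorem p_low4 : S_low4 := by
  intro hchr G _ _ _ h hcard hdvd hfour
  obtain ⟨κ, hκ⟩ : ∃ κ, κ = AddMonoid.exponent G := ⟨_, rfl⟩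
  rw [← hκ] at hcard hdvd ⊢
  have hGpos : 0 < Nat.card G := Nat.card_pos
  have hκpos : 0 < κ := by
    rcases Nat.eq_zero_or_pos κ with h0 | h0
    · rw [h0, mul_zero] at hcard
      omega
    · exact h0
  have hhpos : 0 < h := Nat.pos_of_dvd_of_pos hdvd hκpos
  obtain ⟨ψ, hψ⟩ := low4_surj hchr G κ hκ hκpos
  have heven : Even h := by
    rw [← Nat.not_odd_iff_even]
    intro hodd
    have hk : Nat.card ψ.ker = h := by
      have h1 := low4_index G κ hκpos ψ hψ
      rw [hcard] at h1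
      exact Nat.eq_of_mul_eq_mul_right hκpos h1
    have hinj : Set.InjOn ψ (univ.filter fun x : G => x + x = 0 : Finset G) := by
      intro x hx y hy hxy
      rw [mem_coe, mem_filter] at hx hy
      have hm : x - y ∈ ψ.ker := by
        rw [AddMonoidHom.mem_ker, map_sub, hxy, sub_self]
      have h2 : Nat.card ψ.ker • (⟨x - y, hm⟩ : ψ.ker) = 0 := card_nsmul_eq_zero'
      have h3 : h • (x - y) = 0 := by
        rw [hk] at h2
        have h4 := congrArg (fun z : ψ.ker => (z : G)) h2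
        simpa using h4
      have h5 : 2 • (x - y) = 0 := by
        rw [two_nsmul]
        have : x - y + (x - y) = (x + x) - (y + y) := by abel
        rw [this, hx.2, hy.2, sub_zero]
      obtain ⟨m, hm⟩ := hodd
      rw [hm, add_nsmul, mul_comm, mul_nsmul', h5, nsmul_zero, zero_add, one_nsmul] at h3
      exact sub_eq_zero.1 h3
    have h1 : #((univ.filter fun x : G => x + x = 0).image ψ) = 4 := by
      rw [card_image_of_injOn hinj, hfour]
    have h2 : (univ.filter fun x : G => x + x = 0).image ψ ⊆ {0, ((κ / 2 : ℕ) : ZMod κ)} := by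
      intro z hz
      obtain ⟨x, hx, rfl⟩ := mem_image.1 hz
      have h3 : ψ x + ψ x = 0 := by
        rw [← map_add, (mem_filter.1 hx).2, map_zero]
      rw [mem_insert, mem_singleton]
      rcases low4_two κ hκpos _ h3 with h4 | h4
      · exact Or.inl h4
      · exact Or.inr h4.2
    have h3 := card_le_card h2
    have h4 : #({0, ((κ / 2 : ℕ) : ZMod κ)} : Finset (ZMod κ)) ≤ 2 := card_le_two
    omega
  refine ⟨heven, ?_⟩
  obtain ⟨d, hd⟩ := heven
  have hhd : h / 2 = d := by omega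
  have hdpos : 0 < d := by omega
  have hdκ : d ∣ κ := (Dvd.intro_left 2 (by omega)).trans hdvd
  obtain ⟨φ, hφdef⟩ : ∃ φ : G →+ ZMod d, φ = (ZMod.castHom hdκ (ZMod d)).toAddMonoidHom.comp ψ :=
    ⟨_, rfl⟩
  have hφ : Function.Surjective φ := by
    rw [hφdef]
    exact (ZMod.castHom_surjective hdκ).comp hψ
  have hKc : Nat.card φ.ker = 2 * κ := by
    have h1 := low4_index G d hdpos φ hφ
    rw [hcard, hd] at h1
    have h2 : Nat.card φ.ker * d = (2 * κ) * d := by rw [h1]; ring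
    exact Nat.eq_of_mul_eq_mul_right hdpos h2
  have hT : ∀ x : G, x + x = 0 → x ∈ φ.ker := by
    intro x hx
    have h1 : ψ x + ψ x = 0 := by rw [← map_add, hx, map_zero]
    rw [AddMonoidHom.mem_ker, hφdef]
    show ZMod.castHom hdκ (ZMod d) (ψ x) = 0
    rcases low4_two κ hκpos _ h1 with h4 | ⟨_, h4⟩
    · rw [h4, map_zero]
    · rw [h4, map_natCast, ZMod.natCast_eq_zero_iff]
      obtain ⟨c, hc⟩ := hdvd
      refine ⟨c, ?_⟩
      rw [hc, hd, ← two_mul, mul_assoc, Nat.mul_div_cancel_left _ (by norm_num)]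
  refine ⟨φ.ker, hKc, ?_, ?_⟩
  · obtain ⟨f, hf⟩ : ∃ f : φ.ker →+ G, f = (nsmulAddMonoidHom 2).comp φ.ker.subtype := ⟨_, rfl⟩
    have hfa : ∀ x : φ.ker, f x = (x : G) + x := by
      intro x
      rw [hf]
      show 2 • (x : G) = _
      rw [two_nsmul]
    have hr : f.range = dbl φ.ker := by
      ext y
      rw [mem_dbl, AddMonoidHom.mem_range]
      constructor
      · rintro ⟨x, rfl⟩
        exact ⟨x, x.2, hfa x⟩
      · rintro ⟨x, hx, rfl⟩
        exact ⟨⟨x, hx⟩, hfa _⟩
    have h1 := AddSubgroup.card_mul_index f.ker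
    rw [AddSubgroup.index_ker, hr] at h1
    have h2 : Nat.card f.ker = 4 := by
      rw [← hfour, ← Fintype.card_coe, ← Nat.card_eq_fintype_card]
      apply Nat.card_congr
      refine ⟨fun x => ⟨x.1.1, ?_⟩, fun x => ⟨⟨x.1, hT _ (mem_filter.1 x.2).2⟩, ?_⟩, ?_, ?_⟩
      · rw [mem_filter]
        refine ⟨mem_univ _, ?_⟩
        rw [← hfa]
        exact x.2
      · rw [AddMonoidHom.mem_ker, hfa]
        exact (mem_filter.1 x.2).2
      · intro x
        rfl
      · intro x
        rfl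
    rw [← h1, h2]
  · rw [hhd]
    obtain ⟨x₀, hx₀⟩ := hφ 1
    apply log_le_dis hdpos x₀
    intro k hk
    rw [AddMonoidHom.mem_ker, map_zsmul, hx₀, zsmul_one] at hk
    exact (ZMod.intCast_zmod_eq_zero_iff_dvd k d).1 hk

end Pool.Agent.Lib.MP_8ac08c_co.OE
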