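import Pool.Agent.Lib.MP_8ac08c_co.OE.Stm2

/-! The lower bound of project OE: a subgroup of index `b`, `2 b` a divisor of the exponent (as in
`OD/P/low2.lean`). -/

set_option autoImplicit false

open Finset

namespace Pool.Agent.Lib.MP_8ac08c_co.OE

open Pool.Agent.Lib.MP_8ac08c_co Pool.Agent.Lib.MP_8ac08c_co.OD

/-- a surjection on the cyclic group of order the exponent -/
private theorem lowb_surj (hchr : S_chr) (G : Type) [AddCommGroup G] [Finite G] (κ : ℕ)
    (hκ : κ = AddMonoid.exponent G) (hpos : 0 < κ) :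
    ∃ ψ : G →+ ZMod κ, Function.Surjective ψ := by
  have _ : NeZero κ := ⟨hpos.ne'⟩
  have hkill : ∀ x : G, κ • x = 0 := fun x => by rw [hκ]; exact AddMonoid.exponent_nsmul_eq_zero x
  -- all characters have order dividing the exponent `n`
  have hex : Monoid.ExponentExists (AddChar G ℂ) := by
    refine ⟨κ, hpos, fun χ => ?_⟩
    ext x
    rw [AddChar.pow_apply, AddChar.one_apply, ← AddChar.map_nsmul_eq_pow, hkill,
      AddChar.map_zero_eq_one]
  obtain ⟨χ, hχ⟩ := Monoid.exists_orderOf_eq_exponent hex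
  have hn0 : 0 < Monoid.exponent (AddChar G ℂ) := hex.exponent_pos
  have hdvd : κ ∣ orderOf χ := by
    rw [hκ, hχ]
    apply AddMonoid.exponent_dvd_of_forall_nsmul_eq_zero
    intro x
    rw [← AddChar.forall_apply_eq_zero (α := G)]
    intro χ'
    rw [AddChar.map_nsmul_eq_pow, ← AddChar.pow_apply, Monoid.pow_exponent_eq_one,
      AddChar.one_apply]
  obtain ⟨ψ, hψ⟩ := hchr G κ hkill χ
  refine ⟨ψ, ?_⟩
  rw [← AddMonoidHom.range_eq_top]
  have hr : ∀ x, Nat.card ψ.range • ψ x = 0 := by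
    intro x
    have h1 : Nat.card ψ.range • (⟨ψ x, ⟨x, rfl⟩⟩ : ψ.range) = 0 := card_nsmul_eq_zero'
    have h2 := congrArg (fun y : ψ.range => (y : ZMod κ)) h1
    simpa using h2
  have hχr : χ ^ Nat.card ψ.range = 1 := by
    ext x
    rw [AddChar.pow_apply, AddChar.one_apply, hψ, ← AddChar.map_nsmul_eq_pow, hr,
      AddChar.map_zero_eq_one]
  have h3 : κ ∣ Nat.card ψ.range := hdvd.trans (orderOf_dvd_of_pow_eq_one hχr)
  have h4 : Nat.card (ZMod κ) = κ := Nat.card_zmod κ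
  have h5 : 0 < Nat.card ψ.range := Nat.card_pos
  apply AddSubgroup.eq_top_of_le_card
  rw [h4]
  exact Nat.le_of_dvd h5 h3

private theorem lowb_dis (G : Type) [AddCommGroup G] [Fintype G] (h : ℕ) (hpos : 0 < h)
    (φ : G →+ ZMod h) (x₀ : G) (hx₀ : φ x₀ = 1) : Nat.log 2 h ≤ dis (G ⧸ φ.ker) := by
  classical
  obtain ⟨t, ht⟩ : ∃ t, t = Nat.log 2 h := ⟨_, rfl⟩
  have hth : 2 ^ t ≤ h := by rw [ht]; exact Nat.pow_log_le_self 2 hpos.ne'
  have _ : NeZero h := ⟨hpos.ne'⟩
  rw [← ht]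
  have hf : ∀ i : ℕ, φ (2 ^ i • x₀) = ((2 ^ i : ℕ) : ZMod h) := by
    intro i
    rw [map_nsmul, hx₀, nsmul_one]
  have hinj : Set.InjOn (fun i : ℕ => 2 ^ i • x₀) (range t : Set ℕ) := by
    intro i hi j hj hij
    rw [mem_coe, mem_range] at hi hj
    have h1 : ((2 ^ i : ℕ) : ZMod h) = ((2 ^ j : ℕ) : ZMod h) := by
      rw [← hf, ← hf]
      exact congrArg φ hij
    have h2 : 2 ^ i < h := (Nat.pow_lt_pow_right (by norm_num) hi).trans_le hth
    have h3 : 2 ^ j < h := (Nat.pow_lt_pow_right (by norm_num) hj).trans_le hth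
    rw [ZMod.natCast_eq_natCast_iff', Nat.mod_eq_of_lt h2, Nat.mod_eq_of_lt h3] at h1
    exact Nat.pow_right_injective (le_refl 2) h1
  have hc : #((range t).image (fun i : ℕ => 2 ^ i • x₀)) = t := by
    rw [card_image_of_injOn hinj, card_range]
  rw [← hc]
  apply le_dis_of_lift
  intro P N hP hN hd hs
  obtain ⟨I, hI⟩ : ∃ I, I = (range t).filter (fun i => 2 ^ i • x₀ ∈ P) := ⟨_, rfl⟩
  obtain ⟨J', hJ⟩ : ∃ J', J' = (range t).filter (fun i => 2 ^ i • x₀ ∈ N) := ⟨_, rfl⟩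
  have hIr : I ⊆ range t := by rw [hI]; exact filter_subset _ _
  have hJr : J' ⊆ range t := by rw [hJ]; exact filter_subset _ _
  have himP : I.image (fun i : ℕ => 2 ^ i • x₀) = P := by
    ext x
    rw [hI, mem_image]
    constructor
    · rintro ⟨i, hi, rfl⟩
      exact (mem_filter.1 hi).2
    · intro hx
      obtain ⟨i, hi, rfl⟩ := mem_image.1 (hP hx)
      exact ⟨i, mem_filter.2 ⟨hi, hx⟩, rfl⟩
  have himN : J'.image (fun i : ℕ => 2 ^ i • x₀) = N := by
    ext x
    rw [hJ, mem_image]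
    constructor
    · rintro ⟨i, hi, rfl⟩
      exact (mem_filter.1 hi).2
    · intro hx
      obtain ⟨i, hi, rfl⟩ := mem_image.1 (hN hx)
      exact ⟨i, mem_filter.2 ⟨hi, hx⟩, rfl⟩
  have hsP : φ (∑ x ∈ P, x) = ((∑ i ∈ I, 2 ^ i : ℕ) : ZMod h) := by
    rw [← himP, sum_image (fun a ha b hb hab => hinj (hIr ha) (hIr hb) hab), map_sum,
      Nat.cast_sum]
    exact sum_congr rfl fun i _ => hf i
  have hsN : φ (∑ x ∈ N, x) = ((∑ i ∈ J', 2 ^ i : ℕ) : ZMod h) := by
    rw [← himN, sum_image (fun a ha b hb hab => hinj (hJr ha) (hJr hb) hab), map_sum,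
      Nat.cast_sum]
    exact sum_congr rfl fun i _ => hf i
  rw [AddMonoidHom.mem_ker, map_sub, hsP, hsN, sub_eq_zero] at hs
  have hlt : ∀ S ⊆ range t, ∑ i ∈ S, 2 ^ i < h := by
    intro S hS
    have h1 : ∑ i ∈ S, 2 ^ i ≤ ∑ i ∈ range t, 2 ^ i :=
      sum_le_sum_of_subset hS
    have h2 : ∑ i ∈ range t, 2 ^ i = 2 ^ t - 1 := by
      have := Nat.geomSum_eq (le_refl 2) t
      simpa using this
    have h3 : 0 < 2 ^ t := by positivity
    omega
  rw [ZMod.natCast_eq_natCast_iff', Nat.mod_eq_of_lt (hlt I hIr), Nat.mod_eq_of_lt (hlt J' hJr)]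
    at hs
  have hIJ : I = J' := Finset.geomSum_injective (le_refl 2) hs
  have hPN : P = N := by rw [← himP, ← himN, hIJ]
  have hP0 : P = ∅ := by
    rw [← hPN] at hd
    exact disjoint_self.1 hd
  exact ⟨hP0, by rw [← hPN, hP0]⟩

private theorem lowb_card (G : Type) [AddCommGroup G] [Fintype G] [DecidableEq G]
    (K : AddSubgroup G) (hK : ∀ x : G, x + x = 0 → x ∈ K) :
    Nat.card K = #(univ.filter fun x : G => x + x = 0) * Nat.card (dbl K) := by
  let f : K →+ G := (nsmulAddMonoidHom 2).comp K.subtype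
  have hf : ∀ x : K, f x = (x : G) + (x : G) := by
    intro x
    show 2 • (x : G) = _
    rw [two_nsmul]
  have h1 := AddSubgroup.card_mul_index f.ker
  rw [AddSubgroup.index_ker] at h1
  have h2 : Nat.card f.range = Nat.card (dbl K) := by
    have h3 : f.range = dbl K := by
      ext x
      rw [AddMonoidHom.mem_range, mem_dbl]
      constructor
      · rintro ⟨y, rfl⟩
        exact ⟨y, y.2, hf y⟩
      · rintro ⟨k, hk, rfl⟩
        exact ⟨⟨k, hk⟩, hf _⟩
    rw [h3]
  have h4 : Nat.card f.ker = #(univ.filter fun x : G => x + x = 0) := by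
    have h6 : Nat.card {x : G // x + x = 0} = #(univ.filter fun x : G => x + x = 0) := by
      rw [Nat.card_eq_fintype_card, Fintype.card_subtype]
    rw [← h6]
    refine Nat.card_congr
      { toFun := fun y => ⟨(y : K), by
          have h5 := y.2
          rw [AddMonoidHom.mem_ker, hf] at h5
          exact h5⟩
        invFun := fun y => ⟨⟨y.1, hK y.1 y.2⟩, by
          rw [AddMonoidHom.mem_ker, hf]
          exact y.2⟩
        left_inv := fun y => rfl
        right_inv := fun y => rfl }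
  rw [← h1, h2, h4]

theorem p_lowb : S_lowb := by
  intro hchr G _ _ _ b hb
  obtain ⟨κ, hκ⟩ : ∃ κ, κ = AddMonoid.exponent G := ⟨_, rfl⟩
  rw [← hκ] at hb
  have hκpos : 0 < κ := by
    rw [hκ]
    exact AddMonoid.ExponentExists.exponent_pos AddMonoid.ExponentExists.of_finite
  have hbpos : 0 < b := by
    rcases Nat.eq_zero_or_pos b with h | h
    · rw [h, mul_zero] at hb
      have := Nat.eq_zero_of_zero_dvd hb
      omega
    · exact h
  have hbκ : b ∣ κ := (Dvd.intro_left 2 rfl).trans hb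
  have _ : NeZero κ := ⟨hκpos.ne'⟩
  have _ : NeZero b := ⟨hbpos.ne'⟩
  obtain ⟨ψ, hψ⟩ := lowb_surj hchr G κ hκ hκpos
  obtain ⟨φ, hφ⟩ : ∃ φ : G →+ ZMod b, ∀ x, φ x = ((ψ x).val : ZMod b) := by
    refine ⟨(ZMod.castHom hbκ (ZMod b)).toAddMonoidHom.comp ψ, ?_⟩
    intro x
    show ZMod.castHom hbκ (ZMod b) (ψ x) = _
    conv_lhs => rw [← ZMod.natCast_zmod_val (ψ x)]
    rw [map_natCast]
  have hφs : Function.Surjective φ := by
    intro y
    obtain ⟨x, hx⟩ := hψ (y.val : ZMod κ)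
    refine ⟨x, ?_⟩
    rw [hφ, hx, ZMod.val_natCast]
    rw [Nat.mod_eq_of_lt ((ZMod.val_lt y).trans_le (Nat.le_of_dvd hκpos hbκ)), ZMod.natCast_zmod_val]
  obtain ⟨x₀, hx₀⟩ := hφs 1
  refine ⟨φ.ker, ?_, ?_, lowb_dis G b hbpos φ x₀ hx₀⟩
  · have h1 := AddSubgroup.card_mul_index φ.ker
    have h2 : φ.ker.index = b := by
      rw [AddSubgroup.index_ker, AddMonoidHom.range_eq_top.2 hφs]
      rw [Nat.card_congr (Equiv.refl _)]
      simp
    rw [h2] at h1
    rw [mul_comm]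
    exact h1
  · apply lowb_card
    intro x hx
    rw [AddMonoidHom.mem_ker, hφ]
    have h1 : ψ x + ψ x = 0 := by rw [← map_add, hx, map_zero]
    have h2 : (((ψ x).val + (ψ x).val : ℕ) : ZMod κ) = 0 := by
      push_cast
      rw [ZMod.natCast_zmod_val]
      exact h1
    rw [ZMod.natCast_eq_zero_iff] at h2
    rw [ZMod.natCast_eq_zero_iff]
    have h3 : 2 * b ∣ 2 * (ψ x).val := by
      rw [two_mul (ψ x).val]
      exact hb.trans h2
    exact Nat.dvd_of_mul_dvd_mul_left (by norm_num) h3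

end Pool.Agent.Lib.MP_8ac08c_co.OE
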