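import Pool.Agent.Lib.MP_8ac08c_co.OE.Stm

set_option autoImplicit false

open Finset

namespace Pool.Agent.Lib.MP_8ac08c_co.OE

open Pool.Agent.Lib.MP_8ac08c_co Pool.Agent.Lib.MP_8ac08c_co.OD

private theorem occ_card {G : Type} [AddCommGroup G] [Fintype G] (K : AddSubgroup G)
    [DecidablePred fun x : G => x ∈ K] :
    #(univ.filter fun x : G => x ∈ K) = Nat.card K := by
  rw [Nat.card_eq_fintype_card, Fintype.card_subtype]

private theorem occ_dbl {G : Type} [AddCommGroup G] {K : AddSubgroup G} {x : G}
    (h : x ∈ dbl K) : x ∈ K := by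
  obtain ⟨y, hy, rfl⟩ := mem_dbl.1 h
  exact K.add_mem hy hy

theorem p_occ : S_occ := by
  classical
  intro G _ _ _ A K κ h1 h2 h3 v hv
  by_contra hcon
  push Not at hcon
  set D : Finset G := (univ.filter fun x : G => x ∈ dbl K).image (fun x => v + x) with hD
  have hDc : #D = Nat.card (dbl K) := by
    rw [hD, card_image_of_injective _ (add_right_injective v), occ_card]
  have hdis : Disjoint (InK A K) D := by
    rw [Finset.disjoint_left]
    intro x hx hxD
    obtain ⟨hxA, hxK⟩ := mem_InK.1 hx
    rw [hD, mem_image] at hxD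
    obtain ⟨y, hy, rfl⟩ := hxD
    refine hcon (v + y) hxA hxK ?_
    have := (mem_filter.1 hy).2
    simpa using this
  have hsub : InK A K ∪ D ⊆ univ.filter fun x : G => x ∈ K := by
    intro x hx
    rw [mem_filter]
    refine ⟨mem_univ _, ?_⟩
    rcases mem_union.1 hx with hx | hx
    · exact (mem_InK.1 hx).2
    · rw [hD, mem_image] at hx
      obtain ⟨y, hy, rfl⟩ := hx
      exact K.add_mem hv (occ_dbl (mem_filter.1 hy).2)
  have hc := card_le_card hsub
  rw [card_union_of_disjoint hdis, hDc, occ_card] at hc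
  omega

end Pool.Agent.Lib.MP_8ac08c_co.OE
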