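import Pool.Agent.Lib.MP_8ac08c_co.OE.Stm

/-! Piece `prt2` of project OE: partners. -/

set_option autoImplicit false

open Finset

namespace Pool.Agent.Lib.MP_8ac08c_co.OE

open Pool.Agent.Lib.MP_8ac08c_co Pool.Agent.Lib.MP_8ac08c_co.OD

private theorem prt2_aux {G : Type} [AddCommGroup G] [DecidableEq G] (M : AddSubgroup G)
    (V R F : Finset G)
    (hS : ∀ a ∈ R, ∃ S ⊆ V, 2 * #R + #F + 1 ≤ #S ∧ ∀ x ∈ S, x - a ∈ M) (R' : Finset G) :
    R' ⊆ R → ∃ W ⊆ V \ (R ∪ F), #W = #R' ∧ ∀ r ∈ SG R', ∃ z ∈ SG W, r + z ∈ M := by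
  induction R' using Finset.induction_on with
  | empty =>
    intro _
    refine ⟨∅, empty_subset _, rfl, ?_⟩
    intro r hr
    refine ⟨0, zero_mem_SG_empty, ?_⟩
    rw [SG_empty, mem_singleton] at hr
    rw [hr, add_zero]
    exact M.zero_mem
  | insert a R' ha ih =>
    intro hsub
    have haR : a ∈ R := hsub (mem_insert_self _ _)
    have hR' : R' ⊆ R := (subset_insert _ _).trans hsub
    obtain ⟨W, hW, hWc, hWr⟩ := ih hR'
    obtain ⟨S, hSV, hSc, hSa⟩ := hS a haR
    have hlt : #((R ∪ F) ∪ W) < #S := by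
      have h1 := card_union_le (R ∪ F) W
      have h2 := card_union_le R F
      have h3 : #R' ≤ #R := card_le_card hR'
      omega
    obtain ⟨b, hbS, hb⟩ := exists_mem_notMem_of_card_lt_card hlt
    rw [mem_union, not_or] at hb
    have hbM := hSa b hbS
    refine ⟨insert b W, ?_, ?_, ?_⟩
    · intro x hx
      rcases mem_insert.1 hx with rfl | hx
      · exact mem_sdiff.2 ⟨hSV hbS, hb.1⟩
      · exact hW hx
    · rw [card_insert_of_notMem hb.2, card_insert_of_notMem ha, hWc]
    · intro r hr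
      have hd1 : Disjoint ({a} : Finset G) R' := disjoint_singleton_left.2 ha
      have hd2 : Disjoint ({b} : Finset G) W := disjoint_singleton_left.2 hb.2
      rw [insert_eq, mem_SG_union hd1] at hr
      obtain ⟨u, hu, v, hv, rfl⟩ := hr
      obtain ⟨z, hz, hvz⟩ := hWr v hv
      rw [insert_eq]
      rcases mem_SG_single.1 hu with hu | hu
      · refine ⟨-b + z, add_mem_SG hd2 (mem_SG_single.2 (Or.inr rfl)) hz, ?_⟩
        have h : u + v + (-b + z) = (v + z) - (b - a) := by
          rw [hu]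
          abel
        rw [h]
        exact M.sub_mem hvz hbM
      · refine ⟨b + z, add_mem_SG hd2 (mem_SG_single.2 (Or.inl rfl)) hz, ?_⟩
        have h : u + v + (b + z) = (v + z) + (b - a) := by
          rw [hu]
          abel
        rw [h]
        exact M.add_mem hvz hbM

theorem p_prt2 : S_prt2 := by
  intro G _ _ M V R F r _ hr hS
  obtain ⟨W, hW, hWc, hWr⟩ := prt2_aux M V R F hS R (Subset.refl _)
  exact ⟨W, hW, hWc, hWr r hr⟩

end Pool.Agent.Lib.MP_8ac08c_co.OE
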