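import Pool.Agent.Lib.MP_8ac08c_co.OE.Stm

/-!
# MP_8ac08c_co, project OE: piece `sml2`
-/

set_option autoImplicit false

open Finset

namespace Pool.Agent.Lib.MP_8ac08c_co.OE

open Pool.Agent.Lib.MP_8ac08c_co Pool.Agent.Lib.MP_8ac08c_co.OD

private theorem sml2_exp (l : ℕ) (hl : 100 ≤ l) :
    1000 * ((20 * l + 40) * (2 * l + 1)) ≤ 2 ^ l := by
  induction l, hl using Nat.le_induction with
  | base => norm_num
  | succ n hn ih =>
    rw [pow_succ]
    nlinarith

private theorem sml2_log {κ n l : ℕ} (hl : κ < 2 ^ (l + 1)) (hn : n ≤ κ ^ 2) :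
    Nat.log 2 n ≤ 2 * l + 1 := by
  rcases Nat.eq_zero_or_pos n with h0 | h0
  · subst h0
    simp
  · have h1 : n < 2 ^ (2 * l + 2) := by
      have h2 : κ ^ 2 < (2 ^ (l + 1)) ^ 2 := Nat.pow_lt_pow_left hl (by norm_num)
      have h3 : ((2 : ℕ) ^ (l + 1)) ^ 2 = 2 ^ (2 * l + 2) := by
        rw [← pow_mul]
        ring_nf
      omega
    have h4 := Nat.log_lt_of_lt_pow (by omega : n ≠ 0) h1
    omega

private theorem sml2_img {G : Type} [AddCommGroup G] [Fintype G] [DecidableEq G]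
    (h : #(univ.filter fun x : G => x + x = 0) ≤ 4) (C : Finset G) :
    #C ≤ 4 * #(C.image fun v => v + v) := by
  apply card_le_mul_card_image
  intro a ha
  rw [mem_image] at ha
  obtain ⟨v, hv, hva⟩ := ha
  refine le_trans ?_ h
  refine card_le_card_of_injOn (fun x => x - v) ?_ ?_
  · intro x hx
    have hx' := (mem_filter.1 (Finset.mem_coe.1 hx)).2
    rw [Finset.mem_coe, mem_filter]
    refine ⟨mem_univ _, ?_⟩
    have h1 : x + x = v + v := by rw [hx', hva]
    calc x - v + (x - v) = (x + x) - (v + v) := by abel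
      _ = 0 := by rw [h1, sub_self]
  · intro x _ y _ hxy
    exact sub_left_injective hxy

private theorem sml2_sd {α : Type} [DecidableEq α] (Z J U : Finset α) :
    (Z \ J) \ U = Z \ (J ∪ U) := by
  ext x
  simp only [mem_sdiff, mem_union]
  tauto

private theorem sml2_num {κ k l b : ℕ} (hb1 : κ * b ≤ 256 * k + κ * (8 * l + 13)) :
    κ * (l + 4 + b) ≤ 256 * k + κ * (20 * l + 40) := by
  have h1 : κ * (9 * l + 17) ≤ κ * (20 * l + 40) := Nat.mul_le_mul_left _ (by omega)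
  have h2 : κ * (l + 4 + b) = κ * (l + 4) + κ * b := by ring
  have h3 : κ * (9 * l + 17) = κ * (l + 4) + κ * (8 * l + 13) := by ring
  omega

theorem p_sml2 : S_sml2 := by
  intro hols hcov hrob G _ _ _ κ h t u hyp hκ hu hgood A Z₀ K₀ hA hZ₀ hK₀ h95 h20
  obtain ⟨l, hl⟩ : ∃ l, l = Nat.log 2 κ := ⟨_, rfl⟩
  have hκ0 : κ ≠ 0 := by
    intro h0
    rw [h0] at hκ
    norm_num at hκ
  have hκpos : 0 < κ := Nat.pos_of_ne_zero hκ0
  have hl1 : 2 ^ l ≤ κ := by rw [hl]; exact Nat.pow_log_le_self 2 hκ0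
  have hl2 : κ < 2 ^ (l + 1) := by rw [hl]; exact Nat.lt_pow_succ_log_self (by norm_num) κ
  have hl3 : 100 ≤ l := by rw [hl]; exact Nat.le_log_of_pow_le (by norm_num) hκ
  have hexp := (sml2_exp l hl3).trans hl1
  have ht : t ≤ l := by
    rw [hl]
    exact Nat.le_log_of_pow_le (by norm_num) (hyp.ge.trans hyp.le)
  -- the robust subset
  obtain ⟨Z, hZ, hZ1, hZ2⟩ := (hrob G G (fun Z : Finset G => AddSubgroup.closure (Z : Set G))
    (fun Z Z' hZZ => AddSubgroup.closure_mono (by exact_mod_cast hZZ)) Z₀).1 κ 256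
    (κ * (20 * l + 40))
  obtain ⟨K, hK⟩ : ∃ K, K = AddSubgroup.closure (Z : Set G) := ⟨_, rfl⟩
  rw [← hK] at hZ1 hZ2
  have hle1 : AddSubgroup.closure (Z₀ : Set G) ≤ K₀ := by
    rw [AddSubgroup.closure_le]
    intro z hz
    exact hK₀ z (by exact_mod_cast hz)
  have hle2 : K ≤ K₀ := by
    rw [hK]
    refine le_trans (AddSubgroup.closure_mono ?_) hle1
    exact_mod_cast hZ
  have hc1 : Nat.card (AddSubgroup.closure (Z₀ : Set G)) ≤ Nat.card K₀ :=
    Nat.card_le_card_of_injective _ (AddSubgroup.inclusion_injective hle1)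
  have hc2 : Nat.card K ≤ Nat.card K₀ :=
    Nat.card_le_card_of_injective _ (AddSubgroup.inclusion_injective hle2)
  obtain ⟨k₀, hk₀⟩ : ∃ k, k = Nat.card (AddSubgroup.closure (Z₀ : Set G)) := ⟨_, rfl⟩
  obtain ⟨k, hk⟩ : ∃ k, k = Nat.card K := ⟨_, rfl⟩
  rw [← hk₀, ← hk] at hZ1
  rw [← hk] at hZ2
  rw [← hk₀] at hc1
  rw [← hk] at hc2
  have hk5 : 20000 * k ≤ κ ^ 2 := (Nat.mul_le_mul_left _ hc2).trans h20
  have hk05 : 20000 * k₀ ≤ κ ^ 2 := (Nat.mul_le_mul_left _ hc1).trans h20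
  have hlk : Nat.log 2 k ≤ 2 * l + 1 := sml2_log hl2 (by omega)
  have hlk0 : Nat.log 2 k₀ ≤ 2 * l + 1 := sml2_log hl2 (by omega)
  -- size of Z
  have hs1 : #(Z₀ \ Z) * 100 ≤ 3 * κ := by
    have h1 : κ * #(Z₀ \ Z) ≤ 2 * 256 * k₀ + κ * (20 * l + 40) * (2 * l + 1) := by
      have h2 : κ * (20 * l + 40) * Nat.log 2 k₀ ≤ κ * (20 * l + 40) * (2 * l + 1) :=
        Nat.mul_le_mul_left _ hlk0
      omega
    have h3 : κ * (#(Z₀ \ Z) * 100) ≤ κ * (3 * κ) := by
      have h4 : κ * (20 * l + 40) * (2 * l + 1) * 1000 ≤ κ * κ := by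
        calc κ * (20 * l + 40) * (2 * l + 1) * 1000
            = κ * (1000 * ((20 * l + 40) * (2 * l + 1))) := by ring
          _ ≤ κ * κ := Nat.mul_le_mul_left _ hexp
      nlinarith
    exact Nat.le_of_mul_le_mul_left h3 hκpos
  have hs2 : #(Z₀ \ Z) + #Z = #Z₀ := card_sdiff_add_card_eq_card hZ
  have hs3 : 92 * κ ≤ 100 * #Z := by omega
  -- the numbers
  obtain ⟨m, hm⟩ : ∃ m, m = 256 * k / κ + 1 := ⟨_, rfl⟩
  have hm1 : 256 * k < κ * m := by
    rw [hm]
    exact Nat.lt_mul_div_succ _ hκpos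
  have hm2 : κ * m ≤ 256 * k + κ := by
    rw [hm]
    have := Nat.mul_div_le (256 * k) κ
    linarith [this]
  obtain ⟨b, hb⟩ : ∃ b, b = (m + 4 * Nat.log 2 k + 8) * 1 := ⟨_, rfl⟩
  have hb1 : κ * b ≤ 256 * k + κ * (8 * l + 13) := by
    rw [hb]
    have h1 : κ * (4 * Nat.log 2 k) ≤ κ * (4 * (2 * l + 1)) :=
      Nat.mul_le_mul_left _ (by omega)
    nlinarith
  have hlin : 1000 * (20 * l + 40) ≤ κ := by
    refine le_trans ?_ hexp
    refine Nat.mul_le_mul_left _ ?_
    exact Nat.le_mul_of_pos_right _ (by omega)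
  have hb2 : b * 50 ≤ κ := by
    have h3 : κ * (b * 50) ≤ κ * κ := by
      have h4 : κ * (1000 * (20 * l + 40)) ≤ κ * κ := Nat.mul_le_mul_left _ hlin
      nlinarith
    exact Nat.le_of_mul_le_mul_left h3 hκpos
  have hκbig : 1000 ≤ κ := by omega
  have hZK : ∀ z ∈ Z, z ∈ K := by
    intro z hz
    rw [hK]
    exact AddSubgroup.subset_closure (by exact_mod_cast hz)
  have hZA : Z ⊆ A := hZ.trans hZ₀
  have hsub : Z ⊆ InK A K := fun z hz => mem_InK.2 ⟨hZA hz, hZK z hz⟩
  have hdbl : Nat.card (dbl K) ≤ k := by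
    rw [hk]
    exact Nat.card_le_card_of_injective _ (AddSubgroup.inclusion_injective (dbl_le K))
  refine hgood A K hA ?_ ?_ ?_
  · have h1 := card_le_card hsub
    omega
  · apply le_antisymm
    · rw [AddSubgroup.closure_le]
      intro z hz
      exact (mem_InK.1 (by exact_mod_cast hz)).2
    · rw [hK]
      exact AddSubgroup.closure_mono (by rw [← hK]; exact_mod_cast hsub)
  · intro J hJ hJt
    obtain ⟨R, hR, -, hR2⟩ := hcov hols G K (Z \ J) 1 b (κ / 8) m (by omega)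
      (by
        intro U hU
        have hall : #(J ∪ U) ≤ (l + 4) + b := by
          have := card_union_le J U
          omega
        refine ⟨(Z \ J) \ U, ?_, ?_, ?_⟩
        · have h1 := sml2_img hyp.two ((Z \ J) \ U)
          have h2 : #Z - #(J ∪ U) ≤ #((Z \ J) \ U) := by
            rw [sml2_sd]
            exact le_card_sdiff _ _
          generalize #(((Z \ J) \ U).image fun v => v + v) = a1 at h1 ⊢
          generalize #((Z \ J) \ U) = a2 at h1 h2
          omega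
        · intro v hv
          rw [mem_sdiff] at hv
          refine ⟨hZK v (mem_sdiff.1 hv.1).1, {v}, ?_, ?_, ?_, ?_⟩
          · exact singleton_subset_iff.2 hv.1
          · exact disjoint_singleton_left.2 hv.2
          · simp
          · exact mem_SG_single.2 (Or.inl rfl)
        · apply hZ2 _ (sdiff_subset.trans sdiff_subset)
          have h1 : #(Z \ ((Z \ J) \ U)) ≤ (l + 4) + b := by
            rw [sml2_sd, sdiff_sdiff_right_self]
            exact (card_le_card inter_subset_right).trans hall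
          exact le_trans (Nat.mul_le_mul_left κ h1) (sml2_num hb1))
      (by
        have h1 : κ ≤ 16 * (κ / 8) := by omega
        have h2 : κ * m ≤ 16 * (κ / 8) * m := Nat.mul_le_mul_right _ h1
        have h3 : 16 * (κ / 8) * m = 16 * (κ / 8 * m) := by ring
        omega)
      (by rw [← hk, ← hb])
    refine ⟨R, hR.trans (sdiff_subset_sdiff hZA (Subset.refl _)), ?_, hR2⟩
    intro x hx
    exact hZK x (mem_sdiff.1 (hR hx)).1

end Pool.Agent.Lib.MP_8ac08c_co.OE
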