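import Pool.Agent.Lib.MP_8ac08c_co.OE.Stm

/-!
# MP_8ac08c_co, project OE, piece sol: completing a relation to a solution
-/

set_option autoImplicit false

open Finset

namespace Pool.Agent.Lib.MP_8ac08c_co.OE

open Pool.Agent.Lib.MP_8ac08c_co Pool.Agent.Lib.MP_8ac08c_co.OD

theorem p_sol : S_sol := by
  intro G _ _ _ κ q A B₀ W J K z hcov hWA hWK hz hJ hJ2 hJq hcard hsum
  have hJA : J ⊆ A := hJ.trans (InK_subset A K)
  obtain ⟨R, hRA, hRK, r, hr, hrc⟩ := hcov J hJA hJ2 hJq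
  have hRI : R ⊆ InK A K \ J := by
    intro x hx
    have h1 := mem_sdiff.1 (hRA hx)
    exact mem_sdiff.2 ⟨mem_InK.2 ⟨h1.1, hRK x hx⟩, h1.2⟩
  obtain ⟨B, hB⟩ : ∃ B, B = (InK A K \ J) \ R := ⟨_, rfl⟩
  have hBI : B ⊆ InK A K \ J := by rw [hB]; exact sdiff_subset
  have hs1 : ∑ x ∈ InK A K \ J, x = ∑ x ∈ B, x + ∑ x ∈ R, x := by
    rw [hB, sum_sdiff hRI]
  have hc1 : #B + #R = #(InK A K \ J) := by
    rw [hB]
    exact card_sdiff_add_card_eq_card hRI
  have hc2 : #(InK A K \ J) + #J = #(InK A K) := card_sdiff_add_card_eq_card hJ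
  obtain ⟨P, hP, hPr⟩ := mem_SG.1 hr
  have hrR : r - ∑ x ∈ R, x ∈ dbl K := by
    rw [mem_dbl]
    refine ⟨∑ x ∈ P, x - ∑ x ∈ R, x, K.sub_mem (K.sum_mem fun x hx => hRK x (hP hx))
      (K.sum_mem fun x hx => hRK x hx), ?_⟩
    rw [← hPr]
    abel
  have hy : -(∑ x ∈ B, x + z + r) ∈ dbl K := by
    apply (dbl K).neg_mem
    have h1 : ∑ x ∈ B, x + z + r = (∑ x ∈ InK A K \ J, x + z) + (r - ∑ x ∈ R, x) := by
      rw [hs1]
      abel
    rw [h1]
    exact (dbl K).add_mem hsum hrR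
  have hry := hrc _ hy
  have hBB : ∑ x ∈ B, x ∈ SG B := by
    rw [mem_SG]
    exact ⟨B, Subset.refl _, by abel⟩
  have hBK : ∀ x ∈ B, x ∈ K := fun x hx => (mem_InK.1 (mem_sdiff.1 (hBI hx)).1).2
  have hd1 : Disjoint B W := by
    rw [disjoint_left]
    intro x hx hx'
    exact hWK x hx' (hBK x hx)
  have hd2 : Disjoint (B ∪ W) R := by
    rw [disjoint_left]
    intro x hx hx'
    rcases mem_union.1 hx with h1 | h1
    · rw [hB] at h1
      exact (mem_sdiff.1 h1).2 hx'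
    · exact hWK x h1 (hRK x hx')
  have h0 : (0 : G) ∈ SG (B ∪ W ∪ R) := by
    have h1 := add_mem_SG hd2 (add_mem_SG hd1 hBB hz) hry
    have h2 : ∑ x ∈ B, x + z + (r + -(∑ x ∈ B, x + z + r)) = 0 := by abel
    rw [h2] at h1
    exact h1
  refine sol_of_SG ?_ ?_ h0
  · refine union_subset (union_subset ?_ hWA) ?_
    · intro x hx
      exact (mem_InK.1 (mem_sdiff.1 (hBI hx)).1).1
    · intro x hx
      exact (mem_sdiff.1 (hRA hx)).1
  · rw [card_union_of_disjoint hd2, card_union_of_disjoint hd1]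
    omega

end Pool.Agent.Lib.MP_8ac08c_co.OE
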