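import Pool.Agent.Lib.MP_8ac08c_co.OE.Stm

/-!
# MP_8ac08c_co, project OE, piece bs12: robust `L` and large classes
-/

set_option autoImplicit false

open Finset

namespace Pool.Agent.Lib.MP_8ac08c_co.OE

open Pool.Agent.Lib.MP_8ac08c_co Pool.Agent.Lib.MP_8ac08c_co.OD

private theorem bs12_log (a k : ℕ) (ha : a ≠ 0) : Nat.log 2 (a * 2 ^ k) = Nat.log 2 a + k := by
  induction k with
  | zero => simp
  | succ k ih =>
      rw [pow_succ, ← mul_assoc, Nat.log_mul_base (by norm_num) (by positivity), ih]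
      ring

/-- `Lg` is monotone. -/
private theorem bs12_mono {G : Type} [AddCommGroup G] (w : G → ℤ) (s : ℕ) {Z Z' : Finset G}
    (h : Z ⊆ Z') : Lg w s Z ≤ Lg w s Z' := by
  unfold Lg
  apply AddSubgroup.closure_mono
  rintro v ⟨P, N, hP, hN, hd, hc, hw, hv⟩
  exact ⟨P, N, hP.trans h, hN.trans h, hd, hc, hw, hv⟩

/-- `Lg w s Z` is contained in `H'` for `Z ⊆ V`. -/
private theorem bs12_le {G : Type} [AddCommGroup G] [DecidableEq G] {κ : ℕ} {V : Finset G}
    {H H' : AddSubgroup G} {w : G → ℤ} (hS : Strip2 V H H' w κ) (s : ℕ) {Z : Finset G}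
    (h : Z ⊆ V) : Lg w s Z ≤ H' := by
  unfold Lg
  rw [AddSubgroup.closure_le]
  rintro v ⟨P, N, hP, hN, hd, -, hw, rfl⟩
  have key : ∀ (T : Finset G), T ⊆ V → ∀ {M : Type} [AddCommMonoid M] (f : G → M),
      ∑ x ∈ V, (if x ∈ T then f x else 0) = ∑ x ∈ T, f x := by
    intro T hT M _ f
    rw [← sum_filter]
    congr 1
    ext x
    rw [mem_filter]
    exact ⟨fun h => h.2, fun h => ⟨hT h, h⟩⟩
  have h1 := hS.ker (fun x => (if x ∈ P then 1 else 0) - (if x ∈ N then 1 else 0)) ?_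
  · have h2 : ∑ x ∈ V, (((if x ∈ P then 1 else 0) - (if x ∈ N then 1 else 0) : ℤ)) • x =
        ∑ x ∈ P, x - ∑ x ∈ N, x := by
      rw [← key P (hP.trans h) (fun x => x), ← key N (hN.trans h) (fun x => x),
        ← sum_sub_distrib]
      refine sum_congr rfl fun x _ => ?_
      rw [sub_smul]
      split_ifs <;> simp
    rw [h2] at h1
    exact h1
  · have h3 : ∑ x ∈ V, ((if x ∈ P then 1 else 0) - (if x ∈ N then 1 else 0) : ℤ) * w x =
        ∑ x ∈ P, w x - ∑ x ∈ N, w x := by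
      rw [← key P (hP.trans h) w, ← key N (hN.trans h) w, ← sum_sub_distrib]
      refine sum_congr rfl fun x _ => ?_
      rw [sub_mul]
      split_ifs <;> simp
    rw [h3, hw, sub_self]

/-- `Lg w s Z` has many elements. -/
private theorem bs12_ge (hdif : S_dif) {G : Type} [AddCommGroup G] [Fintype G] [DecidableEq G]
    {w : G → ℤ} {Z : Finset G} (hw : ∀ a ∈ Z, (w a).natAbs ≤ 2 ^ 85) :
    #Z ≤ (2 * 2 ^ 85 + 1) * Nat.card (Lg w (2 ^ 86) Z) := by
  obtain ⟨C, hC, hv⟩ := hdif G w (2 ^ 85) Z hw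
  refine hC.trans (Nat.mul_le_mul_left _ ?_)
  have hsub : ∀ v ∈ C, v ∈ Lg w (2 ^ 86) Z := by
    intro v hvC
    obtain ⟨P, N, hP, hN, hd, hc, hs, he⟩ := hv v hvC
    exact AddSubgroup.subset_closure ⟨P, N, hP, hN, hd, hc.trans (by norm_num), hs, he⟩
  calc #C = Nat.card (C : Set G) := by simp
    _ ≤ Nat.card (Lg w (2 ^ 86) Z) :=
        Nat.card_mono (Set.toFinite _) (fun v hv => hsub v hv)

/-- the elements of small classes are few -/
private theorem bs12_small {G : Type} [DecidableEq G] {κ : ℕ} {V : Finset G} {w : G → ℤ}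
    (hw : ∀ a ∈ V, (w a).natAbs ≤ 2 ^ 85) :
    2 ^ 14 * #(V \ V.filter fun a => κ ≤ 2 ^ 100 *
      #(V.filter fun x => (w x).natAbs = (w a).natAbs)) ≤ κ := by
  set V₀ := V.filter fun a => κ ≤ 2 ^ 100 *
      #(V.filter fun x => (w x).natAbs = (w a).natAbs) with hV₀
  have h1 : #(V \ V₀) ≤ κ / 2 ^ 100 * #((V \ V₀).image fun x => (w x).natAbs) := by
    apply card_le_mul_card_image
    intro i hi
    obtain ⟨a, ha, rfl⟩ := mem_image.1 hi
    rw [mem_sdiff, hV₀, mem_filter, not_and, not_le] at ha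
    have h2 := ha.2 ha.1
    rw [Nat.le_div_iff_mul_le (by positivity)]
    have h3 : #((V \ V₀).filter fun x => (w x).natAbs = (w a).natAbs) ≤
        #(V.filter fun x => (w x).natAbs = (w a).natAbs) :=
      card_le_card (filter_subset_filter _ sdiff_subset)
    rw [mul_comm]
    exact (Nat.mul_le_mul_left _ h3).trans h2.le
  have h4 : #((V \ V₀).image fun x => (w x).natAbs) ≤ 2 ^ 85 + 1 := by
    calc #((V \ V₀).image fun x => (w x).natAbs) ≤ #(range (2 ^ 85 + 1)) := by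
          apply card_le_card
          intro i hi
          obtain ⟨a, ha, rfl⟩ := mem_image.1 hi
          rw [mem_range]
          exact Nat.lt_succ_of_le (hw a (mem_sdiff.1 ha).1)
      _ = 2 ^ 85 + 1 := card_range _
  have h5 : #(V \ V₀) ≤ κ / 2 ^ 100 * (2 ^ 85 + 1) := h1.trans (Nat.mul_le_mul_left _ h4)
  have h6 : κ / 2 ^ 100 * 2 ^ 100 ≤ κ := Nat.div_mul_le_self _ _
  generalize κ / 2 ^ 100 = q at h5 h6
  generalize #(V \ V₀) = n at h5
  omega

theorem p_bs12 : S_bs12 := by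
  intro hrob hdif G _ _ _ κ V H H' w hκ hV hS
  set V₀ := V.filter fun a => κ ≤ 2 ^ 100 *
      #(V.filter fun x => (w x).natAbs = (w a).natAbs) with hV₀
  have hV₀V : V₀ ⊆ V := filter_subset _ _
  have hsm : 2 ^ 14 * #(V \ V₀) ≤ κ := bs12_small hS.wt
  have hcard : #(V \ V₀) + #V₀ = #V := by
    rw [card_sdiff_add_card_eq_card hV₀V]
  obtain ⟨V₁, hV₁, hc₁, hr₁⟩ := (hrob G G (Lg w (2 ^ 86))
    (fun Z Z' h => bs12_mono w _ h) V₀).2 (κ / 2 ^ 112) 173 (by
      intro Z hZ hc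
      have h1 : Nat.card (Lg w (2 ^ 86) V₀) ≤ 2 ^ 85 * κ :=
        (Nat.card_mono (Set.toFinite _) (bs12_le hS (2 ^ 86) hV₀V)).trans hS.card'
      have h2 := bs12_ge hdif (w := w) (Z := Z) (fun a ha => hS.wt a (hV₀V (hZ ha)))
      have h3 : #(V₀ \ Z) + #Z = #V₀ := card_sdiff_add_card_eq_card hZ
      have h4 : κ / 2 ^ 112 * 2 ^ 112 ≤ κ := Nat.div_mul_le_self _ _
      have h5 : κ ≤ 2 ^ 88 * Nat.card (Lg w (2 ^ 86) Z) := by
        generalize Nat.card (Lg w (2 ^ 86) Z) = l at h2 ⊢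
        generalize κ / 2 ^ 112 = b at h4 hc
        generalize #(V₀ \ Z) = n1 at h3 hc
        generalize #(V \ V₀) = n2 at hcard hsm
        omega
      have h6 : Nat.log 2 (Nat.card (Lg w (2 ^ 86) V₀)) ≤ Nat.log 2 κ + 85 := by
        calc Nat.log 2 (Nat.card (Lg w (2 ^ 86) V₀)) ≤ Nat.log 2 (2 ^ 85 * κ) :=
              Nat.log_mono_right h1
          _ = Nat.log 2 κ + 85 := by
              rw [mul_comm]
              exact bs12_log κ 85 (by rintro rfl; norm_num at hκ)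
      have h7 : Nat.log 2 κ ≤ Nat.log 2 (Nat.card (Lg w (2 ^ 86) Z)) + 88 := by
        calc Nat.log 2 κ ≤ Nat.log 2 (2 ^ 88 * Nat.card (Lg w (2 ^ 86) Z)) :=
              Nat.log_mono_right h5
          _ = Nat.log 2 (Nat.card (Lg w (2 ^ 86) Z)) + 88 := by
              rw [mul_comm]
              exact bs12_log _ 88 Nat.card_pos.ne'
      omega)
  have hq : κ / 2 ^ 112 * 2 ^ 112 ≤ κ := Nat.div_mul_le_self _ _
  have hc₂ : 2 ^ 104 * #(V₀ \ V₁) ≤ κ := by
    generalize κ / 2 ^ 112 = b at hq hc₁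
    generalize #(V₀ \ V₁) = n at hc₁
    omega
  refine ⟨V₁, hV₁.trans hV₀V, ?_, ?_, ?_⟩
  · have h1 : #(V \ V₁) ≤ #(V \ V₀) + #(V₀ \ V₁) := by
      refine (card_le_card ?_).trans (card_union_le _ _)
      intro x hx
      rw [mem_sdiff] at hx
      rw [mem_union, mem_sdiff, mem_sdiff]
      by_cases h : x ∈ V₀
      · exact Or.inr ⟨h, hx.2⟩
      · exact Or.inl ⟨hx.1, h⟩
    omega
  · intro a ha
    have h1 := (mem_filter.1 (hV₁ ha)).2
    have h2 : #(V.filter fun x => (w x).natAbs = (w a).natAbs) ≤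
        #(V₁.filter fun x => (w x).natAbs = (w a).natAbs) + #(V₀ \ V₁) := by
      refine (card_le_card ?_).trans (card_union_le _ _)
      intro x hx
      rw [mem_filter] at hx
      rw [mem_union, mem_filter, mem_sdiff]
      by_cases h : x ∈ V₁
      · exact Or.inl ⟨h, hx.2⟩
      · refine Or.inr ⟨?_, h⟩
        rw [hV₀, mem_filter]
        refine ⟨hx.1, ?_⟩
        rw [hx.2]
        exact h1
    omega
  · intro Z hZ hc
    refine hr₁ Z hZ ?_
    rw [Nat.le_div_iff_mul_le (by positivity), mul_comm]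
    exact hc

end Pool.Agent.Lib.MP_8ac08c_co.OE
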