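import Pool.Agent.Lib.MP_8ac08c_co.OE.Stm2

set_option autoImplicit false

open Finset

namespace Pool.Agent.Lib.MP_8ac08c_co.OE

open Pool.Agent.Lib.MP_8ac08c_co Pool.Agent.Lib.MP_8ac08c_co.OD

open Classical in
private lemma eta6_two_classes {G : Type} [AddCommGroup G] [Fintype G] {K : AddSubgroup G}
    (h5 : Nat.card K ≤ 2 * Nat.card (dbl K))
    {a b c : G} (ha : a ∈ K) (hb : b ∈ K) (hc : c ∈ K) (hac : a - c ∉ dbl K)
    (hbc : b - c ∉ dbl K) : a - b ∈ dbl K := by
  by_contra hab
  have h3 : #(univ.filter (fun y => y - a ∈ dbl K) ∪ univ.filter (fun y => y - b ∈ dbl K) ∪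
      univ.filter (fun y => y - c ∈ dbl K)) ≤ Nat.card K := by
    rw [← card_filter_sub K]
    apply card_le_card
    intro y hy
    rw [mem_union, mem_union, mem_filter, mem_filter, mem_filter] at hy
    rw [mem_filter]
    refine ⟨mem_univ _, ?_⟩
    rcases hy with (⟨_, h⟩ | ⟨_, h⟩) | ⟨_, h⟩
    · have := add_mem (dbl_le K h) ha
      rwa [sub_add_cancel] at this
    · have := add_mem (dbl_le K h) hb
      rwa [sub_add_cancel] at this
    · have := add_mem (dbl_le K h) hc
      rwa [sub_add_cancel] at this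
  have disj : ∀ u v : G, u - v ∉ dbl K →
      Disjoint (univ.filter (fun y => y - u ∈ dbl K)) (univ.filter (fun y => y - v ∈ dbl K)) := by
    intro u v huv
    rw [disjoint_left]
    intro y hy hy'
    rw [mem_filter] at hy hy'
    apply huv
    have := sub_mem hy'.2 hy.2
    have e : y - v - (y - u) = u - v := by abel
    rwa [e] at this
  rw [card_union_of_disjoint (by
    rw [disjoint_union_left]
    exact ⟨disj a c hac, disj b c hbc⟩), card_union_of_disjoint (disj a b hab), coset_card,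
    coset_card, coset_card] at h3
  have h6 : 0 < Nat.card (dbl K) := Nat.card_pos
  omega

open Classical in
theorem p_eta6 : S_eta6 := by
  intro G _ _ K κ h5 hev hκ0
  have hκ : κ % 2 = 0 := Nat.even_iff.1 hev
  obtain ⟨T, hTK, hTB, hTc⟩ := exists_eta K hκ0
  by_contra hcon
  obtain ⟨T', hT', hT'c⟩ := exists_subset_card_eq (s := T) (n := κ + 1) (by omega)
  have hsK : ∑ x ∈ T', x ∈ K := sum_mem (fun x hx => hTK x (hT' hx))
  have hne : ∀ t ∈ T', t - ∑ x ∈ T', x ∉ dbl K := by
    intro t ht hmem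
    apply hTB (T'.erase t) ((erase_subset _ _).trans hT')
    · rw [card_erase_of_mem ht]; omega
    · have h1 : ∑ x ∈ T'.erase t, x + t = ∑ x ∈ T', x := sum_erase_add _ _ ht
      have h3 := neg_mem hmem
      rw [← h1] at h3
      have e : -(t - (∑ x ∈ T'.erase t, x + t)) = ∑ x ∈ T'.erase t, x := by abel
      rwa [e] at h3
  have hT'ne : T'.Nonempty := by rw [← card_pos]; omega
  obtain ⟨t₀, ht₀⟩ := hT'ne
  apply hTB (T'.erase t₀) ((erase_subset _ _).trans hT')
  · rw [card_erase_of_mem ht₀]; omega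
  · have h1 : ∑ y ∈ T'.erase t₀, y - #(T'.erase t₀) • t₀ ∈ dbl K := by
      apply sum_sub_card_smul
      intro y hy
      rw [mem_erase] at hy
      exact eta6_two_classes h5 (hTK _ (hT' hy.2)) (hTK _ (hT' ht₀)) hsK (hne y hy.2) (hne t₀ ht₀)
    have h3 : #(T'.erase t₀) • t₀ ∈ dbl K :=
      nsmul_even_mem (add_self_mem_dbl (hTK _ (hT' ht₀))) (by rw [card_erase_of_mem ht₀]; omega)
    have := add_mem h1 h3
    rwa [sub_add_cancel] at this

end Pool.Agent.Lib.MP_8ac08c_co.OE
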