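import Pool.Agent.Lib.MP_8ac08c_co.OE.Stm

/-!
# MP_8ac08c_co, project OE, piece rel: largest relations (helper33)
-/

set_option autoImplicit false

open Finset

namespace Pool.Agent.Lib.MP_8ac08c_co.OE

private theorem rel_sdiff {ι Q : Type} [DecidableEq ι] [AddCommGroup Q] (q : ι → Q)
    (S S' : Finset ι) : ∑ x ∈ S, q x + ∑ x ∈ S' \ S, q x = ∑ x ∈ S', q x + ∑ x ∈ S \ S', q x := by
  have h1 := Finset.sum_inter_add_sum_sdiff S S' q
  have h2 := Finset.sum_inter_add_sum_sdiff S' S q
  rw [inter_comm S' S] at h2
  rw [← h1, ← h2]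
  abel

private theorem rel_pow {ι Q : Type} [DecidableEq ι] [AddCommGroup Q] [Finite Q] (q : ι → Q)
    (U : Finset ι) (h : ∀ S ⊆ U, ∀ S' ⊆ U, ∑ x ∈ S, q x = ∑ x ∈ S', q x → S = S') :
    2 ^ #U ≤ Nat.card Q := by
  classical
  have := Fintype.ofFinite Q
  rw [Nat.card_eq_fintype_card, ← Finset.card_powerset, ← Finset.card_univ]
  exact Finset.card_le_card_of_injOn (fun S => ∑ x ∈ S, q x) (fun _ _ => mem_univ _)
    (fun S hS S' hS' h0 => h S (mem_powerset.1 hS) S' (mem_powerset.1 hS') h0)

/-- a relation with a marked element on the first side -/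
private theorem rel_mark {ι Q : Type} [DecidableEq ι] [AddCommGroup Q] {q : ι → Q}
    {W : Finset ι} (h : Rel q W) {w : ι} (hw : w ∈ W) : ∃ P N : Finset ι, Disjoint P N ∧
    P ∪ N = W ∧ ∑ x ∈ P, q x = ∑ x ∈ N, q x ∧ w ∈ P := by
  obtain ⟨P, N, h1, h2, h3⟩ := h
  rw [← h2, mem_union] at hw
  rcases hw with hw | hw
  · exact ⟨P, N, h1, h2, h3, hw⟩
  · exact ⟨N, P, h1.symm, by rw [union_comm, h2], h3.symm, hw⟩

theorem p_rel : S_rel := by
  intro ι Q _ _ _ q X W hWX hW hmax
  classical
  -- (i)
  have hi : ∀ D ⊆ X \ W, Rel q D → D = ∅ := by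
    rintro D hD ⟨P', N', h1', h2', h3'⟩
    obtain ⟨P, N, h1, h2, h3⟩ := hW
    have hWD : Disjoint W D := (disjoint_sdiff).mono_right hD
    have hP : P ⊆ W := by rw [← h2]; exact subset_union_left
    have hN : N ⊆ W := by rw [← h2]; exact subset_union_right
    have hP' : P' ⊆ D := by rw [← h2']; exact subset_union_left
    have hN' : N' ⊆ D := by rw [← h2']; exact subset_union_right
    have hrel : Rel q (W ∪ D) := by
      refine ⟨P ∪ P', N ∪ N', ?_, ?_, ?_⟩
      · rw [disjoint_union_left, disjoint_union_right, disjoint_union_right]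
        exact ⟨⟨h1, hWD.mono hP hN'⟩, ⟨(hWD.mono hN hP').symm, h1'⟩⟩
      · rw [← h2, ← h2', union_union_union_comm]
      · rw [sum_union (hWD.mono hP hP'), sum_union (hWD.mono hN hN'), h3, h3']
    have h4 := hmax (W ∪ D) (union_subset hWX (hD.trans sdiff_subset)) hrel
    rw [card_union_of_disjoint hWD] at h4
    exact card_eq_zero.1 (by omega)
  -- (ii)
  have hii : ∀ S ⊆ X \ W, ∀ S' ⊆ X \ W, ∑ x ∈ S, q x = ∑ x ∈ S', q x → S = S' := by
    intro S hS S' hS' h
    have h1 : (S \ S') ∪ (S' \ S) = ∅ := by
      refine hi _ (union_subset (sdiff_subset.trans hS) (sdiff_subset.trans hS')) ?_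
      refine ⟨S \ S', S' \ S, ?_, rfl, ?_⟩
      · exact disjoint_sdiff_self_left.mono_right sdiff_subset
      · have h2 := rel_sdiff q S S'
        rw [h] at h2
        exact (add_left_cancel h2).symm
    rw [union_eq_empty, sdiff_eq_empty_iff_subset, sdiff_eq_empty_iff_subset] at h1
    exact subset_antisymm h1.1 h1.2
  refine ⟨hi, rel_pow q _ hii, ?_, ?_⟩
  · intro w hw hw2
    have key : ∀ S ⊆ X \ W, ∀ S' ⊆ X \ W, q w + q w + ∑ x ∈ S, q x ≠ ∑ x ∈ S', q x := by
      intro S hS S' hS' h
      obtain ⟨P, N, h1, h2, h3, hwP⟩ := rel_mark hW hw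
      have hwN : w ∉ N := fun h0 => (disjoint_left.1 h1 hwP) h0
      have hPW : P ⊆ W := by rw [← h2]; exact subset_union_left
      have hNW : N ⊆ W := by rw [← h2]; exact subset_union_right
      set S1 := S \ S' with hS1
      set S2 := S' \ S with hS2
      have hS1C : S1 ⊆ X \ W := sdiff_subset.trans hS
      have hS2C : S2 ⊆ X \ W := sdiff_subset.trans hS'
      have hdis : Disjoint S1 S2 := disjoint_sdiff_self_left.mono_right sdiff_subset
      have hWC : Disjoint W (X \ W) := disjoint_sdiff
      have hN' : insert w N ⊆ W := insert_subset hw hNW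
      have hP' : P.erase w ⊆ W := (erase_subset _ _).trans hPW
      have hun : insert w N ∪ P.erase w = W := by
        rw [← h2]
        ext y
        simp only [mem_union, mem_insert, mem_erase]
        constructor
        · rintro ((rfl | hy) | hy)
          · exact Or.inl hwP
          · exact Or.inr hy
          · exact Or.inl hy.2
        · rintro (hy | hy)
          · by_cases hyw : y = w
            · exact Or.inl (Or.inl hyw)
            · exact Or.inr ⟨hyw, hy⟩
          · exact Or.inl (Or.inr hy)
      have hdis2 : Disjoint (insert w N) (P.erase w) := by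
        rw [disjoint_insert_left]
        exact ⟨notMem_erase w P, (h1.symm).mono_right (erase_subset _ _)⟩
      have hrel : Rel q (W ∪ (S1 ∪ S2)) := by
        refine ⟨insert w N ∪ S1, P.erase w ∪ S2, ?_, ?_, ?_⟩
        · rw [disjoint_union_left, disjoint_union_right, disjoint_union_right]
          exact ⟨⟨hdis2, hWC.mono hN' hS2C⟩, ⟨(hWC.mono hP' hS1C).symm, hdis⟩⟩
        · rw [← hun, union_union_union_comm]
        · rw [sum_union (hWC.mono hN' hS1C), sum_union (hWC.mono hP' hS2C), sum_insert hwN]
          have h4 : ∑ x ∈ P.erase w, q x + q w = ∑ x ∈ P, q x := sum_erase_add _ _ hwP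
          have h5 := rel_sdiff q S S'
          have h6 : ∑ x ∈ S2, q x = q w + q w + ∑ x ∈ S1, q x := by
            rw [← h] at h5
            have h7 : ∑ x ∈ S, q x + ∑ x ∈ S2, q x =
                ∑ x ∈ S, q x + (q w + q w + ∑ x ∈ S1, q x) := by
              rw [h5]
              abel
            exact add_left_cancel h7
          rw [h6, ← h3, ← h4]
          abel
      have h4 := hmax _ (union_subset hWX (union_subset (hS1C.trans sdiff_subset)
        (hS2C.trans sdiff_subset))) hrel
      rw [card_union_of_disjoint (hWC.mono_right (union_subset hS1C hS2C))] at h4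
      have h5 : S1 ∪ S2 = ∅ := card_eq_zero.1 (by omega)
      rw [union_eq_empty, hS1, hS2, sdiff_eq_empty_iff_subset, sdiff_eq_empty_iff_subset] at h5
      have h6 : S = S' := subset_antisymm h5.1 h5.2
      rw [h6] at h
      exact hw2 (add_eq_right.1 h)
    have := Fintype.ofFinite Q
    have hc : 2 ^ (#(X \ W) + 1) = #((univ : Finset Bool) ×ˢ (X \ W).powerset) := by
      rw [card_product, card_powerset, card_univ, Fintype.card_bool, pow_succ, mul_comm]
    rw [Nat.card_eq_fintype_card, hc, ← Finset.card_univ]
    refine Finset.card_le_card_of_injOn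
      (fun t => (if t.1 = true then q w + q w else 0) + ∑ x ∈ t.2, q x)
      (fun _ _ => mem_univ _) ?_
    rintro ⟨d, S⟩ hS ⟨d', S'⟩ hS' h
    have hS1 : S ⊆ X \ W := mem_powerset.1 (mem_product.1 hS).2
    have hS1' : S' ⊆ X \ W := mem_powerset.1 (mem_product.1 hS').2
    cases d <;> cases d'
    · have h0 : ∑ x ∈ S, q x = ∑ x ∈ S', q x := by simpa using h
      rw [hii S hS1 S' hS1' h0]
    · have h0 : ∑ x ∈ S, q x = q w + q w + ∑ x ∈ S', q x := by simpa using h
      exact absurd h0.symm (key S' hS1' S hS1)
    · have h0 : q w + q w + ∑ x ∈ S, q x = ∑ x ∈ S', q x := by simpa using h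
      exact absurd h0 (key S hS1 S' hS1')
    · have h0 : ∑ x ∈ S, q x = ∑ x ∈ S', q x := by simpa using h
      rw [hii S hS1 S' hS1' h0]
  · intro w hw hw0 hw2 hcard
    have hwC : w ∉ X \ W := fun h0 => (mem_sdiff.1 h0).2 hw
    -- a representation of `q w`
    have h1 : ∃ S0 ⊆ X \ W, ∃ S' ⊆ X \ W, Disjoint S0 S' ∧
        q w + ∑ x ∈ S0, q x = ∑ x ∈ S', q x := by
      by_contra hno
      push Not at hno
      have h2 : 2 ^ #(insert w (X \ W)) ≤ Nat.card Q := by
        apply rel_pow q
        -- the case that `w` is in `S` but not in `S'`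
        have hA : ∀ S ⊆ insert w (X \ W), ∀ S' ⊆ insert w (X \ W), w ∈ S → w ∉ S' →
            ∑ x ∈ S, q x ≠ ∑ x ∈ S', q x := by
          intro S hS S' hS' hwS hwS' h
          have h3 : S \ S' = insert w ((S \ S').erase w) := by
            rw [insert_erase (mem_sdiff.2 ⟨hwS, hwS'⟩)]
          have h4 : (S \ S').erase w ⊆ X \ W := by
            intro y hy
            rw [mem_erase, mem_sdiff] at hy
            exact (mem_insert.1 (hS hy.2.1)).resolve_left hy.1
          have h5 : S' \ S ⊆ X \ W := by
            intro y hy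
            rw [mem_sdiff] at hy
            exact (mem_insert.1 (hS' hy.1)).resolve_left (fun h0 => hwS' (h0 ▸ hy.1))
          refine hno _ h4 _ h5 ?_ ?_
          · exact (disjoint_sdiff_self_left.mono_right sdiff_subset).mono_left (erase_subset _ _)
          · have h6 : q w + ∑ x ∈ (S \ S').erase w, q x = ∑ x ∈ S \ S', q x :=
              add_sum_erase _ _ (mem_sdiff.2 ⟨hwS, hwS'⟩)
            rw [h6]
            have h7 := rel_sdiff q S S'
            rw [h] at h7
            exact (add_left_cancel h7).symm
        intro S hS S' hS' h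
        by_cases hwS : w ∈ S
        · by_cases hwS' : w ∈ S'
          · have h3 : S.erase w = S'.erase w := by
              apply hii
              · intro y hy
                rw [mem_erase] at hy
                exact (mem_insert.1 (hS hy.2)).resolve_left hy.1
              · intro y hy
                rw [mem_erase] at hy
                exact (mem_insert.1 (hS' hy.2)).resolve_left hy.1
              · have h4 := add_sum_erase S q hwS
                have h5 := add_sum_erase S' q hwS'
                rw [← h4, ← h5] at h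
                exact add_left_cancel h
            rw [← insert_erase hwS, ← insert_erase hwS', h3]
          · exact absurd h (hA S hS S' hS' hwS hwS')
        · by_cases hwS' : w ∈ S'
          · exact absurd h.symm (hA S' hS' S hS hwS' hwS)
          · apply hii _ _ _ _ h
            · intro y hy
              exact (mem_insert.1 (hS hy)).resolve_left (fun h0 => hwS (h0 ▸ hy))
            · intro y hy
              exact (mem_insert.1 (hS' hy)).resolve_left (fun h0 => hwS' (h0 ▸ hy))
      rw [card_insert_of_notMem hwC] at h2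
      omega
    obtain ⟨S0, hS0, S', hS', hdis, hq⟩ := h1
    obtain ⟨P, N, h1, h2, h3, hwP⟩ := rel_mark hW hw
    have hwN : w ∉ N := fun h0 => (disjoint_left.1 h1 hwP) h0
    have hPW : P ⊆ W := by rw [← h2]; exact subset_union_left
    have hNW : N ⊆ W := by rw [← h2]; exact subset_union_right
    have hWC : Disjoint W (X \ W) := disjoint_sdiff
    have hP' : P.erase w ⊆ W := (erase_subset _ _).trans hPW
    have hrel : Rel q (W.erase w ∪ (S' ∪ S0)) := by
      refine ⟨P.erase w ∪ S', N ∪ S0, ?_, ?_, ?_⟩
      · rw [disjoint_union_left, disjoint_union_right, disjoint_union_right]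
        exact ⟨⟨h1.mono_left (erase_subset _ _), hWC.mono hP' hS0⟩,
          ⟨(hWC.mono hNW hS').symm, hdis.symm⟩⟩
      · have h4 : W.erase w = P.erase w ∪ N := by
          rw [← h2]
          ext y
          simp only [mem_union, mem_erase]
          constructor
          · rintro ⟨hy, hy2 | hy2⟩
            · exact Or.inl ⟨hy, hy2⟩
            · exact Or.inr hy2
          · rintro (hy | hy)
            · exact ⟨hy.1, Or.inl hy.2⟩
            · exact ⟨fun h0 => hwN (h0 ▸ hy), Or.inr hy⟩
        rw [h4, union_union_union_comm]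
      · rw [sum_union (hWC.mono hP' hS'), sum_union (hWC.mono hNW hS0)]
        have h4 : ∑ x ∈ P.erase w, q x + q w = ∑ x ∈ P, q x := sum_erase_add _ _ hwP
        rw [← h3, ← h4, ← hq]
        abel
    have h4 := hmax _ (union_subset ((erase_subset _ _).trans hWX)
      (union_subset (hS'.trans sdiff_subset) (hS0.trans sdiff_subset))) hrel
    have h5 : Disjoint (W.erase w) (S' ∪ S0) :=
      hWC.mono (erase_subset _ _) (union_subset hS' hS0)
    rw [card_union_of_disjoint h5, card_erase_of_mem hw, card_union_of_disjoint hdis.symm] at h4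
    have h6 : 0 < #W := card_pos.2 ⟨w, hw⟩
    have hneg : -q w = q w := neg_eq_of_add_eq_zero_left hw2
    rcases Nat.eq_zero_or_pos #S0 with h7 | h7
    · rw [card_eq_zero] at h7
      rcases Nat.eq_zero_or_pos #S' with h8 | h8
      · rw [card_eq_zero] at h8
        rw [h7, h8, sum_empty, add_zero] at hq
        exact absurd hq hw0
      · obtain ⟨c, hc⟩ := card_eq_one.1 (show #S' = 1 by omega)
        rw [h7, hc, sum_empty, sum_singleton, add_zero] at hq
        exact ⟨c, hS' (by rw [hc]; exact mem_singleton_self c), hq.symm⟩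
    · have h8 : #S' = 0 := by omega
      rw [card_eq_zero] at h8
      obtain ⟨c, hc⟩ := card_eq_one.1 (show #S0 = 1 by omega)
      rw [h8, hc, sum_empty, sum_singleton] at hq
      refine ⟨c, hS0 (by rw [hc]; exact mem_singleton_self c), ?_⟩
      rw [← hneg]
      exact (neg_eq_of_add_eq_zero_right hq).symm

end Pool.Agent.Lib.MP_8ac08c_co.OE
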